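import Mathlib.Data.Int.Star
import Mathlib.Algebra.Order.Ring.Star
import Mathlib.MeasureTheory.Integral.Average
import Mathlib.Combinatorics.SimpleGraph.Basic
import Mathlib.Topology.Separation.CompletelyRegular
import Mathlib.MeasureTheory.Order.Group.Lattice
import Pool.Agent.MP_c59ecb_co.Geo

-- ======== part 0: formerly Pool.Agent.MP_c59ecb_co.Fam
section MrgPart0

set_option autoImplicit false

namespace Pool.Agent.MP_c59ecb_co

open MeasureTheory Complex Set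
open scoped ComplexConjugate ENNReal

variable {ι : Type} [Fintype ι] [DecidableEq ι] (c ω : ι → ℂ)

/-- the part of a square that is covered by another square -/
def Dbl (k : ι) : Set ℂ := Sq (c k) (ω k) ∩ ⋃ l ∈ ({k}ᶜ : Finset ι), Sq (c l) (ω l)

/-- the area of the part of a square that is covered by another square -/
noncomputable def ov (k : ι) : ℝ := (volume (Dbl c ω k)).toReal

lemma measurableSet_Dbl (k : ι) : MeasurableSet (Dbl c ω k) :=
  (isClosed_Sq _ _).measurableSet.inter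
    (Finset.measurableSet_biUnion _ (fun _ _ => (isClosed_Sq _ _).measurableSet))

lemma ov_nonneg (k : ι) : 0 ≤ ov c ω k := ENNReal.toReal_nonneg

lemma mem_Dbl {k : ι} {p : ℂ} :
    p ∈ Dbl c ω k ↔ p ∈ Sq (c k) (ω k) ∧ ∃ l, l ≠ k ∧ p ∈ Sq (c l) (ω l) := by
  simp [Dbl]

variable {c ω} (hω : ∀ k, ‖ω k‖ = 1)
include hω

lemma volume_Dbl (k : ι) : volume (Dbl c ω k) = ENNReal.ofReal (ov c ω k) := by
  rw [ov, ENNReal.ofReal_toReal]
  refine ne_top_of_le_ne_top ENNReal.one_ne_top ?_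
  rw [← volume_Sq (hω k) (c k)]
  exact measure_mono inter_subset_left

lemma inter_le {k l : ι} (h : l ≠ k) :
    volume (Sq (c k) (ω k) ∩ Sq (c l) (ω l)) ≤ ENNReal.ofReal (ov c ω k) := by
  rw [← volume_Dbl hω]
  exact measure_mono (fun p hp => (mem_Dbl c ω).2 ⟨hp.1, l, h, hp.2⟩)

lemma sum_ov_le {Ω : Set ℂ} (hΩ : MeasurableSet Ω) (hc : ∀ p ∈ Ω, ∃ k, p ∈ Sq (c k) (ω k))
    {A : ℝ} (hA : ENNReal.ofReal A ≤ volume Ω) :
    ∑ k, ov c ω k + 2 * A ≤ 2 * Fintype.card ι := by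
  classical
  have h1 : ∀ p, ∑ k, (Dbl c ω k).indicator (1 : ℂ → ℝ≥0∞) p + 2 * Ω.indicator 1 p ≤
      2 * ∑ k, (Sq (c k) (ω k)).indicator (1 : ℂ → ℝ≥0∞) p := by
    intro p
    have h2 : ∑ k, (Sq (c k) (ω k)).indicator (1 : ℂ → ℝ≥0∞) p =
        ((Finset.univ.filter (fun k => p ∈ Sq (c k) (ω k))).card : ℕ) := by
      simp only [indicator, Pi.one_apply, Finset.sum_boole]
    have h3 : ∑ k, (Dbl c ω k).indicator (1 : ℂ → ℝ≥0∞) p =
        ((Finset.univ.filter (fun k => p ∈ Dbl c ω k)).card : ℕ) := by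
      simp only [indicator, Pi.one_apply, Finset.sum_boole]
    have h4 : (Finset.univ.filter (fun k => p ∈ Dbl c ω k)).card ≤
        (Finset.univ.filter (fun k => p ∈ Sq (c k) (ω k))).card :=
      Finset.card_le_card (fun k hk => by
        simp only [Finset.mem_filter, Finset.mem_univ, true_and] at hk ⊢
        exact hk.1)
    rw [h2, h3]
    by_cases hp : p ∈ Ω
    · rw [indicator_of_mem hp, Pi.one_apply, mul_one]
      have h5 : (Finset.univ.filter (fun k => p ∈ Dbl c ω k)).card + 2 ≤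
          2 * (Finset.univ.filter (fun k => p ∈ Sq (c k) (ω k))).card := by
        rcases (Finset.univ.filter (fun k => p ∈ Dbl c ω k)).eq_empty_or_nonempty with h | ⟨k, hk⟩
        · obtain ⟨k, hk⟩ := hc p hp
          have : 0 < (Finset.univ.filter (fun k => p ∈ Sq (c k) (ω k))).card :=
            Finset.card_pos.2 ⟨k, by simpa using hk⟩
          rw [h, Finset.card_empty]
          omega
        · obtain ⟨h6, l, hl, h7⟩ := (mem_Dbl c ω).1 (Finset.mem_filter.1 hk).2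
          have : 1 < (Finset.univ.filter (fun k => p ∈ Sq (c k) (ω k))).card :=
            Finset.one_lt_card.2 ⟨l, by simpa using h7, k, by simpa using h6, hl⟩
          omega
      exact_mod_cast h5
    · rw [indicator_of_notMem hp, mul_zero, add_zero]
      have h5 : (Finset.univ.filter (fun k => p ∈ Dbl c ω k)).card ≤
          2 * (Finset.univ.filter (fun k => p ∈ Sq (c k) (ω k))).card := by omega
      exact_mod_cast h5
  have h2 := lintegral_mono (μ := volume) h1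
  have m1 : ∀ k, Measurable ((Dbl c ω k).indicator (1 : ℂ → ℝ≥0∞)) :=
    fun k => measurable_one.indicator (measurableSet_Dbl c ω k)
  have m2 : ∀ k, Measurable ((Sq (c k) (ω k)).indicator (1 : ℂ → ℝ≥0∞)) :=
    fun k => measurable_one.indicator (isClosed_Sq _ _).measurableSet
  rw [lintegral_add_left (Finset.measurable_fun_sum _ (fun k _ => m1 k)),
    lintegral_const_mul _ (measurable_one.indicator hΩ),
    lintegral_const_mul _ (Finset.measurable_fun_sum _ (fun k _ => m2 k)),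
    lintegral_finsetSum _ (fun k _ => m1 k), lintegral_finsetSum _ (fun k _ => m2 k),
    lintegral_indicator_one hΩ] at h2
  simp only [lintegral_indicator_one (measurableSet_Dbl c ω _),
    lintegral_indicator_one (isClosed_Sq _ _).measurableSet, volume_Sq (hω _), volume_Dbl hω,
    Finset.sum_const, Finset.card_univ, nsmul_eq_mul, mul_one] at h2
  rcases le_total A 0 with hA0 | hA0
  · have h3 : ∑ k, ENNReal.ofReal (ov c ω k) ≤ 2 * (Fintype.card ι : ℝ≥0∞) :=
      le_trans le_self_add h2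
    rw [← ENNReal.ofReal_sum_of_nonneg (fun k _ => ov_nonneg c ω k)] at h3
    have h4 : (2 * (Fintype.card ι : ℝ≥0∞)) = ENNReal.ofReal (2 * Fintype.card ι) := by
      rw [ENNReal.ofReal_mul (by norm_num)]
      simp
    rw [h4, ENNReal.ofReal_le_ofReal_iff (by positivity)] at h3
    linarith
  · have h3 : ∑ k, ENNReal.ofReal (ov c ω k) + 2 * ENNReal.ofReal A ≤
        2 * (Fintype.card ι : ℝ≥0∞) := le_trans (by gcongr) h2
    have h4 : (2 * (Fintype.card ι : ℝ≥0∞)) = ENNReal.ofReal (2 * Fintype.card ι) := by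
      rw [ENNReal.ofReal_mul (by norm_num)]
      simp
    have h5 : 2 * ENNReal.ofReal A = ENNReal.ofReal (2 * A) := by
      rw [ENNReal.ofReal_mul (by norm_num)]
      simp
    rw [← ENNReal.ofReal_sum_of_nonneg (fun k _ => ov_nonneg c ω k), h4, h5,
      ← ENNReal.ofReal_add (Finset.sum_nonneg (fun k _ => ov_nonneg c ω k)) (by positivity),
      ENNReal.ofReal_le_ofReal_iff (by positivity)] at h3
    exact h3

lemma pack (z : ℂ) (T : Finset ι) (hT : ∀ k ∈ T, ‖c k - z‖ ≤ 4 ∧ ov c ω k ≤ 1 / 2) :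
    T.card ≤ 200 := by
  have h1 : volume (⋃ k ∈ T, Sq (c k) (ω k) \ Dbl c ω k) =
      ∑ k ∈ T, volume (Sq (c k) (ω k) \ Dbl c ω k) := by
    refine measure_biUnion_finset (fun k _ l _ hkl => ?_)
      (fun k _ => (isClosed_Sq _ _).measurableSet.diff (measurableSet_Dbl c ω k))
    exact Set.disjoint_left.2 (fun p hp hq => hp.2 ((mem_Dbl c ω).2 ⟨hp.1, l, hkl.symm, hq.1⟩))
  have h2 : (⋃ k ∈ T, Sq (c k) (ω k) \ Dbl c ω k) ⊆ Box z 1 (-5) 5 (-5) 5 := by
    intro p hp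
    simp only [mem_iUnion] at hp
    obtain ⟨k, hk, hp, -⟩ := hp
    have h3 : ‖loc z 1 p‖ ≤ 5 := by
      rw [norm_loc norm_one]
      calc ‖p - z‖ = ‖(p - c k) + (c k - z)‖ := by ring_nf
        _ ≤ _ := norm_add_le _ _
        _ ≤ 5 := by linarith [norm_le_of_mem (hω k) hp, (hT k hk).1]
    exact ⟨abs_le.1 ((abs_re_le_norm _).trans h3), abs_le.1 ((abs_im_le_norm _).trans h3)⟩
  have h3 : ∀ k ∈ T, ENNReal.ofReal (1 / 2) ≤ volume (Sq (c k) (ω k) \ Dbl c ω k) := by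
    intro k hk
    have h4 : volume (Dbl c ω k) ≠ ⊤ := by
      rw [volume_Dbl hω]
      exact ENNReal.ofReal_ne_top
    have h5 : Dbl c ω k ⊆ Sq (c k) (ω k) := inter_subset_left
    rw [measure_sdiff h5 (measurableSet_Dbl c ω k).nullMeasurableSet h4,
      volume_Sq (hω k), volume_Dbl hω,
      ← ENNReal.ofReal_one, ← ENNReal.ofReal_sub _ (ov_nonneg c ω k)]
    exact ENNReal.ofReal_le_ofReal (by linarith [(hT k hk).2])
  have h4 := (Finset.sum_le_sum h3).trans (h1.symm.le.trans (measure_mono h2))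
  rw [volume_Box norm_one, ← ENNReal.ofReal_sum_of_nonneg (fun _ _ => by norm_num),
    ← ENNReal.ofReal_mul (by norm_num), ENNReal.ofReal_le_ofReal_iff (by norm_num),
    Finset.sum_const, nsmul_eq_mul] at h4
  have h5 : (T.card : ℝ) ≤ 200 := by linarith
  exact_mod_cast h5

omit hω in
variable (c) in
/-- the squares near a given one -/
noncomputable def near (i : ι) : Finset ι := Finset.univ.filter (fun k => ‖c k - c i‖ ≤ 4)

omit hω in
variable (c ω) in
/-- the overlap near a given square -/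
noncomputable def bb (i : ι) : ℝ := ∑ k ∈ near c i, ov c ω k

omit hω [DecidableEq ι] in
lemma mem_near {i k : ι} : k ∈ near c i ↔ ‖c k - c i‖ ≤ 4 := by simp [near]

omit hω in
lemma ov_le_bb {i k : ι} (h : ‖c k - c i‖ ≤ 4) : ov c ω k ≤ bb c ω i :=
  Finset.single_le_sum (f := ov c ω) (fun l _ => ov_nonneg c ω l) (mem_near.2 h)

omit hω in
lemma ov_le_bb_self (i : ι) : ov c ω i ≤ bb c ω i := ov_le_bb (by simp)

omit hω in
lemma bb_nonneg (i : ι) : 0 ≤ bb c ω i := Finset.sum_nonneg (fun l _ => ov_nonneg c ω l)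

lemma card_near {i : ι} (h : bb c ω i ≤ 1 / 2) : (near c i).card ≤ 200 :=
  pack hω (c i) _ (fun _ hk => ⟨mem_near.1 hk, (ov_le_bb (mem_near.1 hk)).trans h⟩)

lemma sum_min_le {η : ℝ} (h : η ≤ 1 / 2) : ∑ i, min (bb c ω i) η ≤ 201 * ∑ k, ov c ω k := by
  have h1 : ∀ i, min (bb c ω i) η ≤ ov c ω i +
      ∑ k, if ‖c k - c i‖ ≤ 4 ∧ ov c ω i ≤ 1 / 2 then ov c ω k else 0 := by
    intro i
    by_cases hi : ov c ω i ≤ 1 / 2
    · simp only [hi, and_true]
      rw [← Finset.sum_filter]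
      exact (min_le_left _ _).trans (le_add_of_nonneg_left (ov_nonneg c ω i))
    · simp only [hi, and_false, if_false, Finset.sum_const_zero, add_zero]
      exact (min_le_right _ _).trans (by linarith)
  refine (Finset.sum_le_sum (fun i _ => h1 i)).trans ?_
  rw [Finset.sum_add_distrib, Finset.sum_comm]
  have h2 : ∀ k, (∑ i, if ‖c k - c i‖ ≤ 4 ∧ ov c ω i ≤ 1 / 2 then ov c ω k else 0) ≤
      200 * ov c ω k := by
    intro k
    rw [← Finset.sum_filter, Finset.sum_const, nsmul_eq_mul]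
    refine mul_le_mul_of_nonneg_right ?_ (ov_nonneg c ω k)
    have := pack hω (c k) (Finset.univ.filter (fun i => ‖c k - c i‖ ≤ 4 ∧ ov c ω i ≤ 1 / 2))
      (fun i hi => by
        have := (Finset.mem_filter.1 hi).2
        exact ⟨by rw [norm_sub_rev]; exact this.1, this.2⟩)
    exact_mod_cast this
  have h3 := Finset.sum_le_sum (fun k (_ : k ∈ Finset.univ) => h2 k)
  rw [← Finset.mul_sum] at h3
  linarith

end Pool.Agent.MP_c59ecb_co

end MrgPart0

-- ======== part 1: formerly Pool.Agent.MP_c59ecb_co.Rigid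
section MrgPart1

set_option autoImplicit false

namespace Pool.Agent.MP_c59ecb_co

open MeasureTheory Complex Set
open scoped ComplexConjugate ENNReal

/-- crossing from one closed set to another along a segment -/
lemma cross {A B : Set ℂ} (hA : IsClosed A) (hB : IsClosed B) (P D : ℂ)
    (hc : ∀ t ∈ Icc (0 : ℝ) 1, P + t * D ∈ A ∪ B) (h0 : P ∈ A) (h1 : P + D ∉ A) :
    ∃ t ∈ Icc (0 : ℝ) 1, P + t * D ∈ A ∧ P + t * D ∈ B ∧ P + t * D ∉ interior A := by
  have hγ : Continuous (fun t : ℝ => P + t * D) := by fun_prop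
  obtain ⟨t, ht, h2, h3⟩ := isPreconnected_closed_iff.1 (isPreconnected_Icc (a := (0 : ℝ)) (b := 1))
    ((fun t : ℝ => P + t * D) ⁻¹' A) (closure (Icc 0 1 \ (fun t : ℝ => P + t * D) ⁻¹' A))
    (hA.preimage hγ) isClosed_closure
    (fun t ht => by
      by_cases h : t ∈ (fun t : ℝ => P + t * D) ⁻¹' A
      · exact Or.inl h
      · exact Or.inr (subset_closure ⟨ht, h⟩))
    ⟨0, ⟨le_rfl, zero_le_one⟩, by simpa using h0⟩
    ⟨1, ⟨zero_le_one, le_rfl⟩, subset_closure ⟨⟨zero_le_one, le_rfl⟩, by simpa using h1⟩⟩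
  refine ⟨t, ht, h2, ?_, fun h4 => ?_⟩
  · exact closure_minimal (fun s hs => (hc s hs.1).resolve_left hs.2) (hB.preimage hγ) h3
  · obtain ⟨s, hs, hs'⟩ := mem_closure_iff.1 h3 _ (isOpen_interior.preimage hγ) h4
    exact hs'.2 (interior_subset (s := A) hs)

lemma edge_of_not_interior {c ω p : ℂ} (h : ‖ω‖ = 1) (hp : p ∈ Sq c ω) {A : Set ℂ}
    (hA : Sq c ω ⊆ A) (hi : p ∉ interior A) :
    ∃ m : Fin 4, ∃ v : ℝ, |v| ≤ 1 / 2 ∧ p = c + ω * I ^ m.val * ⟨1 / 2, v⟩ := by
  have h1 : ¬ (|(loc c ω p).re| < 1 / 2 ∧ |(loc c ω p).im| < 1 / 2) := by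
    intro h2
    have h3 : IsOpen {p | |(loc c ω p).re| < 1 / 2 ∧ |(loc c ω p).im| < 1 / 2} :=
      (isOpen_lt (continuous_re.comp (continuous_loc c ω)).abs continuous_const).inter
        (isOpen_lt (continuous_im.comp (continuous_loc c ω)).abs continuous_const)
    exact hi (interior_maximal (fun q hq => hA ⟨hq.1.le, hq.2.le⟩) h3 h2)
  have e := eq_loc h c p
  obtain ⟨h2, h3⟩ := hp
  generalize loc c ω p = z at *
  have h4 : |z.re| = 1 / 2 ∨ |z.im| = 1 / 2 := by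
    by_contra h5
    push Not at h5
    exact h1 ⟨lt_of_le_of_ne h2 h5.1, lt_of_le_of_ne h3 h5.2⟩
  rcases h4 with h4 | h4 <;> rcases (abs_eq (by norm_num)).1 h4 with h5 | h5
  · refine ⟨0, z.im, h3, ?_⟩
    rw [e, mul_assoc]
    congr 2
    apply Complex.ext <;> simp [h5]
  · refine ⟨2, -z.im, by rwa [abs_neg], ?_⟩
    rw [e, mul_assoc]
    congr 2
    apply Complex.ext <;> simp [h5]
  · refine ⟨1, -z.re, by rwa [abs_neg], ?_⟩
    rw [e, mul_assoc]
    congr 2
    apply Complex.ext <;> simp [h5]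
  · refine ⟨3, z.re, h2, ?_⟩
    rw [e, mul_assoc]
    congr 2
    apply Complex.ext <;> simp [h5, pow_succ]

lemma Sq_mul_I_pow (c ω : ℂ) (m : ℕ) : Sq c (ω * I ^ m) = Sq c ω := by
  induction m with
  | zero => simp
  | succ m ih => rw [pow_succ, ← mul_assoc, Sq_mul_I, ih]

lemma exists_gap {ι : Type} (N : Finset ι) (hN : N.card ≤ 200) (f : ι → ℝ) {D : ℝ} (hD : 0 ≤ D) :
    ∃ m : ℕ, m ≤ 200 ∧ ∀ k ∈ N, ¬ (m * D < f k ∧ f k ≤ (m + 1) * D) := by
  by_contra h
  push Not at h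
  have : Nonempty ι := ⟨(h 0 (by omega)).choose⟩
  choose! g hg using h
  have h1 := Finset.card_le_card_of_injOn (s := Finset.range 201) (t := N) g
    (fun m hm => (hg m (by simpa [Nat.lt_succ_iff] using hm)).1) (fun m hm m' hm' e => by
      have h2 := (hg m (by simpa [Nat.lt_succ_iff] using hm)).2
      have h3 := (hg m' (by simpa [Nat.lt_succ_iff] using hm')).2
      rw [e] at h2
      by_contra hne
      rcases lt_or_gt_of_ne hne with h4 | h4
      · have h5 : (m + 1 : ℝ) ≤ m' := by exact_mod_cast h4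
        nlinarith
      · have h5 : (m' + 1 : ℝ) ≤ m := by exact_mod_cast h4
        nlinarith)
  rw [Finset.card_range] at h1
  omega

lemma exists_perp (D : ℂ) : ∃ ζ : ℂ, ‖ζ‖ = 1 ∧ (D * conj ζ).re = 0 := by
  by_cases h : D = 0
  · exact ⟨1, norm_one, by simp [h]⟩
  · have h1 : ‖D‖ ≠ 0 := norm_ne_zero_iff.2 h
    refine ⟨I * D * (‖D‖⁻¹ : ℝ), by simp [h1], ?_⟩
    simp only [map_mul, conj_I, conj_ofReal, mul_re, mul_im, neg_re, neg_im, I_re, I_im, conj_re,
      conj_im, ofReal_re, ofReal_im]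
    ring

variable {ι : Type} [Fintype ι] [DecidableEq ι] {c ω : ι → ℂ} (hω : ∀ k, ‖ω k‖ = 1)
include hω

/-- local rigidity: if there is little overlap near a square, the nearby squares are parallel to it
up to a small angle -/
lemma rigid {i : ι} (hb : bb c ω i < 1 / 25)
    (hc : ∀ p, ‖p - c i‖ ≤ 16 / 5 → ∃ k, p ∈ Sq (c k) (ω k)) {k : ι} (hk : ‖c k - c i‖ ≤ 3) :
    ‖ω i ^ 4 - ω k ^ 4‖ ≤ 10 ^ 16 * bb c ω i := by
  have hb0 := bb_nonneg (c := c) (ω := ω) i
  have hN := card_near hω (i := i) (hb.le.trans (by norm_num))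
  obtain ⟨m, hm, hgap⟩ := exists_gap (near c i) hN (fun l => ‖ω i ^ 4 - ω l ^ 4‖)
    (D := 16 * 800000 ^ 2 * bb c ω i) (by positivity)
  set D := 16 * 800000 ^ 2 * bb c ω i with hD
  have hD0 : 0 ≤ D := by positivity
  by_contra hcon
  have hm' : (m : ℝ) ≤ 200 := by exact_mod_cast hm
  have hkA : ¬ ‖ω i ^ 4 - ω k ^ 4‖ ≤ m * D := fun h => hcon (h.trans (by
    calc (m : ℝ) * D ≤ 200 * D := by gcongr
      _ ≤ _ := by rw [hD]; nlinarith))
  set A := (near c i).filter (fun l => ‖ω i ^ 4 - ω l ^ 4‖ ≤ m * D) with hA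
  set B := (near c i).filter (fun l => ¬ ‖ω i ^ 4 - ω l ^ 4‖ ≤ m * D) with hB
  have cA : IsClosed (⋃ l ∈ A, Sq (c l) (ω l)) := isClosed_biUnion_finset (fun l _ => isClosed_Sq _ _)
  have cB : IsClosed (⋃ l ∈ B, Sq (c l) (ω l)) := isClosed_biUnion_finset (fun l _ => isClosed_Sq _ _)
  obtain ⟨ζ, hζ, hperp⟩ := exists_perp (c k - c i)
  have hw : ∀ r : Fin 160001, ‖ζ * ((r.val / 800000 : ℝ) : ℂ)‖ ≤ 1 / 5 := by
    intro r
    have : (r.val : ℝ) ≤ 160000 := by exact_mod_cast Nat.lt_succ_iff.1 r.2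
    rw [norm_mul, hζ, one_mul, norm_real, Real.norm_of_nonneg (by positivity)]
    linarith
  have line : ∀ r : Fin 160001, ∃ x : ι × Fin 4 × ι, x.1 ∈ A ∧ x.2.2 ∈ B ∧ ∃ v t : ℝ,
      |v| ≤ 1 / 2 ∧ c x.1 + ω x.1 * I ^ x.2.1.val * ⟨1 / 2, v⟩ ∈ Sq (c x.2.2) (ω x.2.2) ∧
      c x.1 + ω x.1 * I ^ x.2.1.val * ⟨1 / 2, v⟩ =
        c i + ζ * ((r.val / 800000 : ℝ) : ℂ) + t * (c k - c i) := by
    intro r
    obtain ⟨t, -, h1, h2, h3⟩ := cross cA cB (c i + ζ * ((r.val / 800000 : ℝ) : ℂ)) (c k - c i)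
      (fun t ht => by
        have h1 : ‖c i + ζ * ((r.val / 800000 : ℝ) : ℂ) + t * (c k - c i) - c i‖ ≤ 16 / 5 := by
          calc _ = ‖ζ * ((r.val / 800000 : ℝ) : ℂ) + t * (c k - c i)‖ := by ring_nf
            _ ≤ _ := norm_add_le _ _
            _ ≤ 1 / 5 + 1 * 3 := by
              rw [norm_mul (t : ℂ), norm_real, Real.norm_of_nonneg ht.1]
              gcongr
              exacts [hw r, ht.2]
            _ = 16 / 5 := by norm_num
        obtain ⟨l, hl⟩ := hc _ h1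
        have h2 : l ∈ near c i := by
          rw [mem_near]
          have h3 := norm_le_of_mem (hω l) hl
          rw [norm_sub_rev] at h3
          calc ‖c l - c i‖ ≤ _ := norm_sub_le_norm_sub_add_norm_sub _ _ _
            _ ≤ 3 / 4 + 16 / 5 := add_le_add h3 h1
            _ ≤ 4 := by norm_num
        by_cases h3 : ‖ω i ^ 4 - ω l ^ 4‖ ≤ m * D
        · exact Or.inl (mem_biUnion (Finset.mem_filter.2 ⟨h2, h3⟩) hl)
        · exact Or.inr (mem_biUnion (Finset.mem_filter.2 ⟨h2, h3⟩) hl))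
      (mem_biUnion (x := i) (Finset.mem_filter.2 ⟨mem_near.2 (by simp), by simp; positivity⟩)
        (mem_of_norm_le (hω i) (by
          rw [add_sub_cancel_left]
          exact (hw r).trans (by norm_num))))
      (fun h => by
        simp only [mem_iUnion] at h
        obtain ⟨l, hl, h⟩ := h
        have h1 : l ≠ k := fun e => hkA (e ▸ (Finset.mem_filter.1 hl).2)
        have h2 := deep (hω k) (hω l) h (by
          calc _ = ‖ζ * ((r.val / 800000 : ℝ) : ℂ)‖ := by ring_nf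
            _ ≤ _ := hw r) (ov_nonneg c ω k) (inter_le hω h1)
        have h3 := ov_le_bb (ω := ω) (hk.trans (by norm_num : (3 : ℝ) ≤ 4))
        linarith)
    simp only [mem_iUnion] at h1 h2
    obtain ⟨a, ha, h1⟩ := h1
    obtain ⟨l, hl, h2⟩ := h2
    obtain ⟨s, v, hv, e⟩ := edge_of_not_interior (hω a) h1
      (subset_biUnion_of_mem (u := fun l => Sq (c l) (ω l)) (Finset.mem_coe.2 ha)) h3
    exact ⟨(a, s, l), ha, hl, v, t, hv, e ▸ h2, e.symm⟩
  choose x hx using line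
  obtain ⟨r, -, r', -, hne, e⟩ := Finset.exists_ne_map_eq_of_card_lt_of_maps_to
    (s := Finset.univ) (t := near c i ×ˢ (Finset.univ : Finset (Fin 4)) ×ˢ near c i) (f := x)
    (by
      rw [Finset.card_product, Finset.card_product, Finset.card_univ, Finset.card_univ,
        Fintype.card_fin, Fintype.card_fin]
      have : (near c i).card * (4 * (near c i).card) ≤ 200 * (4 * 200) := by gcongr
      omega)
    (fun r _ => Finset.mem_coe.2 (Finset.mem_product.2 ⟨(Finset.mem_filter.1 (hx r).1).1,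
      Finset.mem_product.2 ⟨Finset.mem_univ _, (Finset.mem_filter.1 (hx r).2.1).1⟩⟩))
  obtain ⟨ha, hl, v, t, hv, h1, h2⟩ := hx r
  obtain ⟨-, -, v', t', hv', h1', h2'⟩ := hx r'
  rw [← e] at h1' h2'
  obtain ⟨ha1, ha2⟩ := Finset.mem_filter.1 ha
  obtain ⟨hl1, hl2⟩ := Finset.mem_filter.1 hl
  set a := (x r).1
  set l := (x r).2.2
  set s := (x r).2.1.val
  have hal : l ≠ a := fun e => hl2 (e ▸ ha2)
  have hu : ‖ω a * I ^ s‖ = 1 := by simp [hω a]
  have h3 := chord hu (hω l) hv hv' h1 h1' (ov_nonneg c ω a)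
    (by rw [Sq_mul_I_pow]; exact inter_le hω hal)
  have h4 : (ω a * I ^ s) ^ 4 = ω a ^ 4 := by
    rw [mul_pow, ← pow_mul, mul_comm s, pow_mul, I_pow_four, one_pow, mul_one]
  rw [h4] at h3
  have h5 : 1 / 800000 ≤ |v - v'| := by
    have e1 : ω a * I ^ s * (((v - v' : ℝ) : ℂ) * I) * conj ζ =
        (((r.val - r'.val) / 800000 : ℝ) : ℂ) + ((t - t' : ℝ) : ℂ) * ((c k - c i) * conj ζ) := by
      have e2 : (⟨1 / 2, v⟩ : ℂ) = ⟨1 / 2, v'⟩ + ((v - v' : ℝ) : ℂ) * I := by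
        apply Complex.ext <;> simp
      rw [e2] at h2
      push_cast at h2 h2' ⊢
      linear_combination (h2 - h2') * conj ζ +
        (((r.val : ℂ) - r'.val) / 800000) * mul_conj_unit hζ
    have e3 := congrArg Complex.re e1
    rw [add_re, re_ofReal_mul, hperp, mul_zero, add_zero, ofReal_re] at e3
    have e4 := abs_re_le_norm (ω a * I ^ s * (((v - v' : ℝ) : ℂ) * I) * conj ζ)
    rw [e3, norm_mul, norm_mul, norm_mul, norm_mul, Complex.norm_conj, hζ, ← norm_mul, hu, norm_I,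
      norm_real, Real.norm_eq_abs, one_mul, mul_one, mul_one, abs_div] at e4
    have e5 : (1 : ℝ) ≤ |(r.val : ℝ) - r'.val| := by
      have : (r.val : ℤ) ≠ r'.val := fun h => hne (Fin.ext (by exact_mod_cast h))
      have h7 : (1 : ℤ) ≤ |(r.val : ℤ) - r'.val| := Int.one_le_abs (sub_ne_zero.2 this)
      exact_mod_cast h7
    rw [abs_of_pos (by norm_num : (0 : ℝ) < 800000)] at e4
    linarith
  have h6 : (1 / 800000) ^ 2 ≤ (v - v') ^ 2 := by
    rw [← sq_abs (v - v')]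
    gcongr
  have h7 : ‖ω a ^ 4 - ω l ^ 4‖ ≤ D := by
    have h8 := ov_le_bb (ω := ω) (mem_near.1 ha1)
    have h9 := mul_le_mul_of_nonneg_right h6 (norm_nonneg (ω a ^ 4 - ω l ^ 4))
    rw [hD]
    linarith
  refine hgap l hl1 ⟨not_le.1 hl2, ?_⟩
  calc ‖ω i ^ 4 - ω l ^ 4‖ ≤ _ := norm_sub_le_norm_sub_add_norm_sub _ (ω a ^ 4) _
    _ ≤ _ := by linarith

end Pool.Agent.MP_c59ecb_co

end MrgPart1

-- ======== part 2: formerly Pool.Agent.MP_c59ecb_co.Flux
section MrgPart2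

set_option autoImplicit false

namespace Pool.Agent.MP_c59ecb_co

open MeasureTheory Set
open scoped ENNReal

variable {ι : Type} [Fintype ι] [DecidableEq ι] (S : ι → ι → Set ℝ) (o κ : ι → ι → ℝ)

/-- the transfer operator of a piecewise affine relation -/
noncomputable def Tr (φ : ι → ℝ → ℝ≥0∞) (i : ι) (v : ℝ) : ℝ≥0∞ :=
  ∑ j, (S i j).indicator (fun v => φ j (o i j + κ i j * v)) v

/-- the cost accumulated along chains of a given length -/
noncomputable def Gt (φ : ι → ℝ → ℝ≥0∞) : ℕ → ι → ℝ → ℝ≥0∞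
  | 0 => φ
  | t + 1 => fun i v => φ i v + Tr S o κ (Gt φ t) i v

omit [DecidableEq ι] in
lemma Tr_add (φ ψ : ι → ℝ → ℝ≥0∞) (i : ι) (v : ℝ) :
    Tr S o κ (fun j w => φ j w + ψ j w) i v = Tr S o κ φ i v + Tr S o κ ψ i v := by
  simp only [Tr, ← Finset.sum_add_distrib]
  refine Finset.sum_congr rfl (fun j _ => ?_)
  by_cases h : v ∈ S i j <;> simp [h]

omit [DecidableEq ι] in
lemma Tr_Gt (φ : ι → ℝ → ℝ≥0∞) (t : ℕ) :
    Tr S o κ (Gt S o κ φ t) = Gt S o κ (Tr S o κ φ) t := by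
  induction t with
  | zero => rfl
  | succ t ih =>
    funext i v
    rw [Gt, Gt, Tr_add, ih]

omit [DecidableEq ι] in
lemma le_Gt (φ : ι → ℝ → ℝ≥0∞) (t : ℕ) (i : ι) (v : ℝ) : φ i v ≤ Gt S o κ φ t i v := by
  cases t with
  | zero => exact le_rfl
  | succ t => exact le_self_add

omit [DecidableEq ι] in
lemma step_le_Gt (φ : ι → ℝ → ℝ≥0∞) (t : ℕ) {i j : ι} {v : ℝ} (h : v ∈ S i j) :
    φ i v + Gt S o κ φ t j (o i j + κ i j * v) ≤ Gt S o κ φ (t + 1) i v := by
  rw [Gt]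
  refine add_le_add le_rfl ?_
  refine le_trans ?_ (Finset.single_le_sum (f := fun j => (S i j).indicator
    (fun v => Gt S o κ φ t j (o i j + κ i j * v)) v) (fun _ _ => zero_le) (Finset.mem_univ j))
  rw [indicator_of_mem h]

variable {S o κ} (hS : ∀ i j, MeasurableSet (S i j))
include hS

omit [DecidableEq ι] in
lemma measurable_Tr {φ : ι → ℝ → ℝ≥0∞} (hφ : ∀ i, Measurable (φ i)) (i : ι) :
    Measurable (Tr S o κ φ i) :=
  Finset.measurable_fun_sum _ (fun j _ => ((hφ j).comp (by fun_prop)).indicator (hS i j))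

omit [DecidableEq ι] in
lemma measurable_Gt {φ : ι → ℝ → ℝ≥0∞} (hφ : ∀ i, Measurable (φ i)) (t : ℕ) (i : ι) :
    Measurable (Gt S o κ φ t i) := by
  induction t generalizing i with
  | zero => exact hφ i
  | succ t ih => exact (hφ i).add (measurable_Tr hS ih i)

variable {St : Finset ι} {Γ : ℝ}
  (hκ : ∀ i j, (S i j).Nonempty → 0 < κ i j ∧ (κ i j)⁻¹ ≤ Γ ∧ j ∉ St)
  (hd : ∀ i i' j v v', v ∈ S i j → v' ∈ S i' j → o i j + κ i j * v = o i' j + κ i' j * v' → i = i')
include hκ hd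

lemma lint_Tr {φ : ι → ℝ → ℝ≥0∞} (hφ : ∀ i, Measurable (φ i)) :
    ∑ i, ∫⁻ v, Tr S o κ φ i v ≤ ENNReal.ofReal Γ * ∑ j ∈ Stᶜ, ∫⁻ v, φ j v := by
  set T : ι → ι → Set ℝ := fun i j => (fun v => o i j + κ i j * v) '' S i j with hT
  have mT : ∀ i j, MeasurableSet (T i j) := by
    intro i j
    rcases (S i j).eq_empty_or_nonempty with h | h
    · simp [hT, h]
    · refine (hS i j).image_of_continuousOn_injOn (by fun_prop) (fun v _ v' _ e => ?_)
      exact mul_left_cancel₀ (hκ i j h).1.ne' (add_left_cancel e)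
  have h1 : ∀ i j, ∫⁻ v, (S i j).indicator (fun v => φ j (o i j + κ i j * v)) v ≤
      ENNReal.ofReal Γ * ∫⁻ v in T i j, φ j v := by
    intro i j
    rcases (S i j).eq_empty_or_nonempty with h | h
    · simp [h]
    · obtain ⟨h2, h3, -⟩ := hκ i j h
      have m1 : Measurable (fun w => (T i j).indicator (φ j) (o i j + w)) :=
        ((hφ j).indicator (mT i j)).comp (measurable_const_add _)
      calc _ ≤ ∫⁻ v, (T i j).indicator (φ j) (o i j + κ i j * v) := by
            refine lintegral_mono (fun v => ?_)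
            by_cases hv : v ∈ S i j
            · rw [indicator_of_mem hv, indicator_of_mem (mem_image_of_mem _ hv)]
            · rw [indicator_of_notMem hv]
              exact zero_le
        _ = ENNReal.ofReal |(κ i j)⁻¹| * ∫⁻ v in T i j, φ j v := by
            rw [← lintegral_map m1 (measurable_const_mul (κ i j)), Real.map_volume_mul_left h2.ne',
              lintegral_smul_measure, lintegral_add_left_eq_self ((T i j).indicator (φ j)),
              lintegral_indicator (mT i j), smul_eq_mul]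
        _ ≤ _ := by
            gcongr
            rwa [abs_of_pos (inv_pos.2 h2)]
  have h2 : ∀ j, ∑ i, ∫⁻ v in T i j, φ j v ≤ if j ∈ St then 0 else ∫⁻ v, φ j v := by
    intro j
    split_ifs with hj
    · refine (Finset.sum_eq_zero (fun i _ => ?_)).le
      rcases (S i j).eq_empty_or_nonempty with h | h
      · simp [hT, h]
      · exact absurd hj (hκ i j h).2.2
    · rw [← lintegral_biUnion_finset (fun i _ i' _ hne => ?_) (fun i _ => mT i j)]
      · exact setLIntegral_le_lintegral _ _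
      · refine Set.disjoint_left.2 ?_
        rintro _ ⟨v, hv, rfl⟩ ⟨v', hv', e⟩
        exact hne (hd i i' j v v' hv hv' e.symm)
  calc ∑ i, ∫⁻ v, Tr S o κ φ i v
      = ∑ i, ∑ j, ∫⁻ v, (S i j).indicator (fun v => φ j (o i j + κ i j * v)) v := by
        refine Finset.sum_congr rfl (fun i _ => ?_)
        exact lintegral_finsetSum _ (fun j _ => ((hφ j).comp (by fun_prop)).indicator (hS i j))
    _ ≤ ∑ i, ∑ j, ENNReal.ofReal Γ * ∫⁻ v in T i j, φ j v :=
        Finset.sum_le_sum (fun i _ => Finset.sum_le_sum (fun j _ => h1 i j))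
    _ = ENNReal.ofReal Γ * ∑ j, ∑ i, ∫⁻ v in T i j, φ j v := by
        rw [Finset.sum_comm]
        simp only [Finset.mul_sum]
    _ ≤ ENNReal.ofReal Γ * ∑ j, if j ∈ St then 0 else ∫⁻ v, φ j v := by
        gcongr with j
        exact h2 j
    _ = _ := by
        congr 1
        rw [← Finset.sum_add_sum_compl St, Finset.sum_eq_zero (fun j hj => if_pos hj), zero_add]
        exact Finset.sum_congr rfl (fun j hj => if_neg (Finset.mem_compl.1 hj))

theorem flux (hΓ : 1 ≤ Γ) (t : ℕ) : ∀ φ : ι → ℝ → ℝ≥0∞, (∀ i, Measurable (φ i)) →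
    ∑ i ∈ St, ∫⁻ v, Gt S o κ φ t i v ≤ ENNReal.ofReal Γ ^ t * ∑ i, ∫⁻ v, φ i v := by
  induction t with
  | zero =>
    intro φ _
    rw [pow_zero, one_mul]
    exact Finset.sum_le_sum_of_subset (Finset.subset_univ _)
  | succ t ih =>
    intro φ hφ
    have h1 : ∀ i, ∫⁻ v, Gt S o κ φ (t + 1) i v =
        (∫⁻ v, φ i v) + ∫⁻ v, Gt S o κ (Tr S o κ φ) t i v := by
      intro i
      rw [← lintegral_add_left (hφ i), ← Tr_Gt]
      rfl
    have h2 : 1 ≤ ENNReal.ofReal Γ ^ (t + 1) := one_le_pow₀ (ENNReal.one_le_ofReal.2 hΓ)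
    simp only [h1, Finset.sum_add_distrib]
    rw [← Finset.sum_add_sum_compl St (fun i => ∫⁻ v, φ i v), mul_add]
    refine add_le_add (le_mul_of_one_le_left' h2) ?_
    refine (ih _ (measurable_Tr hS hφ)).trans ?_
    rw [pow_succ, mul_assoc]
    gcongr
    exact lint_Tr hS hκ hd hφ

end Pool.Agent.MP_c59ecb_co

end MrgPart2

-- ======== part 3: formerly Pool.Agent.MP_c59ecb_co.Local
section MrgPart3

set_option autoImplicit false

namespace Pool.Agent.MP_c59ecb_co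

open MeasureTheory Complex Set
open scoped ComplexConjugate ENNReal

lemma norm_rel {ω ζ : ℂ} (hζ : ‖ζ‖ = 1) : ‖ω * conj ζ - 1‖ = ‖ω - ζ‖ := by
  have e : ω * conj ζ - 1 = (ω - ζ) * conj ζ := by linear_combination mul_conj_unit hζ
  rw [e, norm_mul, Complex.norm_conj, hζ, mul_one]

lemma rel_im {ω ζ : ℂ} (hζ : ‖ζ‖ = 1) : |(ω * conj ζ).im| ≤ ‖ω - ζ‖ := by
  rw [← norm_rel hζ]
  simpa using abs_im_le_norm (ω * conj ζ - 1)

lemma re_ge_of_unit {z : ℂ} (h : ‖z‖ = 1) {δ : ℝ} (hd : ‖z - 1‖ ≤ δ) : 1 - δ ^ 2 / 2 ≤ z.re := by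
  have h1 := Complex.normSq_eq_norm_sq z
  have h2 := Complex.normSq_eq_norm_sq (z - 1)
  rw [h, Complex.normSq_apply] at h1
  rw [Complex.normSq_apply] at h2
  simp only [sub_re, one_re, sub_im, one_im, sub_zero] at h2
  have h3 : ‖z - 1‖ ^ 2 ≤ δ ^ 2 := by gcongr
  nlinarith

lemma re_le_of_unit {z : ℂ} (h : ‖z‖ = 1) : z.re ≤ 1 := (re_le_norm z).trans h.le

lemma norm_rel_unit {ω ζ : ℂ} (h : ‖ω‖ = 1) (hζ : ‖ζ‖ = 1) : ‖ω * conj ζ‖ = 1 := by
  rw [norm_mul, Complex.norm_conj, h, hζ, mul_one]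

/-- two rays that leave different squares cannot enter a third square at the same height -/
lemma collide {c ω c' ω' ζ : ℂ} (h : ‖ω‖ = 1) (h' : ‖ω'‖ = 1) {v v' δ a Δ : ℝ}
    (hδ1 : ‖ω - ζ‖ ≤ δ) (hδ2 : ‖ω - ω'‖ ≤ δ) (hδ : δ ≤ 1 / 100) (ha : 0 ≤ a)
    (hv : |v| < 1 / 2 - (2 * δ + 2 * a)) (hv' : |v'| < 1 / 2 - (2 * δ + 2 * a))
    (hΔ : |Δ| ≤ 1 / 4) (e : c' + ω' * ⟨1 / 2, v'⟩ = c + ω * ⟨1 / 2, v⟩ + ζ * Δ)
    (hvol : volume (Sq c ω ∩ Sq c' ω') ≤ ENNReal.ofReal a) : False := by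
  have hδ0 : 0 ≤ δ := (norm_nonneg _).trans hδ1
  set ρ := 1 / 2 - max |v| |v'| - 2 * δ with hρ
  have h1 : 2 * a < ρ := by
    have := max_lt hv hv'
    linarith
  have h2 := le_max_left |v| |v'|
  have h3 := le_max_right |v| |v'|
  have h4 := abs_nonneg v
  have h5 := box_le h (c + ω * ⟨1 / 2, v⟩) (x1 := -(2 / 3)) (x2 := -(1 / 3)) (y1 := -ρ) (y2 := ρ)
    (by norm_num) ha (fun s t hs ht => ?_) hvol
  · linarith
  have k1 := neg_abs_le v
  have k2 := le_abs_self v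
  have k3 := neg_abs_le v'
  have k4 := le_abs_self v'
  have k5 := abs_le.1 hΔ
  constructor
  · simp only [Sq, mem_ofPred_eq, loc_shift, mul_conj_unit h, one_mul, add_re, add_im, loc_add h]
    exact ⟨abs_le.2 ⟨by linarith [hs.1], by linarith [hs.2]⟩,
      abs_le.2 ⟨by linarith [ht.1], by linarith [ht.2]⟩⟩
  · set E := ((ω - ω') * ⟨s, t⟩ - (ζ - ω') * Δ) * conj ω' with hE
    have e1 : loc c' ω' (c + ω * ⟨1 / 2, v⟩ + ω * ⟨s, t⟩) = ⟨1 / 2, v'⟩ + ⟨s, t⟩ - Δ + E := by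
      rw [hE, loc]
      linear_combination (-conj ω') * e + (⟨1 / 2, v'⟩ + ⟨s, t⟩ - Δ) * mul_conj_unit h'
    have e2 : ‖E‖ ≤ 2 * δ := by
      rw [hE, norm_mul, Complex.norm_conj, h', mul_one]
      have e3 : ‖(⟨s, t⟩ : ℂ)‖ ≤ 1 :=
        norm_mk_le zero_le_one (by nlinarith [hs.1, hs.2, ht.1, ht.2])
      have e4 : ‖ζ - ω'‖ ≤ 2 * δ := by
        rw [norm_sub_rev] at hδ1
        linarith [norm_sub_le_norm_sub_add_norm_sub ζ ω ω']
      calc _ ≤ _ := norm_sub_le _ _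
        _ ≤ δ * 1 + 2 * δ * (1 / 4) := by
          rw [norm_mul, norm_mul, norm_real, Real.norm_eq_abs]
          gcongr
        _ ≤ _ := by linarith
    have e3 := abs_le.1 ((abs_re_le_norm E).trans e2)
    have e4 := abs_le.1 ((abs_im_le_norm E).trans e2)
    simp only [Sq, mem_ofPred_eq, e1, add_re, add_im, sub_re, sub_im, ofReal_re, ofReal_im]
    exact ⟨abs_le.2 ⟨by linarith [hs.1], by linarith [hs.2]⟩,
      abs_le.2 ⟨by linarith [ht.1], by linarith [ht.2]⟩⟩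

lemma loc_exit (c ω d ζ : ℂ) (s t : ℝ) : loc d ζ (c + ω * ⟨s, t⟩) =
    ⟨(loc d ζ (c + ω * ⟨1 / 2, 0⟩)).re + (ω * conj ζ).re * (s - 1 / 2) - (ω * conj ζ).im * t,
      (loc d ζ (c + ω * ⟨1 / 2, 0⟩)).im + (ω * conj ζ).im * (s - 1 / 2) + (ω * conj ζ).re * t⟩ := by
  rw [loc_shift, loc_shift]
  generalize ω * conj ζ = k
  apply Complex.ext
  · simp only [add_re, mul_re]
    ring
  · simp only [add_im, mul_im]
    ring

/-- the depth of the overlap times the length of the contact is bounded by the overlap -/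
lemma overlap {c ω d ζ : ℂ} (h : ‖ω‖ = 1) (hζ : ‖ζ‖ = 1) {v1 v2 δ a : ℝ} (hδ1 : ‖ω - ζ‖ ≤ δ)
    (hδ : δ ≤ 1 / 100) (ha : 0 ≤ a) (hv1 : |v1| ≤ 1 / 2) (hv2 : |v2| ≤ 1 / 2) (h12 : v1 ≤ v2)
    (hp1 : c + ω * ⟨1 / 2, v1⟩ ∈ Sq d ζ) (hp2 : c + ω * ⟨1 / 2, v2⟩ ∈ Sq d ζ)
    (hvol : volume (Sq c ω ∩ Sq d ζ) ≤ ENNReal.ofReal a) :
    ((loc d ζ (c + ω * ⟨1 / 2, 0⟩)).re + 1 / 2) * (v2 - v1) ≤ a + 9 * δ := by
  have hδ0 : 0 ≤ δ := (norm_nonneg _).trans hδ1
  have hy := abs_le.1 ((rel_im hζ).trans hδ1)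
  have hx1 := re_le_of_unit (norm_rel_unit h hζ)
  have hx2 : 1 / 2 ≤ (ω * conj ζ).re := by
    have := re_ge_of_unit (norm_rel_unit h hζ) ((norm_rel hζ).le.trans hδ1)
    nlinarith
  simp only [Sq, mem_ofPred_eq] at hp1 hp2
  rw [loc_exit] at hp1 hp2
  simp only [sub_self, mul_zero, add_zero] at hp1 hp2
  have hbox := fun hx => box_le h c (x1 := 1 / 2 - ((loc d ζ (c + ω * ⟨1 / 2, 0⟩)).re + 1 / 2 - δ / 2))
    (x2 := 1 / 2) (y1 := v1 + 2 * δ) (y2 := v2 - 2 * δ) hx ha (S := Sq c ω ∩ Sq d ζ)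
  simp only [Sq, mem_inter_iff, mem_ofPred_eq, loc_add h] at hbox
  conv at hbox => enter [hx, 1, s, t, 2, 2, 2]; rw [loc_exit]
  generalize (loc d ζ (c + ω * ⟨1 / 2, 0⟩)).re = A at *
  generalize (loc d ζ (c + ω * ⟨1 / 2, 0⟩)).im = B at *
  generalize (ω * conj ζ).re = x at *
  generalize (ω * conj ζ).im = y at *
  have k1 := abs_le.1 hv1
  have k2 := abs_le.1 hv2
  have k3 := abs_le.1 hp1.1
  have k4 := abs_le.1 hp1.2
  have k5 := abs_le.1 hp2.1
  have k6 := abs_le.1 hp2.2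
  have hA : A ≤ 1 / 2 + δ / 2 := by
    have : |y * v1| ≤ δ * (1 / 2) := by
      rw [abs_mul]
      exact mul_le_mul (abs_le.2 hy) hv1 (abs_nonneg _) hδ0
    linarith [(abs_le.1 this).2]
  by_cases c1 : A + 1 / 2 ≤ δ / 2
  · have := mul_le_mul c1 (show v2 - v1 ≤ 1 by linarith) (by linarith) (by linarith)
    linarith
  by_cases c2 : v2 - v1 ≤ 4 * δ
  · have := mul_le_mul (show A + 1 / 2 ≤ 2 by linarith) c2 (by linarith) (by linarith)
    linarith
  have h5 := hbox (by linarith) (fun s t hs ht => ?_) hvol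
  · have := mul_le_mul_of_nonneg_left (show A + 1 / 2 ≤ 2 by linarith) hδ0
    have := mul_le_mul_of_nonneg_left (show v2 - v1 ≤ 1 by linarith) hδ0
    have := sq_nonneg δ
    linarith
  obtain ⟨s1, s2⟩ := hs
  obtain ⟨t1, t2⟩ := ht
  have m1 : |y * t| ≤ δ / 2 := by
    rw [abs_mul]
    calc |y| * |t| ≤ δ * (1 / 2) :=
          mul_le_mul (abs_le.2 hy) (abs_le.2 ⟨by linarith, by linarith⟩) (abs_nonneg _) hδ0
      _ = _ := by ring
  have m2 : |y * (s - 1 / 2)| ≤ δ := by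
    rw [abs_mul]
    calc |y| * |s - 1 / 2| ≤ δ * 1 :=
          mul_le_mul (abs_le.2 hy) (abs_le.2 ⟨by linarith, by linarith⟩) (abs_nonneg _) hδ0
      _ = _ := by ring
  have m3 := abs_le.1 m1
  have m4 := abs_le.1 m2
  have m5 : A - y * t ≤ 1 / 2 := by
    rcases le_total y 0 with h0 | h0
    · have := mul_nonneg (neg_nonneg.2 h0) (show 0 ≤ v2 - t by linarith)
      linarith
    · have := mul_nonneg h0 (show 0 ≤ t - v1 by linarith)
      linarith
  have m6 : 0 ≤ (1 - x) * (1 / 2 - s) := mul_nonneg (by linarith) (by linarith)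
  have m7 : 0 ≤ x * (1 / 2 - s) := mul_nonneg (by linarith) (by linarith)
  have m8 : 1 / 2 * (2 * δ) ≤ x * (t - v1) := mul_le_mul hx2 (by linarith) (by linarith) (by linarith)
  have m9 : 1 / 2 * (2 * δ) ≤ x * (v2 - t) := mul_le_mul hx2 (by linarith) (by linarith) (by linarith)
  refine ⟨⟨abs_le.2 ⟨by linarith, by linarith⟩, abs_le.2 ⟨by linarith, by linarith⟩⟩,
    abs_le.2 ⟨by linarith, by linarith⟩, abs_le.2 ⟨by linarith, by linarith⟩⟩

/-- a point on the right edge lies in another square -/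
lemma exists_next {ι : Type} [Fintype ι] [DecidableEq ι] {c ω : ι → ℂ} (hω : ∀ k, ‖ω k‖ = 1)
    {i : ι} (hc : ∀ p, ‖p - c i‖ ≤ 16 / 5 → ∃ k, p ∈ Sq (c k) (ω k)) {v : ℝ} (hv : |v| ≤ 1 / 2) :
    ∃ j, j ≠ i ∧ c i + ω i * ⟨1 / 2, v⟩ ∈ Sq (c j) (ω j) := by
  have cA : IsClosed (⋃ l ∈ ({i}ᶜ : Finset ι), Sq (c l) (ω l)) :=
    isClosed_biUnion_finset (fun l _ => isClosed_Sq _ _)
  have h1 : Filter.Tendsto (fun s : ℝ => c i + ω i * ⟨1 / 2, v⟩ + ω i * s) (nhdsWithin 0 (Ioi 0))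
      (nhds (c i + ω i * ⟨1 / 2, v⟩)) := by
    have : Continuous (fun s : ℝ => c i + ω i * ⟨1 / 2, v⟩ + ω i * s) := by fun_prop
    simpa using (this.tendsto 0).mono_left nhdsWithin_le_nhds
  have h2 := cA.mem_of_tendsto h1 (by
    filter_upwards [Ioo_mem_nhdsGT (zero_lt_one (α := ℝ))] with s hs
    have h3 : loc (c i) (ω i) (c i + ω i * ⟨1 / 2, v⟩ + ω i * s) = ⟨1 / 2 + s, v⟩ := by
      rw [loc_shift, loc_add (hω i), mul_conj_unit (hω i), one_mul]
      apply Complex.ext <;> simp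
    obtain ⟨k, hk⟩ := hc (c i + ω i * ⟨1 / 2, v⟩ + ω i * s) (by
      rw [← norm_loc (hω i), h3]
      exact norm_mk_le (by norm_num) (by nlinarith [hs.1, hs.2, abs_le.1 hv]))
    refine mem_biUnion (x := k) ?_ hk
    simp only [Finset.coe_compl, Finset.coe_singleton, mem_compl_iff, mem_singleton_iff]
    rintro rfl
    have h4 := hk.1
    rw [h3] at h4
    linarith [(abs_le.1 h4).2, hs.1])
  simp only [mem_iUnion, Finset.mem_compl, Finset.mem_singleton] at h2
  obtain ⟨j, hj, h2⟩ := h2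
  exact ⟨j, hj, h2⟩

end Pool.Agent.MP_c59ecb_co

end MrgPart3

-- ======== part 4: formerly Pool.Agent.MP_c59ecb_co.Core
section MrgPart4

set_option autoImplicit false

namespace Pool.Agent.MP_c59ecb_co

open MeasureTheory Complex Set
open scoped ComplexConjugate ENNReal

variable {ι : Type} [Fintype ι] [DecidableEq ι] (c ω : ι → ℂ) (τ : ℝ) (St : Finset ι)

/-- a square with little overlap nearby, a covered neighbourhood and a small tilt -/
def VG (i : ι) : Prop :=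
  10 ^ 17 * bb c ω i ≤ τ ∧ (∀ p, ‖p - c i‖ ≤ 16 / 5 → ∃ k, p ∈ Sq (c k) (ω k)) ∧
    ‖ω i - 1‖ ≤ 1 / 100

/-- the exit point of a ray -/
noncomputable def ex (i : ι) (v : ℝ) : ℂ := c i + ω i * ⟨1 / 2, v⟩

/-- the rays that pass from square `i` to square `j` -/
def Src (i j : ι) : Set ℝ :=
  {v | (VG c ω τ i ∧ j ≠ i ∧ j ∉ St) ∧ |v| < 1 / 2 - 4 * (10 ^ 17 * bb c ω i) ∧
    ex c ω i v ∈ Sq (c j) (ω j) ∧ (loc (c j) (ω j) (ex c ω i v)).re ≤ -(1 / 4)}

/-- the contact of the right edge of square `i` with square `j` -/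
def Con (i j : ι) : Set ℝ :=
  {v | (VG c ω τ i ∧ j ≠ i) ∧ |v| ≤ 1 / 2 ∧ ex c ω i v ∈ Sq (c j) (ω j)}

/-- the rays too close to a corner -/
def Cor (i : ι) : Set ℝ :=
  {v | 10 ^ 17 * bb c ω i ≤ τ ∧ 1 / 2 - 4 * (10 ^ 17 * bb c ω i) ≤ |v| ∧ |v| ≤ 1 / 2}

/-- offset of the height map -/
noncomputable def off (i j : ι) : ℝ := (loc (c j) (ω j) (c i + ω i * ⟨1 / 2, 0⟩)).im

/-- slope of the height map -/
noncomputable def slo (i j : ι) : ℝ := (ω i * conj (ω j)).re

/-- depth of the overlap -/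
noncomputable def dep (i j : ι) : ℝ := (loc (c j) (ω j) (c i + ω i * ⟨1 / 2, 0⟩)).re + 1 / 2

/-- the normalised overlap near a square -/
noncomputable def beta (i : ι) : ℝ := min (bb c ω i) (τ / 10 ^ 17) * (10 ^ 17 / τ)

/-- the cost of a ray in a square -/
noncomputable def cost (i : ι) (v : ℝ) : ℝ≥0∞ :=
  (Icc (-(1 / 2) : ℝ) (1 / 2)).indicator (fun _ => ENNReal.ofReal (beta c ω τ i)) v +
    (Cor c ω τ i).indicator 1 v +
    ∑ j, (Con c ω τ i j).indicator (fun _ => ENNReal.ofReal (dep c ω i j)) v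

omit [Fintype ι] [DecidableEq ι] in
lemma continuous_ex (i : ι) : Continuous (ex c ω i) := by
  have : ex c ω i = fun v : ℝ => c i + ω i * (((1 / 2 : ℝ) : ℂ) + v * I) := by
    funext v
    rw [ex]
    congr 2
    apply Complex.ext <;> simp
  rw [this]
  fun_prop

omit [Fintype ι] [DecidableEq ι] in
lemma loc_ex (i j : ι) (v : ℝ) : loc (c j) (ω j) (ex c ω i v) =
    ⟨dep c ω i j - 1 / 2 - (ω i * conj (ω j)).im * v, off c ω i j + slo ω i j * v⟩ := by
  rw [ex, loc_exit]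
  simp [dep, off, slo]

lemma measurableSet_Src (i j : ι) : MeasurableSet (Src c ω τ St i j) := by
  refine (MeasurableSet.const _).inter ((measurableSet_lt measurable_abs measurable_const).inter
    (((isClosed_Sq _ _).preimage (continuous_ex c ω i)).measurableSet.inter ?_))
  exact measurableSet_le (continuous_re.comp ((continuous_loc _ _).comp
    (continuous_ex c ω i))).measurable measurable_const

lemma measurableSet_Con (i j : ι) : MeasurableSet (Con c ω τ i j) :=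
  (MeasurableSet.const _).inter ((measurableSet_le measurable_abs measurable_const).inter
    ((isClosed_Sq _ _).preimage (continuous_ex c ω i)).measurableSet)

lemma measurableSet_Cor (i : ι) : MeasurableSet (Cor c ω τ i) :=
  (MeasurableSet.const _).inter ((measurableSet_le measurable_const measurable_abs).inter
    (measurableSet_le measurable_abs measurable_const))

lemma measurable_cost (i : ι) : Measurable (cost c ω τ i) :=
  ((measurable_const.indicator measurableSet_Icc).add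
    (measurable_one.indicator (measurableSet_Cor c ω τ i))).add
    (Finset.measurable_fun_sum _ (fun j _ => measurable_const.indicator (measurableSet_Con c ω τ i j)))

variable {c ω τ St} (hω : ∀ k, ‖ω k‖ = 1) (hn : ∀ k, |(ω k).im| ≤ (ω k).re) (hτ0 : 0 < τ)
  (hτ : τ ≤ 1 / 100)

omit [Fintype ι] [DecidableEq ι] in
include hω in
lemma ex_mem {i : ι} {v : ℝ} (hv : |v| ≤ 1 / 2) : ex c ω i v ∈ Sq (c i) (ω i) := by
  simp only [ex, Sq, mem_ofPred_eq, loc_add (hω i)]
  exact ⟨by norm_num [abs_of_pos], hv⟩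

omit [Fintype ι] [DecidableEq ι] in
include hω in
lemma near_of_mem {i j : ι} {p q : ℂ} (hp : p ∈ Sq (c i) (ω i)) (hq : q ∈ Sq (c j) (ω j))
    (h : ‖q - p‖ ≤ 1) : ‖c j - c i‖ ≤ 3 := by
  have h1 := norm_le_of_mem (hω i) hp
  have h2 := norm_le_of_mem (hω j) hq
  rw [norm_sub_rev] at h2
  linarith [norm_sub_le_norm_sub_add_norm_sub (c j) q (c i),
    norm_sub_le_norm_sub_add_norm_sub q p (c i)]

include hτ0 in
lemma beta_nonneg (i : ι) : 0 ≤ beta c ω τ i :=
  mul_nonneg (le_min (bb_nonneg i) (by positivity)) (by positivity)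

include hτ0 in
lemma beta_eq {i : ι} (h : 10 ^ 17 * bb c ω i ≤ τ) : 10 ^ 17 * bb c ω i = τ * beta c ω τ i := by
  rw [beta, min_eq_left (by rw [le_div_iff₀ (by norm_num)]; linarith)]
  field_simp

include hτ0 in
lemma bb_le_of_beta {i : ι} (h : beta c ω τ i < 1) : 10 ^ 17 * bb c ω i ≤ τ := by
  by_contra h1
  rw [beta, min_eq_right (by rw [div_le_iff₀ (by norm_num)]; linarith)] at h
  have : τ / 10 ^ 17 * (10 ^ 17 / τ) = 1 := by field_simp
  linarith

include hω hn hτ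

lemma align {i k : ι} (h : VG c ω τ i) (hk : ‖c k - c i‖ ≤ 3) :
    ‖ω i - ω k‖ ≤ 10 ^ 17 * bb c ω i := by
  have h1 := rigid hω (by linarith [h.1]) h.2.1 hk
  linarith [norm_sub_le_pow h.2.2 (hω k) (hn k)]

lemma src_slope (i j : ι) (h : (Src c ω τ St i j).Nonempty) :
    0 < slo ω i j ∧ (slo ω i j)⁻¹ ≤ 1 + τ ^ 2 ∧ j ∉ St := by
  obtain ⟨v, ⟨h1, -, h3⟩, h4, h5, -⟩ := h
  have hb := bb_nonneg (c := c) (ω := ω) i
  have h6 := align hω hn hτ h1 (near_of_mem hω (ex_mem hω (v := v) (by linarith)) h5 (by simp))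
  have h7 : 1 - τ ^ 2 / 2 ≤ slo ω i j :=
    re_ge_of_unit (norm_rel_unit (hω i) (hω j)) ((norm_rel (hω j)).le.trans (h6.trans h1.1))
  have h8 : 0 ≤ τ := le_trans (by positivity) h1.1
  have h9 : τ ^ 2 ≤ 1 / 100 := by nlinarith
  have h10 : 0 < slo ω i j := by linarith
  refine ⟨h10, ?_, h3⟩
  rw [inv_le_iff_one_le_mul₀ h10]
  nlinarith [sq_nonneg τ]

lemma src_inj (i i' j : ι) (v v' : ℝ) (h : v ∈ Src c ω τ St i j) (h' : v' ∈ Src c ω τ St i' j)
    (e : off c ω i j + slo ω i j * v = off c ω i' j + slo ω i' j * v') : i = i' := by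
  wlog hb : bb c ω i ≤ bb c ω i' generalizing i i' v v'
  · exact (this i' i v' v h' h e.symm (le_of_not_ge hb)).symm
  by_contra hne
  obtain ⟨⟨h1, -, -⟩, h2, h3, h4⟩ := h
  obtain ⟨-, h2', h3', h4'⟩ := h'
  have hb0 := bb_nonneg (c := c) (ω := ω) i
  have hv : |v| ≤ 1 / 2 := by linarith
  have hv' : |v'| ≤ 1 / 2 := by linarith
  set Δ := (loc (c j) (ω j) (ex c ω i' v')).re - (loc (c j) (ω j) (ex c ω i v)).re with hΔ
  have e1 : ex c ω i' v' = ex c ω i v + ω j * Δ := by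
    have e2 : loc (c j) (ω j) (ex c ω i' v') = loc (c j) (ω j) (ex c ω i v) + Δ := by
      apply Complex.ext
      · simp [hΔ]
      · rw [add_im, ofReal_im, add_zero, loc_ex, loc_ex]
        exact e.symm
    rw [eq_loc (hω j) (c j) (ex c ω i' v'), e2, mul_add, ← add_assoc, ← eq_loc (hω j)]
  have h5 : |Δ| ≤ 1 / 4 :=
    abs_le.2 ⟨by linarith [(abs_le.1 h3'.1).1], by linarith [(abs_le.1 h3.1).1]⟩
  have h6 := align hω hn hτ h1 (near_of_mem hω (ex_mem hω hv) h3 (by simp))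
  have h7 := align hω hn hτ h1 (near_of_mem hω (ex_mem hω hv) (ex_mem hω hv') (by
    rw [e1, add_sub_cancel_left, norm_mul, hω, one_mul, norm_real, Real.norm_eq_abs]
    linarith))
  have h8 := ov_le_bb_self (c := c) (ω := ω) i
  exact collide (hω i) (hω i') h6 h7 (h1.1.trans hτ) (ov_nonneg c ω i) (by linarith) (by linarith)
    h5 e1 (inter_le hω (Ne.symm hne))

lemma con_le (i j : ι) : ENNReal.ofReal (dep c ω i j) * volume (Con c ω τ i j) ≤
    if j ∈ near c i ∧ 10 ^ 17 * bb c ω i ≤ τ then ENNReal.ofReal (10 * (10 ^ 17 * bb c ω i))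
    else 0 := by
  rcases (Con c ω τ i j).eq_empty_or_nonempty with h | ⟨v, ⟨h1, h2⟩, h3, h4⟩
  · simp [h]
  have h5 := near_of_mem hω (ex_mem (i := i) hω h3) h4 (by simp)
  rw [if_pos ⟨mem_near.2 (by linarith), h1.1⟩]
  have hb0 := bb_nonneg (c := c) (ω := ω) i
  rcases le_or_gt (dep c ω i j) 0 with h6 | h6
  · simp [ENNReal.ofReal_of_nonpos h6]
  have h7 : ∀ v1 ∈ Con c ω τ i j, ∀ v2 ∈ Con c ω τ i j, v1 ≤ v2 →
      v2 - v1 ≤ 10 * (10 ^ 17 * bb c ω i) / dep c ω i j := by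
    intro v1 k1 v2 k2 h12
    have h8 := overlap (hω i) (hω j) (align hω hn hτ h1 h5) (h1.1.trans hτ) (ov_nonneg c ω i)
      k1.2.1 k2.2.1 h12 k1.2.2 k2.2.2 (inter_le hω h2)
    rw [le_div_iff₀ h6, mul_comm]
    have h9 := ov_le_bb_self (c := c) (ω := ω) i
    exact h8.trans (by linarith)
  have h8 : volume (Con c ω τ i j) ≤ ENNReal.ofReal (10 * (10 ^ 17 * bb c ω i) / dep c ω i j) := by
    refine (Real.volume_le_diam _).trans (Metric.ediam_le (fun v1 k1 v2 k2 => ?_))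
    rw [edist_dist, Real.dist_eq]
    refine ENNReal.ofReal_le_ofReal ?_
    rcases le_total v1 v2 with h | h
    · rw [abs_sub_comm, abs_of_nonneg (by linarith)]
      exact h7 v1 k1 v2 k2 h
    · rw [abs_of_nonneg (by linarith)]
      exact h7 v2 k2 v1 k1 h
  refine (mul_le_mul_right h8 _).trans ?_
  rw [← ENNReal.ofReal_mul h6.le, mul_div_cancel₀ _ h6.ne']

include hτ0

lemma lint_cost (i : ι) : ∫⁻ v, cost c ω τ i v ≤ ENNReal.ofReal (22 * beta c ω τ i) := by
  have hβ := beta_nonneg (c := c) (ω := ω) hτ0 i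
  have hb0 := bb_nonneg (c := c) (ω := ω) i
  have h1 : volume (Cor c ω τ i) ≤ ENNReal.ofReal (beta c ω τ i) := by
    by_cases h : 10 ^ 17 * bb c ω i ≤ τ
    · have h2 : Cor c ω τ i ⊆ Icc (-(1 / 2)) (-(1 / 2) + 4 * (10 ^ 17 * bb c ω i)) ∪
          Icc (1 / 2 - 4 * (10 ^ 17 * bb c ω i)) (1 / 2) := by
        rintro v ⟨-, h3, h4⟩
        rcases le_total v 0 with h5 | h5
        · rw [abs_of_nonpos h5] at h3 h4
          exact Or.inl ⟨by linarith, by linarith⟩
        · rw [abs_of_nonneg h5] at h3 h4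
          exact Or.inr ⟨h3, h4⟩
      refine (measure_mono h2).trans ((measure_union_le _ _).trans ?_)
      rw [Real.volume_Icc, Real.volume_Icc, ← ENNReal.ofReal_add (by linarith) (by linarith)]
      refine ENNReal.ofReal_le_ofReal ?_
      rw [beta_eq hτ0 h]
      nlinarith
    · have h2 : Cor c ω τ i = ∅ := eq_empty_of_forall_notMem (fun v hv => h hv.1)
      simp [h2]
  have h2 : ∑ j, ENNReal.ofReal (dep c ω i j) * volume (Con c ω τ i j) ≤
      ENNReal.ofReal (20 * beta c ω τ i) := by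
    refine (Finset.sum_le_sum (fun j _ => con_le hω hn hτ i j)).trans ?_
    by_cases h : 10 ^ 17 * bb c ω i ≤ τ
    · simp only [h, and_true, Finset.sum_ite_mem, Finset.univ_inter]
      rw [← ENNReal.ofReal_sum_of_nonneg (fun _ _ => by positivity), Finset.sum_const, nsmul_eq_mul]
      refine ENNReal.ofReal_le_ofReal ?_
      have h3 : ((near c i).card : ℝ) ≤ 200 := by
        exact_mod_cast card_near hω (i := i) (by linarith)
      rw [beta_eq hτ0 h]
      calc _ ≤ 200 * (10 * (1 / 100 * beta c ω τ i)) := by gcongr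
        _ = _ := by ring
    · simp [h]
  unfold cost
  rw [lintegral_add_left ((measurable_const.indicator measurableSet_Icc).fun_add
      (measurable_one.indicator (measurableSet_Cor c ω τ i))),
    lintegral_add_left (measurable_const.indicator measurableSet_Icc),
    lintegral_finsetSum _ (fun j _ => measurable_const.indicator (measurableSet_Con c ω τ i j)),
    lintegral_indicator_const measurableSet_Icc, lintegral_indicator_one (measurableSet_Cor c ω τ i),
    Real.volume_Icc]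
  simp only [lintegral_indicator_const (measurableSet_Con c ω τ i _)]
  refine (add_le_add (add_le_add le_rfl h1) h2).trans ?_
  rw [← ENNReal.ofReal_mul hβ, ← ENNReal.ofReal_add (by positivity) hβ,
    ← ENNReal.ofReal_add (by positivity) (by positivity)]
  exact ENNReal.ofReal_le_ofReal (by linarith)

end Pool.Agent.MP_c59ecb_co

end MrgPart4

-- ======== part 5: formerly Pool.Agent.MP_c59ecb_co.h76.WFlux
section MrgPart5

/-! A weighted transfer operator for piecewise affine relations and the flux inequality. -/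

set_option autoImplicit false

namespace Pool.Agent.MP_c59ecb_co.h76

open MeasureTheory Set
open scoped ENNReal

variable {ι : Type} [Fintype ι] [DecidableEq ι] (S : ι → ι → Set ℝ) (o κ : ι → ι → ℝ)

/-- the weighted transfer operator -/
noncomputable def Tw (φ : ι → ℝ → ℝ≥0∞) (i : ι) (v : ℝ) : ℝ≥0∞ :=
  ∑ j, (S i j).indicator (fun v => ENNReal.ofReal (κ i j) * φ j (o i j + κ i j * v)) v

/-- the weighted cost accumulated along chains of a given length -/
noncomputable def Gw (φ : ι → ℝ → ℝ≥0∞) : ℕ → ι → ℝ → ℝ≥0∞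
  | 0 => φ
  | t + 1 => fun i v => φ i v + Tw S o κ (Gw φ t) i v

omit [DecidableEq ι] in
lemma Tw_add (φ ψ : ι → ℝ → ℝ≥0∞) (i : ι) (v : ℝ) :
    Tw S o κ (fun j w => φ j w + ψ j w) i v = Tw S o κ φ i v + Tw S o κ ψ i v := by
  simp only [Tw, ← Finset.sum_add_distrib]
  refine Finset.sum_congr rfl (fun j _ => ?_)
  by_cases h : v ∈ S i j <;> simp [h, mul_add]

omit [DecidableEq ι] in
lemma Tw_Gw (φ : ι → ℝ → ℝ≥0∞) (t : ℕ) :
    Tw S o κ (Gw S o κ φ t) = Gw S o κ (Tw S o κ φ) t := by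
  induction t with
  | zero => rfl
  | succ t ih =>
    funext i v
    rw [Gw, Gw, Tw_add, ih]

omit [DecidableEq ι] in
lemma le_Gw (φ : ι → ℝ → ℝ≥0∞) (t : ℕ) (i : ι) (v : ℝ) : φ i v ≤ Gw S o κ φ t i v := by
  cases t with
  | zero => exact le_rfl
  | succ t => exact le_self_add

omit [DecidableEq ι] in
lemma step_le_Gw (φ : ι → ℝ → ℝ≥0∞) (t : ℕ) {i j : ι} {v : ℝ} (h : v ∈ S i j) :
    φ i v + ENNReal.ofReal (κ i j) * Gw S o κ φ t j (o i j + κ i j * v) ≤
      Gw S o κ φ (t + 1) i v := by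
  rw [Gw]
  refine add_le_add le_rfl ?_
  refine le_trans ?_ (Finset.single_le_sum (f := fun j => (S i j).indicator
    (fun v => ENNReal.ofReal (κ i j) * Gw S o κ φ t j (o i j + κ i j * v)) v)
    (fun _ _ => zero_le) (Finset.mem_univ j))
  rw [indicator_of_mem h]

variable {S o κ} (hS : ∀ i j, MeasurableSet (S i j))
include hS

omit [DecidableEq ι] in
lemma measurable_Tw {φ : ι → ℝ → ℝ≥0∞} (hφ : ∀ i, Measurable (φ i)) (i : ι) :
    Measurable (Tw S o κ φ i) :=
  Finset.measurable_fun_sum _ (fun j _ =>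
    (((hφ j).comp (by fun_prop)).const_mul _).indicator (hS i j))

omit [DecidableEq ι] in
lemma measurable_Gw {φ : ι → ℝ → ℝ≥0∞} (hφ : ∀ i, Measurable (φ i)) (t : ℕ) (i : ι) :
    Measurable (Gw S o κ φ t i) := by
  induction t generalizing i with
  | zero => exact hφ i
  | succ t ih => exact (hφ i).add (measurable_Tw hS ih i)

variable {St : Finset ι}
  (hκ : ∀ i j, (S i j).Nonempty → 0 < κ i j ∧ j ∉ St)
  (hd : ∀ i i' j v v', v ∈ S i j → v' ∈ S i' j → o i j + κ i j * v = o i' j + κ i' j * v' → i = i')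
include hκ hd

lemma lint_Tw {φ : ι → ℝ → ℝ≥0∞} (hφ : ∀ i, Measurable (φ i)) :
    ∑ i, ∫⁻ v, Tw S o κ φ i v ≤ ∑ j ∈ Stᶜ, ∫⁻ v, φ j v := by
  set T : ι → ι → Set ℝ := fun i j => (fun v => o i j + κ i j * v) '' S i j with hT
  have mT : ∀ i j, MeasurableSet (T i j) := by
    intro i j
    rcases (S i j).eq_empty_or_nonempty with h | h
    · simp [hT, h]
    · refine (hS i j).image_of_continuousOn_injOn (by fun_prop) (fun v _ v' _ e => ?_)
      exact mul_left_cancel₀ (hκ i j h).1.ne' (add_left_cancel e)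
  have h1 : ∀ i j, ∫⁻ v, (S i j).indicator
      (fun v => ENNReal.ofReal (κ i j) * φ j (o i j + κ i j * v)) v ≤ ∫⁻ v in T i j, φ j v := by
    intro i j
    rcases (S i j).eq_empty_or_nonempty with h | h
    · simp [h]
    · obtain ⟨h2, -⟩ := hκ i j h
      have m1 : Measurable (fun w => (T i j).indicator (φ j) (o i j + w)) :=
        ((hφ j).indicator (mT i j)).comp (measurable_const_add _)
      calc _ ≤ ∫⁻ v, ENNReal.ofReal (κ i j) * (T i j).indicator (φ j) (o i j + κ i j * v) := by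
            refine lintegral_mono (fun v => ?_)
            by_cases hv : v ∈ S i j
            · rw [indicator_of_mem hv, indicator_of_mem (mem_image_of_mem _ hv)]
            · rw [indicator_of_notMem hv]
              exact zero_le
        _ = ENNReal.ofReal (κ i j) * (ENNReal.ofReal |(κ i j)⁻¹| * ∫⁻ v in T i j, φ j v) := by
            rw [lintegral_const_mul' _ _ ENNReal.ofReal_ne_top,
              ← lintegral_map m1 (measurable_const_mul (κ i j)), Real.map_volume_mul_left h2.ne',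
              lintegral_smul_measure, lintegral_add_left_eq_self ((T i j).indicator (φ j)),
              lintegral_indicator (mT i j), smul_eq_mul]
        _ = _ := by
            rw [← mul_assoc, ← ENNReal.ofReal_mul h2.le, abs_of_pos (inv_pos.2 h2),
              mul_inv_cancel₀ h2.ne', ENNReal.ofReal_one, one_mul]
  have h2 : ∀ j, ∑ i, ∫⁻ v in T i j, φ j v ≤ if j ∈ St then 0 else ∫⁻ v, φ j v := by
    intro j
    split_ifs with hj
    · refine (Finset.sum_eq_zero (fun i _ => ?_)).le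
      rcases (S i j).eq_empty_or_nonempty with h | h
      · simp [hT, h]
      · exact absurd hj (hκ i j h).2
    · rw [← lintegral_biUnion_finset (fun i _ i' _ hne => ?_) (fun i _ => mT i j)]
      · exact setLIntegral_le_lintegral _ _
      · refine Set.disjoint_left.2 ?_
        rintro _ ⟨v, hv, rfl⟩ ⟨v', hv', e⟩
        exact hne (hd i i' j v v' hv hv' e.symm)
  calc ∑ i, ∫⁻ v, Tw S o κ φ i v
      = ∑ i, ∑ j, ∫⁻ v, (S i j).indicator
          (fun v => ENNReal.ofReal (κ i j) * φ j (o i j + κ i j * v)) v := by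
        refine Finset.sum_congr rfl (fun i _ => ?_)
        exact lintegral_finsetSum _ (fun j _ =>
          (((hφ j).comp (by fun_prop)).const_mul _).indicator (hS i j))
    _ ≤ ∑ i, ∑ j, ∫⁻ v in T i j, φ j v :=
        Finset.sum_le_sum (fun i _ => Finset.sum_le_sum (fun j _ => h1 i j))
    _ = ∑ j, ∑ i, ∫⁻ v in T i j, φ j v := Finset.sum_comm
    _ ≤ ∑ j, if j ∈ St then 0 else ∫⁻ v, φ j v := by
        gcongr with j
        exact h2 j
    _ = _ := by
        rw [← Finset.sum_add_sum_compl St, Finset.sum_eq_zero (fun j hj => if_pos hj), zero_add]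
        exact Finset.sum_congr rfl (fun j hj => if_neg (Finset.mem_compl.1 hj))

theorem flux (t : ℕ) : ∀ φ : ι → ℝ → ℝ≥0∞, (∀ i, Measurable (φ i)) →
    ∑ i ∈ St, ∫⁻ v, Gw S o κ φ t i v ≤ ∑ i, ∫⁻ v, φ i v := by
  induction t with
  | zero =>
    intro φ _
    exact Finset.sum_le_sum_of_subset (Finset.subset_univ _)
  | succ t ih =>
    intro φ hφ
    have h1 : ∀ i, ∫⁻ v, Gw S o κ φ (t + 1) i v =
        (∫⁻ v, φ i v) + ∫⁻ v, Gw S o κ (Tw S o κ φ) t i v := by
      intro i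
      rw [← lintegral_add_left (hφ i), ← Tw_Gw]
      rfl
    simp only [h1, Finset.sum_add_distrib]
    rw [← Finset.sum_add_sum_compl St (fun i => ∫⁻ v, φ i v)]
    exact add_le_add le_rfl ((ih _ (measurable_Tw hS hφ)).trans (lint_Tw hS hκ hd hφ))

omit hS hκ hd [Fintype ι] in
/-- selection of a common parameter for two members of a family of functions -/
theorem select {F : ι → ℝ → ℝ≥0∞} (hF : ∀ i, Measurable (F i)) (a : ℕ → ι) (N : ℕ)
    (ha : ∀ k < N, ∀ k' < N, a k = a k' → k = k') {E : ℝ} (hE : 0 ≤ E)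
    (h : ∑ i ∈ (Finset.range N).image a, ∫⁻ v, F i v ≤ ENNReal.ofReal E) :
    ∃ h : ℕ → ℝ, (∀ k, 0 ≤ h k) ∧ ∑ k ∈ Finset.range N, h k ≤ E ∧
      ∀ k < N, ∀ k' < N, ∃ v : ℝ, |v| ≤ 1 / 4 ∧ F (a k) v ≤ ENNReal.ofReal (2 * (h k + h k')) ∧
        F (a k') v ≤ ENNReal.ofReal (2 * (h k + h k')) := by
  rw [Finset.sum_image (fun k hk k' hk' => ha k (by simpa using hk) k' (by simpa using hk'))] at h
  have fin : ∀ k < N, ∫⁻ v, F (a k) v ≠ ⊤ := fun k hk =>
    ne_top_of_le_ne_top ENNReal.ofReal_ne_top ((Finset.single_le_sum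
      (f := fun k => ∫⁻ v, F (a k) v) (fun _ _ => zero_le) (Finset.mem_range.2 hk)).trans h)
  refine ⟨fun k => (∫⁻ v, F (a k) v).toReal, fun _ => ENNReal.toReal_nonneg, ?_, ?_⟩
  · rw [← ENNReal.toReal_sum (fun k hk => fin k (Finset.mem_range.1 hk))]
    exact ENNReal.toReal_le_of_le_ofReal hE h
  · intro k hk k' hk'
    have hv : volume (Icc (-(1 / 4) : ℝ) (1 / 4)) = ENNReal.ofReal (1 / 2) := by
      rw [Real.volume_Icc]; norm_num
    obtain ⟨v, h1, h2⟩ := exists_le_setLAverage (μ := volume) (s := Icc (-(1 / 4) : ℝ) (1 / 4))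
      (f := fun v => F (a k) v + F (a k') v) (by rw [hv]; simp) (by rw [hv]; simp)
      ((hF _).add (hF _)).aemeasurable
    have h3 : F (a k) v + F (a k') v ≤ ENNReal.ofReal
        (2 * ((∫⁻ v, F (a k) v).toReal + (∫⁻ v, F (a k') v).toReal)) := by
      refine h2.trans ?_
      rw [setLAverage_eq, hv, ENNReal.div_le_iff (by simp) (by simp),
        ← ENNReal.ofReal_mul (by positivity), show ∀ x : ℝ, 2 * x * (1 / 2) = x from
          fun x => by ring, ENNReal.ofReal_add ENNReal.toReal_nonneg ENNReal.toReal_nonneg,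
        ENNReal.ofReal_toReal (fin k hk), ENNReal.ofReal_toReal (fin k' hk'),
        ← lintegral_add_left (hF _)]
      exact setLIntegral_le_lintegral _ _
    exact ⟨v, abs_le.2 h1, le_self_add.trans h3, le_add_self.trans h3⟩

end Pool.Agent.MP_c59ecb_co.h76

end MrgPart5

-- ======== part 6: formerly Pool.Agent.MP_c59ecb_co.h76.Ray
section MrgPart6

/-! Refracted rays as sequences of squares. -/

set_option autoImplicit false

namespace Pool.Agent.MP_c59ecb_co.h76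

open MeasureTheory Complex Set
open scoped ComplexConjugate ENNReal

variable {ι : Type} [Fintype ι] [DecidableEq ι]

/-- the normalised overlap near a square -/
noncomputable abbrev bt (c ω : ι → ℂ) (i : ι) : ℝ := beta c ω (1 / 100) i

/-- the point is covered -/
def Cov (c ω : ι → ℂ) (p : ℂ) : Prop := ∃ k, p ∈ Sq (c k) (ω k)

/-- the cost of a ray in a square, with an extra term -/
noncomputable def psi (c ω : ι → ℂ) (f : ι → ℝ) (i : ι) (v : ℝ) : ℝ≥0∞ :=
  cost c ω (1 / 100) i v + (Icc (-(1 / 2) : ℝ) (1 / 2)).indicator (fun _ => ENNReal.ofReal (f i)) v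

/-- the cost of the rays of length `t` -/
noncomputable def FF (c ω : ι → ℂ) (f : ι → ℝ) (St : Finset ι) (t : ℕ) : ι → ℝ → ℝ≥0∞ :=
  Gw (Src c ω (1 / 100) St) (off c ω) (slo ω) (psi c ω f) t

/-- a ray of length `t` with total cost at most `G` -/
structure Ray (c ω : ι → ℂ) (f : ι → ℝ) (t : ℕ) (G : ℝ) (I : ℕ → ι) (V d g : ℕ → ℝ) : Prop where
  v : ∀ k ≤ t, |V k| ≤ 1 / 2
  g0 : ∀ k, 0 ≤ g k
  sum : ∑ k ∈ Finset.range t, g k ≤ G
  ext : ∀ k < t, bt c ω (I k) + f (I k) ≤ g k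
  ang : ∀ k < t, ‖ω (I (k + 1)) - ω (I k)‖ ≤ g k
  d0 : ∀ k < t, 0 ≤ d k ∧ d k ≤ g k
  nxt : ∀ k < t, ex c ω (I (k + 1)) (V (k + 1)) =
    ex c ω (I k) (V k) + ω (I (k + 1)) * ((1 - d k : ℝ) : ℂ)
  ne : ∀ k < t, I (k + 1) ≠ I k

variable {c ω : ι → ℂ} {f : ι → ℝ}

lemma bt_nonneg (i : ι) : 0 ≤ bt c ω i := beta_nonneg (by norm_num) i

lemma Ray.cons {t : ℕ} {G G' : ℝ} {I : ℕ → ι} {V d g : ℕ → ℝ} (h : Ray c ω f t G I V d g)
    {i : ι} {v d₀ g₀ : ℝ} (h1 : |v| ≤ 1 / 2) (h2 : g₀ + G ≤ G') (h3 : bt c ω i + f i ≤ g₀)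
    (h4 : ‖ω (I 0) - ω i‖ ≤ g₀) (h5 : 0 ≤ d₀ ∧ d₀ ≤ g₀)
    (h6 : ex c ω (I 0) (V 0) = ex c ω i v + ω (I 0) * ((1 - d₀ : ℝ) : ℂ)) (h7 : I 0 ≠ i) :
    Ray c ω f (t + 1) G' (fun k => Nat.casesOn k i I) (fun k => Nat.casesOn k v V)
      (fun k => Nat.casesOn k d₀ d) (fun k => Nat.casesOn k g₀ g) where
  v k hk := by
    cases k with
    | zero => exact h1
    | succ k => exact h.v k (by omega)
  g0 k := by
    cases k with
    | zero => exact h5.1.trans h5.2
    | succ k => exact h.g0 k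
  sum := by
    rw [Finset.sum_range_succ']
    exact le_trans (add_le_add h.sum le_rfl) (by rw [add_comm]; exact h2)
  ext k hk := by
    cases k with
    | zero => exact h3
    | succ k => exact h.ext k (by omega)
  ang k hk := by
    cases k with
    | zero => exact h4
    | succ k => exact h.ang k (by omega)
  d0 k hk := by
    cases k with
    | zero => exact h5
    | succ k => exact h.d0 k (by omega)
  nxt k hk := by
    cases k with
    | zero => exact h6
    | succ k => exact h.nxt k (by omega)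
  ne k hk := by
    cases k with
    | zero => exact h7
    | succ k => exact h.ne k (by omega)

lemma measurable_psi (i : ι) : Measurable (psi c ω f i) :=
  (measurable_cost c ω _ i).add (measurable_const.indicator measurableSet_Icc)

lemma measurable_FF (St : Finset ι) (t : ℕ) (i : ι) : Measurable (FF c ω f St t i) :=
  measurable_Gw (measurableSet_Src c ω _ St) measurable_psi t i

variable (hω : ∀ k, ‖ω k‖ = 1) (hn : ∀ k, |(ω k).im| ≤ (ω k).re) (hf : ∀ i, 0 ≤ f i)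
include hω hn hf

lemma sum_FF (St : Finset ι) (t : ℕ) : ∑ i ∈ St, ∫⁻ v, FF c ω f St t i v ≤
    ENNReal.ofReal (22 * ∑ i, bt c ω i + ∑ i, f i) := by
  refine (flux (measurableSet_Src c ω _ St)
    (fun i j h => ⟨(src_slope hω hn le_rfl i j h).1, (src_slope hω hn le_rfl i j h).2.2⟩)
    (src_inj hω hn le_rfl) t _ measurable_psi).trans ?_
  rw [Finset.mul_sum, ← Finset.sum_add_distrib, ENNReal.ofReal_sum_of_nonneg
    (fun i _ => by linarith [bt_nonneg (c := c) (ω := ω) i, hf i])]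
  refine Finset.sum_le_sum fun i _ => ?_
  unfold psi
  rw [lintegral_add_left (measurable_cost c ω _ i), lintegral_indicator_const measurableSet_Icc,
    Real.volume_Icc, ENNReal.ofReal_add (by linarith [bt_nonneg (c := c) (ω := ω) i]) (hf i)]
  refine add_le_add (lint_cost hω hn (by norm_num) le_rfl i) ?_
  norm_num

theorem ray_aux {St : Finset ι} {T : ℕ} {G P p₀ : ℝ} {z₀ : ℂ} {i₀ : ι} (hP : p₀ + 2 * G ≤ P)
    (hp : 0 ≤ p₀) (hP' : P ≤ 1 / 200)
    (hc : ∀ p : ℂ, z₀.re - 4 ≤ p.re → p.re ≤ z₀.re + T + 4 → |p.im - z₀.im| ≤ P * T + 4 →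
      Cov c ω p)
    (hS : ∀ j ∈ St, ∀ (s : ℕ) (z : ℂ), (s : ℝ) / 2 ≤ (z - z₀).re → |(z - z₀).im| ≤ P * s →
      z ∈ Sq (c j) (ω j) → (loc (c j) (ω j) z).re ≤ -(1 / 4) → s = 0 ∧ j = i₀) (t : ℕ) :
    ∀ (s : ℕ) (i : ι) (v W q : ℝ), s + t = T → |v| ≤ 1 / 2 → ‖ω i - 1‖ ≤ p₀ + 2 * q →
      (s : ℝ) / 2 ≤ (ex c ω i v - z₀).re → (ex c ω i v - z₀).re ≤ s →
      |(ex c ω i v - z₀).im| ≤ P * s → (s = 0 → i = i₀) → 0 ≤ q → q ≤ G → 1 - q ≤ W → W ≤ 1 →
      ENNReal.ofReal q + ENNReal.ofReal W * FF c ω f St t i v ≤ ENNReal.ofReal G →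
      ∃ (I : ℕ → ι) (V d g : ℕ → ℝ), I 0 = i ∧ V 0 = v ∧ Ray c ω f t (2 * (G - q)) I V d g := by
  induction t with
  | zero =>
    intro s i v W q _ h1 _ _ _ _ _ _ h8 _ _ _
    exact ⟨fun _ => i, fun _ => v, fun _ => 0, fun _ => 0, rfl, rfl, fun _ _ => h1,
      fun _ => le_rfl, by simp; linarith, by simp, by simp, by simp, by simp, by simp⟩
  | succ t ih =>
    intro s i v W q hs h1 h2 h3 h4 h5 h6 h7 h8 h9 h10 hG
    have hG0 : 0 ≤ G := h7.trans h8
    have hW : 1 / 2 ≤ W := by linarith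
    have hP0 : 0 ≤ P := by linarith
    have hsT : (s : ℝ) + 1 ≤ T := by exact_mod_cast (show s + 1 ≤ T by omega)
    have hs0 : (0 : ℝ) ≤ s := by positivity
    have key : ∀ x : ℝ, 0 ≤ x → ENNReal.ofReal x ≤ psi c ω f i v → q + W * x ≤ G := by
      intro x hx h
      rw [← ENNReal.ofReal_le_ofReal_iff hG0, ENNReal.ofReal_add h7 (by positivity),
        ENNReal.ofReal_mul (by linarith)]
      refine le_trans ?_ hG
      gcongr
      exact h.trans (le_Gw _ _ _ _ _ _ _)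
    have hβ := bt_nonneg (c := c) (ω := ω) i
    have hI : v ∈ Icc (-(1 / 2) : ℝ) (1 / 2) := mem_Icc.2 (abs_le.1 h1)
    have k0 : bt c ω i < 1 := by
      have := key _ hβ (by
        refine le_trans ?_ (le_self_add.trans (le_self_add.trans le_self_add))
        rw [indicator_of_mem hI])
      nlinarith
    have hV : VG c ω (1 / 100) i := by
      refine ⟨bb_le_of_beta (by norm_num) k0, fun p hp => ?_, by linarith⟩
      have k1 := norm_le_of_mem (hω i) (ex_mem (c := c) (i := i) hω h1)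
      rw [norm_sub_rev] at k1
      have k2 : ‖p - ex c ω i v‖ ≤ 79 / 20 := by
        linarith [norm_sub_le_norm_sub_add_norm_sub p (c i) (ex c ω i v)]
      have k3 := abs_le.1 ((abs_re_le_norm _).trans k2)
      have k4 := abs_le.1 ((abs_im_le_norm _).trans k2)
      have k5 := abs_le.1 h5
      have k6 : P * s ≤ P * T := by gcongr; linarith
      simp only [sub_re, sub_im] at k3 k4 k5 h3 h4
      exact hc p (by linarith) (by linarith) (abs_le.2 ⟨by linarith, by linarith⟩)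
    obtain ⟨j, hj, hp⟩ := exists_next hω hV.2.1 h1
    change ex c ω i v ∈ _ at hp
    have hβ' := beta_eq (by norm_num) hV.1
    set k := bt c ω i + max (dep c ω i j) 0 + f i with hk
    have hk0 : 0 ≤ max (dep c ω i j) 0 := le_max_right _ _
    have hfi := hf i
    have k1 : ENNReal.ofReal k ≤ psi c ω f i v := by
      rw [hk, ENNReal.ofReal_add (by linarith) hfi, ENNReal.ofReal_add hβ hk0, ENNReal.ofReal_max,
        ENNReal.ofReal_zero, max_eq_left zero_le]
      refine add_le_add (add_le_add (le_trans ?_ le_self_add) (le_trans ?_ (Finset.single_le_sum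
        (f := fun j => (Con c ω (1 / 100) i j).indicator (fun _ => ENNReal.ofReal (dep c ω i j)) v)
        (fun _ _ => zero_le) (Finset.mem_univ j)))) ?_
      · rw [indicator_of_mem hI]
      · rw [indicator_of_mem (show v ∈ Con c ω (1 / 100) i j from ⟨⟨hV, hj⟩, h1, hp⟩)]
      · rw [indicator_of_mem hI]
    have k2 := key k (by linarith) k1
    have k2' : k ≤ 2 * (W * k) := by nlinarith
    have k3 : |v| < 1 / 2 - 4 * (10 ^ 17 * bb c ω i) := by
      by_contra k4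
      have := key 1 zero_le_one (by
        refine le_trans ?_ (le_add_self.trans (le_self_add.trans le_self_add))
        rw [indicator_of_mem (show v ∈ Cor c ω (1 / 100) i from ⟨hV.1, not_lt.1 k4, h1⟩),
          Pi.one_apply, ENNReal.ofReal_one])
      linarith
    have k4 := align hω hn le_rfl hV (near_of_mem hω (ex_mem (i := i) hω h1) hp (by simp))
    rw [hβ'] at k4
    change _ ≤ 1 / 100 * bt c ω i at k4
    set z := loc (c j) (ω j) (ex c ω i v) with hz
    have k5 : z.re + 1 / 2 ≤ k := by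
      have k6 : |(ω i * conj (ω j)).im * v| ≤ 1 / 100 * bt c ω i * (1 / 2) := by
        rw [abs_mul]
        exact mul_le_mul ((rel_im (hω j)).trans k4) h1 (abs_nonneg _) (by positivity)
      rw [hz, loc_ex]
      have k7 := le_max_left (dep c ω i j) 0
      have k8 := (abs_le.1 k6).1
      simp only
      linarith
    have k6 := abs_le.1 hp.1
    have k7 : ‖ω j - ω i‖ ≤ k := by rw [norm_sub_rev]; linarith
    have k8 : ‖ω j - 1‖ ≤ p₀ + 2 * (q + W * k) := by
      linarith [norm_sub_le_norm_sub_add_norm_sub (ω j) (ω i) 1]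
    have k8' : ‖ω j - 1‖ ≤ P := by linarith
    have k9 : ex c ω j z.im = ex c ω i v + ω j * ((1 - (z.re + 1 / 2) : ℝ) : ℂ) := by
      rw [ex, eq_loc (hω j) (c j) (ex c ω i v), ← hz, add_assoc, ← mul_add]
      congr 2
      apply Complex.ext
      · simp; ring
      · simp
    have k10 := re_ge_of_unit (hω j) (k8'.trans hP')
    have k11 := re_le_of_unit (hω j)
    have k12 : |(ω j).im| ≤ P := by simpa using (abs_im_le_norm _).trans k8'
    have k13 : (ex c ω j z.im - z₀).re =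
        (ex c ω i v - z₀).re + (ω j).re * (1 - (z.re + 1 / 2)) := by
      rw [k9, sub_re, add_re, mul_re, ofReal_re, ofReal_im, mul_zero, sub_zero, sub_re]
      ring
    have k14 : (ex c ω j z.im - z₀).im =
        (ex c ω i v - z₀).im + (ω j).im * (1 - (z.re + 1 / 2)) := by
      rw [k9, sub_im, add_im, mul_im, ofReal_re, ofReal_im, mul_zero, zero_add, sub_im]
      ring
    have k15 : 1 / 2 ≤ (ω j).re * (1 - (z.re + 1 / 2)) := by nlinarith
    have k16 : (ω j).re * (1 - (z.re + 1 / 2)) ≤ 1 := by nlinarith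
    have k17 : |(ω j).im * (1 - (z.re + 1 / 2))| ≤ P * 1 := by
      rw [abs_mul]
      exact mul_le_mul k12 (abs_le.2 ⟨by linarith, by linarith⟩) (abs_nonneg _) hP0
    have hSt : j ∉ St := fun hj' => by
      obtain ⟨e1, e2⟩ := hS j hj' s _ h3 h5 hp (by linarith)
      exact hj (e2.trans (h6 e1).symm)
    have hsrc : v ∈ Src c ω (1 / 100) St i j := ⟨⟨hV, hj, hSt⟩, k3, hp, by linarith⟩
    have k18 : 1 - k ≤ slo ω i j := by
      have := re_ge_of_unit (norm_rel_unit (hω i) (hω j)) ((norm_rel (hω j)).le.trans k4)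
      change _ ≤ slo ω i j at this
      nlinarith
    have k19 : slo ω i j ≤ 1 := re_le_of_unit (norm_rel_unit (hω i) (hω j))
    have k21 : z.im = off c ω i j + slo ω i j * v := by rw [hz, loc_ex]
    have k22 : 0 ≤ W * k := mul_nonneg (by linarith) (by linarith)
    obtain ⟨I, V, d, g, e1, e2, hR⟩ := ih (s + 1) j z.im (W * slo ω i j) (q + W * k) (by omega)
      hp.2 k8 (by rw [k13]; push_cast; linarith) (by rw [k13]; push_cast; linarith) (by
        rw [k14]
        have := abs_le.1 h5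
        have := abs_le.1 k17
        push_cast
        exact abs_le.2 ⟨by linarith, by linarith⟩) (by omega) (by linarith) k2 (by nlinarith)
      (by nlinarith) (by
        refine le_trans ?_ hG
        rw [ENNReal.ofReal_add h7 k22, add_assoc, ENNReal.ofReal_mul (by linarith),
          ENNReal.ofReal_mul (by linarith), mul_assoc, ← mul_add, k21]
        gcongr
        exact (add_le_add k1 le_rfl).trans (step_le_Gw _ _ _ _ t hsrc))
    exact ⟨_, _, _, _, rfl, rfl, hR.cons (i := i) (v := v) (d₀ := z.re + 1 / 2) (g₀ := k) h1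
      (by linarith) (by linarith) (by rw [e1]; exact k7) ⟨by linarith, k5⟩
      (by rw [e1, e2]; exact k9) (by rw [e1]; exact hj)⟩

theorem exists_ray {St : Finset ι} {T : ℕ} {G P p₀ v₀ : ℝ} {i₀ : ι} (hP : p₀ + 2 * G ≤ P)
    (hG0 : 0 ≤ G) (hp : ‖ω i₀ - 1‖ ≤ p₀) (hP' : P ≤ 1 / 200) (hv : |v₀| ≤ 1 / 2)
    (hc : ∀ p : ℂ, (ex c ω i₀ v₀).re - 4 ≤ p.re → p.re ≤ (ex c ω i₀ v₀).re + T + 4 →
      |p.im - (ex c ω i₀ v₀).im| ≤ P * T + 4 → Cov c ω p)
    (hS : ∀ j ∈ St, ∀ (s : ℕ) (z : ℂ), (s : ℝ) / 2 ≤ (z - ex c ω i₀ v₀).re →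
      |(z - ex c ω i₀ v₀).im| ≤ P * s →
      z ∈ Sq (c j) (ω j) → (loc (c j) (ω j) z).re ≤ -(1 / 4) → s = 0 ∧ j = i₀)
    (hG : FF c ω f St T i₀ v₀ ≤ ENNReal.ofReal G) :
    ∃ (I : ℕ → ι) (V d g : ℕ → ℝ), I 0 = i₀ ∧ V 0 = v₀ ∧ Ray c ω f T (2 * G) I V d g := by
  simpa using ray_aux hω hn hf hP ((norm_nonneg _).trans hp) hP' hc hS T 0 i₀ v₀ 1 0 (by simp) hv
    (by simpa) (by simp) (by simp) (by simp) (fun _ => rfl) le_rfl hG0 (by simp) le_rfl
    (by simpa)

end Pool.Agent.MP_c59ecb_co.h76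

end MrgPart6

-- ======== part 7: formerly Pool.Agent.MP_c59ecb_co.h76.Tube
section MrgPart7

/-! Tubes above a square, geometry of rays, and the comparison of two rays. -/

set_option autoImplicit false

namespace Pool.Agent.MP_c59ecb_co.h76

open MeasureTheory Complex Set
open scoped ComplexConjugate ENNReal

variable {ι : Type} [Fintype ι] [DecidableEq ι]

open Classical in
/-- the normalised overlap in the tube of height `M` above a square -/
noncomputable def tb (c ω : ι → ℂ) (M : ℕ) (i : ι) : ℝ :=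
  min 1 (∑ m ∈ Finset.range M,
    ∑ k ∈ Finset.univ.filter (fun k => c i + I * m ∈ Sq (c k) (ω k)), bt c ω k)

variable {c ω : ι → ℂ} {f : ι → ℝ}

lemma tb_nonneg (M : ℕ) (i : ι) : 0 ≤ tb c ω M i :=
  le_min zero_le_one (Finset.sum_nonneg fun _ _ => Finset.sum_nonneg fun k _ => bt_nonneg k)

lemma bb_eq {i : ι} (h : bt c ω i < 1) : 10 ^ 17 * bb c ω i = 1 / 100 * bt c ω i :=
  beta_eq (by norm_num) (bb_le_of_beta (by norm_num) h)

lemma re_diff {a b : ℂ} (ha : ‖a‖ = 1) (hb : ‖b‖ = 1) {P : ℝ} (h1 : ‖a - 1‖ ≤ P)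
    (h2 : ‖b - 1‖ ≤ P) : |b.re - a.re| ≤ P * ‖b - a‖ := by
  have e : ∀ z : ℂ, ‖z‖ = 1 → z.re = 1 - ‖z - 1‖ ^ 2 / 2 := fun z hz => by
    have h1 := Complex.normSq_eq_norm_sq z
    rw [hz, Complex.normSq_apply] at h1
    rw [← Complex.normSq_eq_norm_sq, Complex.normSq_apply]
    simp only [sub_re, one_re, sub_im, one_im, sub_zero]
    nlinarith
  have h3 : |‖a - 1‖ - ‖b - 1‖| ≤ ‖b - a‖ := by
    have := abs_norm_sub_norm_le (a - 1) (b - 1)
    rwa [sub_sub_sub_cancel_right, norm_sub_rev a b] at this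
  rw [e a ha, e b hb, show ∀ x y : ℝ, 1 - y ^ 2 / 2 - (1 - x ^ 2 / 2) = (x + y) / 2 * (x - y) from
    fun x y => by ring, abs_mul, abs_of_nonneg (by positivity)]
  exact mul_le_mul (by linarith) h3 (abs_nonneg _) ((norm_nonneg _).trans h1)

section sums

variable (hω : ∀ k, ‖ω k‖ = 1)
include hω

lemma sum_bt : ∑ i, bt c ω i ≤ 201 * 10 ^ 19 * ∑ k, ov c ω k := by
  simp only [bt, beta]
  rw [← Finset.sum_mul]
  have := sum_min_le (c := c) hω (η := 1 / 100 / 10 ^ 17) (by norm_num)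
  linarith

lemma sum_tb (M : ℕ) : ∑ i, tb c ω M i ≤ 200 * M * ∑ k, bt c ω k + 2 * ∑ k, ov c ω k := by
  classical
  have h1 : ∀ i, tb c ω M i ≤ 2 * ov c ω i + ∑ m ∈ Finset.range M, ∑ k,
      if c i + I * m ∈ Sq (c k) (ω k) ∧ ov c ω i ≤ 1 / 2 then bt c ω k else 0 := by
    intro i
    by_cases hi : ov c ω i ≤ 1 / 2
    · simp only [hi, and_true, ← Finset.sum_filter]
      exact (min_le_right _ _).trans (le_add_of_nonneg_left (by linarith [ov_nonneg c ω i]))
    · simp only [hi, and_false, if_false, Finset.sum_const_zero, add_zero]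
      exact (min_le_left _ _).trans (by linarith)
  refine (Finset.sum_le_sum (fun i _ => h1 i)).trans ?_
  rw [Finset.sum_add_distrib, ← Finset.mul_sum, Finset.sum_comm, add_comm]
  refine add_le_add ((Finset.sum_le_card_nsmul _ _ (200 * ∑ k, bt c ω k) fun m _ => ?_).trans_eq
    (by simp; ring)) le_rfl
  rw [Finset.sum_comm, Finset.mul_sum]
  refine Finset.sum_le_sum fun k _ => ?_
  rw [← Finset.sum_filter, Finset.sum_const, nsmul_eq_mul]
  refine mul_le_mul_of_nonneg_right ?_ (bt_nonneg k)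
  have := pack hω (c k - I * m) (Finset.univ.filter
    (fun i => c i + I * m ∈ Sq (c k) (ω k) ∧ ov c ω i ≤ 1 / 2)) (fun i hi => by
      have h2 := (Finset.mem_filter.1 hi).2
      have h3 := norm_le_of_mem (hω k) h2.1
      refine ⟨?_, h2.2⟩
      rw [show c i - (c k - I * m) = c i + I * m - c k by ring]
      linarith)
  exact_mod_cast this

end sums

lemma tube_align (hω : ∀ k, ‖ω k‖ = 1) (hn : ∀ k, |(ω k).im| ≤ (ω k).re) {M : ℕ} {i : ι}
    (h1 : ‖ω i - 1‖ ≤ 1 / 200) (h2 : bt c ω i + tb c ω M i ≤ 1 / 2)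
    (hc : ∀ m < M, ∀ p, ‖p - (c i + I * m)‖ ≤ 4 → Cov c ω p) {m : ℕ} (hm : m < M) {q : ι}
    (hq : ‖c q - (c i + I * m)‖ ≤ 9 / 4) :
    ‖ω q - ω i‖ ≤ (bt c ω i + tb c ω M i) / 100 ∧ ov c ω q ≤ tb c ω M i / 100 := by
  classical
  have hβ := bt_nonneg (c := c) (ω := ω)
  set b : ℕ → ℝ := fun m =>
    ∑ k ∈ Finset.univ.filter (fun k => c i + I * m ∈ Sq (c k) (ω k)), bt c ω k with hb
  have hb0 : ∀ m, 0 ≤ b m := fun m => Finset.sum_nonneg fun k _ => hβ k
  have hT : tb c ω M i = ∑ m ∈ Finset.range M, b m := by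
    rcases le_total 1 (∑ m ∈ Finset.range M, b m) with h | h
    · have : tb c ω M i = 1 := min_eq_left h
      linarith [hβ i]
    · exact min_eq_right h
  have hs : ∀ m ≤ M, ∑ j ∈ Finset.range m, b j ≤ tb c ω M i := fun m hm => by
    rw [hT]
    exact Finset.sum_le_sum_of_subset_of_nonneg (Finset.range_mono hm) fun j _ _ => hb0 j
  have hk : ∀ m : ℕ, ∀ k, c i + I * m ∈ Sq (c k) (ω k) → bt c ω k ≤ b m := fun m k hk =>
    Finset.single_le_sum (f := bt c ω) (fun k _ => hβ k) (Finset.mem_filter.2 ⟨by simp, hk⟩)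
  have st : ∀ m < M, ∀ k, c i + I * m ∈ Sq (c k) (ω k) →
      ‖ω k - ω i‖ ≤ (bt c ω i + ∑ j ∈ Finset.range m, b j) / 100 → ∀ q, ‖c q - c k‖ ≤ 3 →
      ‖ω q - ω i‖ ≤ (bt c ω i + ∑ j ∈ Finset.range (m + 1), b j) / 100 ∧
        ov c ω q ≤ tb c ω M i / 100 := by
    intro m hm k hk1 hk2 q hq
    have a1 := hs (m + 1) hm
    have a0 : 0 ≤ ∑ j ∈ Finset.range m, b j := Finset.sum_nonneg fun j _ => hb0 j
    rw [Finset.sum_range_succ] at a1 ⊢
    have a2 := hk m k hk1
    have a3 : bt c ω k < 1 := by linarith [hβ i]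
    have a4 := norm_le_of_mem (hω k) hk1
    have a5 : VG c ω (1 / 100) k := ⟨bb_le_of_beta (by norm_num) a3, fun p hp => hc m hm p (by
      rw [norm_sub_rev] at a4
      linarith [norm_sub_le_norm_sub_add_norm_sub p (c k) (c i + I * m)]), by
      linarith [norm_sub_le_norm_sub_add_norm_sub (ω k) (ω i) 1, hb0 m]⟩
    have a6 := align hω hn le_rfl a5 hq
    have a7 := ov_le_bb (ω := ω) (hq.trans (by norm_num : (3 : ℝ) ≤ 4))
    have a8 := bb_nonneg (c := c) (ω := ω) k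
    rw [bb_eq a3, norm_sub_rev] at a6
    have a9 := bb_eq a3
    exact ⟨by linarith [norm_sub_le_norm_sub_add_norm_sub (ω q) (ω k) (ω i)], by linarith⟩
  have ch : ∀ m < M, ∀ k, c i + I * m ∈ Sq (c k) (ω k) →
      ‖ω k - ω i‖ ≤ (bt c ω i + ∑ j ∈ Finset.range m, b j) / 100 := by
    intro m
    induction m with
    | zero =>
      intro hm k hk
      have a3 : bt c ω i < 1 := by linarith [tb_nonneg (c := c) (ω := ω) M i]
      have a4 := norm_le_of_mem (hω k) hk
      simp only [Nat.cast_zero, mul_zero, add_zero] at a4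
      have a6 := align hω hn le_rfl (i := i) (k := k) ⟨bb_le_of_beta (by norm_num) a3,
        fun p hp => hc 0 hm p (by simpa using hp.trans (by norm_num)), by linarith⟩
        (by rw [norm_sub_rev]; linarith)
      rw [bb_eq a3, norm_sub_rev] at a6
      simp only [Finset.range_zero, Finset.sum_empty]
      linarith
    | succ m ih =>
      intro hm k hk
      obtain ⟨k', hk'⟩ := hc m (by omega) (c i + I * m) (by simp)
      refine (st m (by omega) k' hk' (ih (by omega) k' hk') k ?_).1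
      have a1 := norm_le_of_mem (hω k) hk
      have a2 := norm_le_of_mem (hω k') hk'
      have e : c k - c k' = (c i + I * m - c k') - (c i + I * ((m + 1 : ℕ) : ℂ) - c k) + I := by
        push_cast; ring
      rw [e]
      refine (norm_add_le _ _).trans ?_
      rw [norm_I]
      linarith [norm_sub_le (c i + I * m - c k') (c i + I * ((m + 1 : ℕ) : ℂ) - c k)]
  obtain ⟨k, hk⟩ := hc m hm (c i + I * m) (by simp)
  have a1 := norm_le_of_mem (hω k) hk
  obtain ⟨a2, a3⟩ := st m hm k hk (ch m hm k hk) q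
    (by linarith [norm_sub_le_norm_sub_add_norm_sub (c q) (c i + I * m) (c k)])
  exact ⟨by linarith [hs (m + 1) hm], a3⟩

namespace Ray

variable {t : ℕ} {G : ℝ} {J J' : ℕ → ι} {V d g V' d' g' : ℕ → ℝ}

lemma sub (h : Ray c ω f t G J V d g) {s : Finset ℕ} (hs : ∀ k ∈ s, k < t) :
    ∑ k ∈ s, g k ≤ G :=
  (Finset.sum_le_sum_of_subset_of_nonneg (fun k hk => Finset.mem_range.2 (hs k hk))
    fun k _ _ => h.g0 k).trans h.sum

lemma le (h : Ray c ω f t G J V d g) {k : ℕ} (hk : k < t) : g k ≤ G := by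
  simpa using h.sub (s := {k}) (by simpa)

lemma ang_le (h : Ray c ω f t G J V d g) {m k : ℕ} (h1 : m ≤ k) (h2 : k ≤ t) :
    ‖ω (J k) - ω (J m)‖ ≤ ∑ j ∈ Finset.Ico m k, g j := by
  induction k, h1 using Nat.le_induction with
  | base => simp
  | succ k hk ih =>
    rw [Finset.sum_Ico_succ_top hk]
    linarith [norm_sub_le_norm_sub_add_norm_sub (ω (J (k + 1))) (ω (J k)) (ω (J m)),
      h.ang k (by omega), ih (by omega)]

lemma tilt (h : Ray c ω f t G J V d g) {p : ℝ} (hp : ‖ω (J 0) - 1‖ ≤ p) {k : ℕ} (hk : k ≤ t) :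
    ‖ω (J k) - 1‖ ≤ p + G := by
  have h1 := h.ang_le (Nat.zero_le k) hk
  have h2 := h.sub (s := Finset.Ico 0 k) (fun j hj => by simp at hj; omega)
  linarith [norm_sub_le_norm_sub_add_norm_sub (ω (J k)) (ω (J 0)) 1]

lemma re_succ (h : Ray c ω f t G J V d g) {k : ℕ} (hk : k < t) :
    (ex c ω (J (k + 1)) (V (k + 1))).re = (ex c ω (J k) (V k)).re + (ω (J (k + 1))).re * (1 - d k) := by
  rw [h.nxt k hk, add_re, mul_re, ofReal_re, ofReal_im, mul_zero, sub_zero]

lemma im_succ (h : Ray c ω f t G J V d g) {k : ℕ} (hk : k < t) :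
    (ex c ω (J (k + 1)) (V (k + 1))).im = (ex c ω (J k) (V k)).im + (ω (J (k + 1))).im * (1 - d k) := by
  rw [h.nxt k hk, add_im, mul_im, ofReal_re, ofReal_im, mul_zero, zero_add]

lemma geo (hω : ∀ k, ‖ω k‖ = 1) (h : Ray c ω f t G J V d g) {P : ℝ}
    (hP : ∀ k ≤ t, ‖ω (J k) - 1‖ ≤ P) (hG : G ≤ P) (hP' : P ≤ 1 / 200) {m k : ℕ} (h1 : m ≤ k)
    (h2 : k ≤ t) :
    ((k : ℝ) - m) * (1 - 2 * P) ≤ (ex c ω (J k) (V k)).re - (ex c ω (J m) (V m)).re ∧
    (ex c ω (J k) (V k)).re - (ex c ω (J m) (V m)).re ≤ k - m ∧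
    |(ex c ω (J k) (V k)).im - (ex c ω (J m) (V m)).im| ≤ P * (k - m) := by
  induction k, h1 using Nat.le_induction with
  | base => simp
  | succ k hk ih =>
    obtain ⟨a1, a2, a3⟩ := ih (by omega)
    have b1 := hP (k + 1) h2
    have b0 : 0 ≤ P := (norm_nonneg _).trans b1
    have b2 := re_ge_of_unit (hω _) b1
    have b3 := re_le_of_unit (hω (J (k + 1)))
    have b4 : |(ω (J (k + 1))).im| ≤ P := by simpa using (abs_im_le_norm _).trans b1
    obtain ⟨b5, b6⟩ := h.d0 k h2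
    have b7 := h.le (k := k) h2
    have b8 : |(ω (J (k + 1))).im * (1 - d k)| ≤ P * 1 := by
      rw [abs_mul]
      exact mul_le_mul b4 (abs_le.2 ⟨by linarith, by linarith⟩) (abs_nonneg _) b0
    rw [h.re_succ h2, h.im_succ h2]
    have b9 := abs_le.1 a3
    have b10 := abs_le.1 b8
    have b11 : 1 - 2 * P ≤ (ω (J (k + 1))).re * (1 - d k) := by nlinarith
    have b12 : (ω (J (k + 1))).re * (1 - d k) ≤ 1 := by nlinarith
    push_cast
    exact ⟨by linarith, by linarith, abs_le.2 ⟨by linarith, by linarith⟩⟩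

/-- the comparison of two rays -/
theorem pair (hω : ∀ k, ‖ω k‖ = 1) (hn : ∀ k, |(ω k).im| ≤ (ω k).re)
    (h : Ray c ω f t G J V d g) (h' : Ray c ω f t G J' V' d' g') {l M : ℕ} (hl : 1 ≤ l)
    (hM : l < M) (hf : ∀ i, tb c ω M i ≤ l * f i) {P : ℝ} (hP : ∀ k ≤ t, ‖ω (J k) - 1‖ ≤ P)
    (hP' : ∀ k ≤ t, ‖ω (J' k) - 1‖ ≤ P) (hP1 : P ≤ 1 / 200) (hG : (l + 4) * G ≤ 1 / 100)
    (hc : ∀ k < t, ∀ m < M, ∀ p, ‖p - (c (J k) + I * m)‖ ≤ 4 → Cov c ω p)
    (h0 : ‖ex c ω (J' 0) (V' 0) - ex c ω (J 0) (V 0) - I * l‖ ≤ 11 / 10) {k : ℕ} (hk : k < t) :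
    ‖ex c ω (J' k) (V' k) - ex c ω (J k) (V k) - (ex c ω (J' 0) (V' 0) - ex c ω (J 0) (V 0))‖ ≤
      (l + 2) * G ∧
    |(ex c ω (J' k) (V' k) - ex c ω (J k) (V k)).re -
      (ex c ω (J' 0) (V' 0) - ex c ω (J 0) (V 0)).re| ≤ (P * l + 2) * G := by
  set D : ℕ → ℂ := fun k => ex c ω (J' k) (V' k) - ex c ω (J k) (V k) with hD
  have hl' : (1 : ℝ) ≤ l := by exact_mod_cast hl
  have hP0 : 0 ≤ P := (norm_nonneg _).trans (hP 0 (Nat.zero_le _))
  have hG0 : 0 ≤ G := (h.g0 k).trans (h.le hk)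
  have fin : ∀ k < t, ∀ x : ℝ, 0 ≤ x → x * ∑ j ∈ Finset.range (k + 1), g j +
      ∑ j ∈ Finset.range k, g j + ∑ j ∈ Finset.range k, g' j ≤ (x + 2) * G := fun k hk x hx => by
    have a1 := h.sub (s := Finset.range (k + 1)) (fun j hj => by simp at hj; omega)
    have a2 := h.sub (s := Finset.range k) (fun j hj => by simp at hj; omega)
    have a3 := h'.sub (s := Finset.range k) (fun j hj => by simp at hj; omega)
    nlinarith
  suffices H : ‖D k - D 0‖ ≤ l * ∑ j ∈ Finset.range (k + 1), g j +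
      ∑ j ∈ Finset.range k, g j + ∑ j ∈ Finset.range k, g' j ∧
      |(D k).re - (D 0).re| ≤ P * l * ∑ j ∈ Finset.range (k + 1), g j +
      ∑ j ∈ Finset.range k, g j + ∑ j ∈ Finset.range k, g' j from
    ⟨H.1.trans (fin k hk _ (by linarith)), H.2.trans (fin k hk _ (by positivity))⟩
  induction k with
  | zero =>
    have := h.g0 0
    simp only [sub_self, norm_zero, abs_zero, zero_add, Finset.range_one, Finset.sum_singleton,
      Finset.range_zero, Finset.sum_empty, add_zero]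
    exact ⟨by positivity, by positivity⟩
  | succ k ih =>
    have hk' : k < t := by omega
    obtain ⟨a1, a2⟩ := ih hk'
    have a3 := fin k hk' l (by linarith)
    obtain ⟨b1, b2⟩ := h.d0 k hk'
    obtain ⟨b3, b4⟩ := h'.d0 k hk'
    set u := ω (J (k + 1)) with hu
    set u' := ω (J' (k + 1)) with hu'
    have e1 : D (k + 1) - D k = (u' - u) + (u * (d k : ℝ) - u' * (d' k : ℝ)) := by
      simp only [hD]
      rw [h.nxt k hk', h'.nxt k hk']
      push_cast
      ring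
    have e2 : ‖u * (d k : ℝ) - u' * (d' k : ℝ)‖ ≤ g k + g' k := by
      refine (norm_sub_le _ _).trans ?_
      rw [norm_mul, norm_mul, hω, hω, norm_real, norm_real, Real.norm_of_nonneg b1,
        Real.norm_of_nonneg b3]
      linarith
    have e3 : ‖u' - u‖ ≤ 2 * P := by
      have := norm_sub_le_norm_sub_add_norm_sub u' 1 u
      rw [norm_sub_rev 1] at this
      linarith [hP (k + 1) hk.le, hP' (k + 1) hk.le]
    have e4 := norm_add_le (u' - u) (u * (d k : ℝ) - u' * (d' k : ℝ))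
    rw [← e1] at e4
    have e5 : ‖c (J' (k + 1)) - (c (J (k + 1)) + I * l)‖ ≤ 9 / 4 := by
      have e : c (J' (k + 1)) - (c (J (k + 1)) + I * l) = (D (k + 1) - D k) + (D k - D 0) +
          (D 0 - I * l) - ((u' - u) * ⟨1 / 2, V' (k + 1)⟩ +
            u * (I * ((V' (k + 1) - V (k + 1) : ℝ) : ℂ))) := by
        have : (⟨1 / 2, V' (k + 1)⟩ : ℂ) =
            ⟨1 / 2, V (k + 1)⟩ + I * ((V' (k + 1) - V (k + 1) : ℝ) : ℂ) := by
          apply Complex.ext <;> simp
        simp only [hD, ex, ← hu, ← hu']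
        linear_combination (-u) * this
      have v1 := abs_le.1 (h.v (k + 1) hk.le)
      have v2 := abs_le.1 (h'.v (k + 1) hk.le)
      have n1 : ‖(u' - u) * ⟨1 / 2, V' (k + 1)⟩‖ ≤ 2 * P * 1 := by
        rw [norm_mul]
        exact mul_le_mul e3 (norm_mk_le zero_le_one (by nlinarith)) (norm_nonneg _) (by linarith)
      have n2 : ‖u * (I * ((V' (k + 1) - V (k + 1) : ℝ) : ℂ))‖ ≤ 1 := by
        rw [norm_mul, norm_mul, hω, norm_I, norm_real, one_mul, one_mul]
        exact abs_le.2 ⟨by linarith, by linarith⟩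
      rw [e]
      refine (norm_sub_le _ _).trans (le_trans (add_le_add norm_add₃_le (norm_add_le _ _)) ?_)
      have := h.le hk'
      have := h'.le hk'
      change ‖D 0 - I * l‖ ≤ _ at h0
      linarith
    have e6 : bt c ω (J (k + 1)) + tb c ω M (J (k + 1)) ≤ l * g (k + 1) := by
      have := h.ext (k + 1) hk
      have := bt_nonneg (c := c) (ω := ω) (J (k + 1))
      nlinarith [hf (J (k + 1))]
    have e7 : l * g (k + 1) ≤ l * G := by gcongr; exact h.le hk
    have e8 := (tube_align hω hn ((hP (k + 1) hk.le).trans hP1) (by linarith) (hc _ hk) hM e5).1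
    have e9 : ‖u' - u‖ ≤ l * g (k + 1) := by
      have : 0 ≤ l * g (k + 1) := mul_nonneg (by linarith) (h.g0 _)
      linarith
    have e10 := re_diff (hω _) (hω _) (hP (k + 1) hk.le) (hP' (k + 1) hk.le)
    have e11 : P * ‖u' - u‖ ≤ P * (l * g (k + 1)) := by gcongr
    have e12 := abs_le.1 ((abs_re_le_norm _).trans e2)
    have e13 := congrArg Complex.re e1
    rw [sub_re, add_re, sub_re u'] at e13
    have e14 := abs_le.1 (e10.trans e11)
    have e15 := abs_le.1 a2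
    rw [Finset.sum_range_succ g (k + 1), Finset.sum_range_succ g' k]
    rw [Finset.sum_range_succ g k] at a1 a2 e15 ⊢
    exact ⟨by linarith [norm_sub_le_norm_sub_add_norm_sub (D (k + 1)) (D k) (D 0)],
      abs_le.2 ⟨by linarith, by linarith⟩⟩

end Ray

end Pool.Agent.MP_c59ecb_co.h76

end MrgPart7

-- ======== part 8: formerly Pool.Agent.MP_c59ecb_co.h76.Fault
section MrgPart8

/-! Continuation of a fault line. -/

set_option autoImplicit false

namespace Pool.Agent.MP_c59ecb_co.h76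

open MeasureTheory Complex Set
open scoped ComplexConjugate ENNReal

variable {ι : Type}

/-- the centres near the fault line -/
def Nr (x y : ι → ℝ) (H : ℝ) (q : ι) : Prop := |x q| ≤ 11 / 10 ∧ -(6 / 5) ≤ y q ∧ y q ≤ H + 1

/-- almost parallel squares near a vertical segment -/
structure Par (x y : ι → ℝ) (μ β e H : ℝ) : Prop where
  cov : ∀ a b : ℝ, |a| ≤ 1 / 2 → -(3 / 5) ≤ b → b ≤ H →
    ∃ q, |a - x q| ≤ 1 / 2 + μ ∧ |b - y q| ≤ 1 / 2 + μ
  hx : ∀ q q', Nr x y H q → Nr x y H q' → q ≠ q' → |y q - y q'| ≤ 1 - 2 * μ - β / 4 →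
    1 - e ≤ |x q - x q'|
  hy : ∀ q q', Nr x y H q → Nr x y H q' → q ≠ q' → |x q - x q'| ≤ 1 - 2 * μ - 1 / 5 →
    1 - 7 * μ ≤ |y q - y q'|

variable {x y : ι → ℝ} {μ β e H : ℝ}

lemma Par.neg (h : Par x y μ β e H) : Par (fun q => -x q) y μ β e H where
  cov a b h1 h2 h3 := by
    obtain ⟨q, k1, k2⟩ := h.cov (-a) b (by rwa [abs_neg]) h2 h3
    exact ⟨q, by rwa [← abs_neg, show -(a - -x q) = -a - x q by ring], k2⟩
  hx q q' h1 h2 h3 h4 := by
    have := h.hx q q' (by simpa [Nr] using h1) (by simpa [Nr] using h2) h3 h4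
    rwa [← abs_neg, show -(x q - x q') = -x q - -x q' by ring] at this
  hy q q' h1 h2 h3 h4 := h.hy q q' (by simpa [Nr] using h1) (by simpa [Nr] using h2) h3
    (by rwa [← abs_neg, show -(x q - x q') = -x q - -x q' by ring])

lemma Par.step (h : Par x y μ β e H) (hμ : 0 < μ) (hβ : 24 * μ ≤ β) (he : e ≤ 1 / 100)
    (he' : 3 * μ ≤ e) {A B : ι} (h1 : |x A + 1 / 2| ≤ 1 / 10) (h2 : -(11 / 10) ≤ y A)
    (h3 : y A ≤ H - 1) (h4 : |x B - x A - 1| ≤ e) (h5 : β ≤ y B - y A) (h6 : y B - y A ≤ 1 - β) :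
    ∃ A', |y A' - y A - 1| ≤ 7 * μ ∧ |x B - x A' - 1| ≤ e := by
  rw [abs_le] at h1 h4
  have nA : Nr x y H A := ⟨abs_le.2 ⟨by linarith, by linarith⟩, by linarith, by linarith⟩
  have nB : Nr x y H B := ⟨abs_le.2 ⟨by linarith, by linarith⟩, by linarith, by linarith⟩
  obtain ⟨C, c1, c2⟩ := h.cov (x A + 1 / 4) (y A + 1 / 2 + 2 * μ)
    (abs_le.2 ⟨by linarith, by linarith⟩) (by linarith) (by linarith)
  rw [abs_le] at c1 c2
  have nC : Nr x y H C := ⟨abs_le.2 ⟨by linarith, by linarith⟩, by linarith, by linarith⟩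
  have a1 := h.hy C A nC nA (fun e => by rw [e] at c2; linarith)
    (abs_le.2 ⟨by linarith, by linarith⟩)
  rw [abs_of_nonneg (by linarith)] at a1
  have a2 := h.hx B C nB nC (fun e => by rw [← e] at c1; linarith)
    (abs_le.2 ⟨by linarith, by linarith⟩)
  rw [abs_of_nonneg (by linarith)] at a2
  refine ⟨C, abs_le.2 ⟨by linarith, by linarith⟩, abs_le.2 ⟨by linarith, ?_⟩⟩
  by_contra k
  obtain ⟨D, d1, d2⟩ := h.cov ((x C + x B) / 2) (y A + 1 / 2 + (y B - y A) / 2)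
    (abs_le.2 ⟨by linarith, by linarith⟩) (by linarith) (by linarith)
  rw [abs_le] at d1 d2
  have nD : Nr x y H D := ⟨abs_le.2 ⟨by linarith, by linarith⟩, by linarith, by linarith⟩
  have a3 := h.hx D C nD nC (fun e => by rw [e] at d1; linarith)
    (abs_le.2 ⟨by linarith, by linarith⟩)
  have a4 := h.hx B D nB nD (fun e => by rw [← e] at d1; linarith)
    (abs_le.2 ⟨by linarith, by linarith⟩)
  rw [abs_of_nonneg (by linarith)] at a3 a4
  linarith

lemma Par.step' (h : Par x y μ β e H) (hμ : 0 < μ) (hβ : 24 * μ ≤ β) (he : e ≤ 1 / 100)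
    (he' : 3 * μ ≤ e) {A B : ι} (h1 : |x B - 1 / 2| ≤ 1 / 10) (h2 : -(11 / 10) ≤ y B)
    (h3 : y B ≤ H - 1) (h4 : |x B - x A - 1| ≤ e) (h5 : β ≤ y A - y B) (h6 : y A - y B ≤ 1 - β) :
    ∃ B', |y B' - y B - 1| ≤ 7 * μ ∧ |x B' - x A - 1| ≤ e := by
  obtain ⟨C, c1, c2⟩ := h.neg.step hμ hβ he he' (A := B) (B := A)
    (by rwa [← abs_neg, show -(-x B + 1 / 2) = x B - 1 / 2 by ring]) h2 h3
    (by rwa [show -x A - -x B - 1 = x B - x A - 1 by ring]) h5 h6
  exact ⟨C, c1, by rwa [show -x A - -x C - 1 = x C - x A - 1 by ring] at c2⟩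

lemma Par.chain (h : Par x y μ β e H) (hμ : 0 < μ) (he' : 3 * μ ≤ e) {P Q : ι} (h1 : x P = -(1 / 2))
    (h2 : y P = 0) (h3 : |x Q - x P - 1| ≤ e) (h4 : 2 * β ≤ |y Q|) (h5 : |y Q| ≤ 1 - 2 * β)
    {N : ℕ} (hN : 24 * μ * (N + 1) ≤ β) (hN' : e * (N + 1) ≤ 1 / 100) (hH : (N : ℝ) + 1 ≤ H)
    {j : ℕ} (hj : j ≤ N) : ∃ A B, |y A - j| ≤ 7 * μ * j ∧ |y B - y Q - j| ≤ 7 * μ * j ∧
      |x A - x P| ≤ 2 * e * j ∧ |x B - x A - 1| ≤ e := by
  induction j with
  | zero => exact ⟨P, Q, by simp [h2], by simp, by simp, h3⟩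
  | succ j ih =>
    obtain ⟨A, B, a1, a2, a3, a4⟩ := ih (by omega)
    have hj' : (j : ℝ) + 1 ≤ N := by exact_mod_cast hj
    have hj0 : (0 : ℝ) ≤ j := by positivity
    have b1 : μ * (j + 1) ≤ μ * N := by gcongr
    have b2 : e * (j + 1) ≤ e * N := by gcongr; linarith
    have b3 : 0 ≤ μ * j := by positivity
    have b4 : 0 ≤ e * j := mul_nonneg (by linarith) hj0
    have a4' := abs_le.1 a4
    rw [abs_le] at a1 a2 a3
    push_cast
    rcases le_total 0 (y Q) with k | k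
    · rw [abs_of_nonneg k] at h4 h5
      obtain ⟨A', c1, c2⟩ := h.step hμ (by linarith) (by linarith) he' (A := A) (B := B)
        (abs_le.2 ⟨by linarith, by linarith⟩) (by linarith) (by linarith) a4 (by linarith)
        (by linarith)
      have c2' := abs_le.1 c2
      rw [abs_le] at c1
      obtain ⟨B', c3, c4⟩ := h.step' hμ (by linarith) (by linarith) he' (A := A') (B := B)
        (abs_le.2 ⟨by linarith, by linarith⟩) (by linarith) (by linarith) c2 (by linarith)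
        (by linarith)
      rw [abs_le] at c3
      exact ⟨A', B', abs_le.2 ⟨by linarith, by linarith⟩, abs_le.2 ⟨by linarith, by linarith⟩,
        abs_le.2 ⟨by linarith, by linarith⟩, c4⟩
    · rw [abs_of_nonpos k] at h4 h5
      obtain ⟨B', c1, c2⟩ := h.step' hμ (by linarith) (by linarith) he' (A := A) (B := B)
        (abs_le.2 ⟨by linarith, by linarith⟩) (by linarith) (by linarith) a4 (by linarith)
        (by linarith)
      have c2' := abs_le.1 c2
      rw [abs_le] at c1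
      obtain ⟨A', c3, c4⟩ := h.step hμ (by linarith) (by linarith) he' (A := A) (B := B')
        (abs_le.2 ⟨by linarith, by linarith⟩) (by linarith) (by linarith) c2 (by linarith)
        (by linarith)
      have c4' := abs_le.1 c4
      rw [abs_le] at c3
      exact ⟨A', B', abs_le.2 ⟨by linarith, by linarith⟩, abs_le.2 ⟨by linarith, by linarith⟩,
        abs_le.2 ⟨by linarith, by linarith⟩, c4⟩

lemma Par.fault (h : Par x y μ β e H) (hμ : 0 < μ) (he' : 3 * μ ≤ e) {P Q R : ι}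
    (h1 : x P = -(1 / 2)) (h2 : y P = 0) (h3 : 0 ≤ x Q) (h3' : x Q - x P - 1 ≤ e)
    (h4 : 2 * β ≤ |y Q|) (h5 : |y Q| ≤ 1 - 2 * β) {l : ℕ} (hl : 2 ≤ l)
    (hN : 24 * μ * (l + 3) ≤ β) (hN' : e * (l + 3) ≤ 1 / 100) (hH : (l : ℝ) + 3 ≤ H)
    (h6 : |x R - x P| ≤ 1 / 10) (h7 : |y R - l| ≤ 6 / 5) : |x R - x P| ≤ 2 * e * (l + 2) := by
  have hl' : (2 : ℝ) ≤ l := by exact_mod_cast hl
  have b1 : 0 ≤ μ * l := by positivity
  have b2 : 0 ≤ e * l := mul_nonneg (by linarith) (by linarith)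
  have b3 := abs_nonneg (y Q)
  have b4 := abs_le.1 h5
  have h8 : |x Q - x P - 1| ≤ e := by
    have := h.hx Q P ⟨abs_le.2 ⟨by linarith, by linarith⟩, by linarith, by linarith⟩
      ⟨by rw [h1]; norm_num [abs_of_pos], by linarith, by linarith⟩
      (fun e => by rw [e] at h3; linarith) (by rw [h2, sub_zero]; linarith)
    rw [abs_of_nonneg (by linarith)] at this
    exact abs_le.2 ⟨by linarith, h3'⟩
  rw [abs_le] at h7
  have h9 : (0 : ℝ) ≤ y R + 1 / 2 := by linarith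
  have c1 := Nat.floor_le h9
  have c2 := Nat.lt_floor_add_one (y R + 1 / 2)
  set j := ⌊y R + 1 / 2⌋₊
  have hj : (j : ℝ) ≤ l + 2 := by linarith
  have hj0 : (0 : ℝ) ≤ j := by positivity
  obtain ⟨A, -, a1, -, a3, -⟩ := h.chain hμ he' h1 h2 h8 h4 h5 (N := l + 2)
    (by push_cast; linarith) (by push_cast; linarith) (by push_cast; linarith) (j := j)
    (by exact_mod_cast hj)
  have c3 : μ * j ≤ μ * (l + 2) := by gcongr
  have c4 : e * j ≤ e * (l + 2) := by gcongr; linarith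
  by_cases k : R = A
  · rw [k]; linarith
  · rw [abs_le] at a1 a3 h6
    have := h.hx R A ⟨abs_le.2 ⟨by linarith, by linarith⟩, by linarith, by linarith⟩
      ⟨abs_le.2 ⟨by linarith, by linarith⟩, by linarith, by linarith⟩ k
      (abs_le.2 ⟨by linarith, by linarith⟩)
    have c5 : |x R - x A| ≤ 1 / 2 := abs_le.2 ⟨by linarith, by linarith⟩
    linarith

/-! ### from squares to coordinates -/

lemma loc_close {c ω ζ : ℂ} (hω : ‖ω‖ = 1) (p : ℂ) :
    ‖loc c ζ p - loc c ω p‖ = ‖loc c ω p‖ * ‖ω - ζ‖ := by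
  rw [norm_loc hω, loc, loc, ← mul_sub, norm_mul, ← map_sub, Complex.norm_conj, norm_sub_rev ζ]

lemma out_of_mem {c ω ζ p : ℂ} (hω : ‖ω‖ = 1) {μ : ℝ} (h : ‖ω - ζ‖ ≤ μ) (hp : p ∈ Sq c ω) :
    |(loc c ζ p).re| ≤ 1 / 2 + μ ∧ |(loc c ζ p).im| ≤ 1 / 2 + μ := by
  have h1 := loc_close (c := c) (ζ := ζ) hω p
  have h2 := norm_le_of_mem hω hp
  rw [← norm_loc hω] at h2
  have h3 : ‖loc c ζ p - loc c ω p‖ ≤ μ := by nlinarith [norm_nonneg (ω - ζ)]
  have h4 := abs_le.1 ((abs_re_le_norm _).trans h3)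
  have h5 := abs_le.1 ((abs_im_le_norm _).trans h3)
  have h6 := abs_le.1 hp.1
  have h7 := abs_le.1 hp.2
  rw [sub_re] at h4
  rw [sub_im] at h5
  exact ⟨abs_le.2 ⟨by linarith, by linarith⟩, abs_le.2 ⟨by linarith, by linarith⟩⟩

lemma mem_of_in {c ω ζ p : ℂ} (hζ : ‖ζ‖ = 1) {μ : ℝ} (h : ‖ω - ζ‖ ≤ μ)
    (h1 : |(loc c ζ p).re| ≤ 1 / 2 - μ) (h2 : |(loc c ζ p).im| ≤ 1 / 2 - μ) : p ∈ Sq c ω := by
  have h0 := norm_nonneg (ω - ζ)
  have h3 := loc_close (c := c) (ζ := ω) hζ p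
  have h4 := norm_le_of_mem hζ (p := p) (c := c) ⟨by linarith, by linarith⟩
  rw [← norm_loc hζ] at h4
  rw [norm_sub_rev ζ] at h3
  have h5 : ‖loc c ω p - loc c ζ p‖ ≤ μ := by nlinarith
  have h6 := abs_le.1 ((abs_re_le_norm _).trans h5)
  have h7 := abs_le.1 ((abs_im_le_norm _).trans h5)
  rw [abs_le] at h1 h2
  rw [sub_re] at h6
  rw [sub_im] at h7
  exact ⟨abs_le.2 ⟨by linarith, by linarith⟩, abs_le.2 ⟨by linarith, by linarith⟩⟩

lemma loc_sub (O c ζ p : ℂ) : loc c ζ p = loc O ζ p - loc O ζ c := by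
  unfold loc; ring

lemma inter_ge {O c c' ω ω' ζ : ℂ} (hζ : ‖ζ‖ = 1) {μ a : ℝ} (h : ‖ω - ζ‖ ≤ μ) (h' : ‖ω' - ζ‖ ≤ μ)
    (ha : 0 ≤ a) (hv : volume (Sq c ω ∩ Sq c' ω') ≤ ENNReal.ofReal a)
    (hx : 0 ≤ 1 - 2 * μ - |(loc O ζ c).re - (loc O ζ c').re|) :
    (1 - 2 * μ - |(loc O ζ c).re - (loc O ζ c').re|) *
      (1 - 2 * μ - |(loc O ζ c).im - (loc O ζ c').im|) ≤ a := by
  have e : ∀ a b : ℝ, 1 - 2 * μ - |a - b| = min a b + (1 / 2 - μ) - (max a b - (1 / 2 - μ)) :=
    fun a b => by rw [← max_sub_min_eq_abs']; ring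
  rw [e] at hx
  rw [e, e]
  refine box_le hζ O (by linarith) ha (fun s t hs ht => ?_) hv
  have a1 := le_max_left (loc O ζ c).re (loc O ζ c').re
  have a2 := le_max_right (loc O ζ c).re (loc O ζ c').re
  have a3 := min_le_left (loc O ζ c).re (loc O ζ c').re
  have a4 := min_le_right (loc O ζ c).re (loc O ζ c').re
  have a5 := le_max_left (loc O ζ c).im (loc O ζ c').im
  have a6 := le_max_right (loc O ζ c).im (loc O ζ c').im
  have a7 := min_le_left (loc O ζ c).im (loc O ζ c').im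
  have a8 := min_le_right (loc O ζ c).im (loc O ζ c').im
  obtain ⟨s1, s2⟩ := hs
  obtain ⟨t1, t2⟩ := ht
  constructor
  · refine mem_of_in hζ h ?_ ?_ <;> rw [loc_sub O, loc_add hζ] <;>
      simp only [sub_re, sub_im] <;> exact abs_le.2 ⟨by linarith, by linarith⟩
  · refine mem_of_in hζ h' ?_ ?_ <;> rw [loc_sub O, loc_add hζ] <;>
      simp only [sub_re, sub_im] <;> exact abs_le.2 ⟨by linarith, by linarith⟩

variable [Fintype ι] [DecidableEq ι] {c ω : ι → ℂ}

lemma par_of_tube (hω : ∀ k, ‖ω k‖ = 1) (hn : ∀ k, |(ω k).im| ≤ (ω k).re) {l : ℕ} {i : ι}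
    (h1 : ‖ω i - 1‖ * (l + 5) ≤ 1 / 200) (hμ : bt c ω i + tb c ω (l + 5) i ≤ 100 * μ)
    (hμ0 : 0 < μ) (hμ1 : μ ≤ 1 / 1000) (hβ : β ≤ 1) (he : 6 * μ ≤ e * β) (hβ0 : 0 < β)
    (hc : ∀ m < l + 5, ∀ p, ‖p - (c i + I * m)‖ ≤ 4 → Cov c ω p) :
    Par (fun q => (loc (c i + ω i * ⟨1 / 2, 0⟩) (ω i) (c q)).re)
      (fun q => (loc (c i + ω i * ⟨1 / 2, 0⟩) (ω i) (c q)).im) μ β e (l + 3) := by
  set O := c i + ω i * ⟨1 / 2, 0⟩ with hO
  have hl : (0 : ℝ) ≤ l := by positivity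
  have h0 := norm_nonneg (ω i - 1)
  have near : ∀ p : ℂ, |(loc O (ω i) p).re| ≤ 5 / 4 → -(27 / 20) ≤ (loc O (ω i) p).im →
      (loc O (ω i) p).im ≤ l + 4 → ∃ m < l + 5, ‖p - (c i + I * m)‖ ≤ 9 / 4 := by
    intro p k1 k2 k3
    set z := loc O (ω i) p with hz
    obtain ⟨m, hm, hm'⟩ : ∃ m : ℕ, m < l + 5 ∧ |z.im - m| ≤ 27 / 20 := by
      rcases le_total z.im 0 with k | k
      · exact ⟨0, by omega, abs_le.2 ⟨by simpa using k2, by simp; linarith⟩⟩
      · have c1 := Nat.floor_le k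
        have c2 := Nat.lt_floor_add_one z.im
        exact ⟨⌊z.im⌋₊, by
          have : (⌊z.im⌋₊ : ℝ) < l + 5 := by linarith
          exact_mod_cast this, abs_le.2 ⟨by linarith, by linarith⟩⟩
    refine ⟨m, hm, ?_⟩
    have e : p - (c i + I * m) = ω i * ⟨z.re + 1 / 2, z.im - m⟩ + (ω i - 1) * (I * m) := by
      have : (⟨z.re + 1 / 2, z.im - m⟩ : ℂ) = z + ⟨1 / 2, 0⟩ - I * m := by
        apply Complex.ext <;> simp
      rw [this]
      linear_combination eq_loc (hω i) O p + hO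
    have hm2 : (m : ℝ) ≤ l + 5 := by exact_mod_cast hm.le
    rw [abs_le] at k1 hm'
    have n1 : ‖ω i * ⟨z.re + 1 / 2, z.im - m⟩‖ ≤ 222 / 100 := by
      rw [norm_mul, hω, one_mul]
      exact norm_mk_le (by norm_num) (by nlinarith)
    have n2 : ‖(ω i - 1) * (I * m)‖ ≤ 1 / 200 := by
      rw [norm_mul, norm_mul, norm_I, one_mul, norm_natCast]
      nlinarith
    rw [e]
    linarith [norm_add_le (ω i * ⟨z.re + 1 / 2, z.im - m⟩) ((ω i - 1) * (I * m))]
  have hb := bt_nonneg (c := c) (ω := ω) i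
  have al : ∀ q, |(loc O (ω i) (c q)).re| ≤ 5 / 4 → -(27 / 20) ≤ (loc O (ω i) (c q)).im →
      (loc O (ω i) (c q)).im ≤ l + 4 → ‖ω q - ω i‖ ≤ μ ∧ ov c ω q ≤ μ := fun q k1 k2 k3 => by
    obtain ⟨m, hm, hq⟩ := near _ k1 k2 k3
    obtain ⟨a1, a2⟩ := tube_align hω hn (by nlinarith) (by linarith) hc hm hq
    exact ⟨by linarith, by linarith⟩
  have pr : ∀ q q', Nr (fun q => (loc O (ω i) (c q)).re) (fun q => (loc O (ω i) (c q)).im)
      (l + 3) q → Nr (fun q => (loc O (ω i) (c q)).re) (fun q => (loc O (ω i) (c q)).im)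
      (l + 3) q' → q ≠ q' → 0 ≤ 1 - 2 * μ - |(loc O (ω i) (c q)).re - (loc O (ω i) (c q')).re| →
      (1 - 2 * μ - |(loc O (ω i) (c q)).re - (loc O (ω i) (c q')).re|) *
        (1 - 2 * μ - |(loc O (ω i) (c q)).im - (loc O (ω i) (c q')).im|) ≤ μ := by
    intro q q' ⟨k1, k2, k3⟩ ⟨k4, k5, k6⟩ k7 k8
    obtain ⟨a1, a2⟩ := al q (by linarith) (by linarith) (by linarith)
    obtain ⟨a3, -⟩ := al q' (by linarith) (by linarith) (by linarith)
    exact inter_ge (hω i) a1 a3 hμ0.le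
      ((inter_le hω k7.symm).trans (ENNReal.ofReal_le_ofReal a2)) k8
  refine ⟨fun a b k1 k2 k3 => ?_, fun q q' k1 k2 k3 k4 => ?_, fun q q' k1 k2 k3 k4 => ?_⟩
  · have e : loc O (ω i) (O + ω i * ⟨a, b⟩) = ⟨a, b⟩ := loc_add (hω i) _ _
    obtain ⟨m, hm, a1⟩ := near (O + ω i * ⟨a, b⟩) (by rw [e]; linarith) (by rw [e]; linarith)
      (by rw [e]; linarith)
    obtain ⟨q, hq⟩ := hc m hm _ (a1.trans (by norm_num))
    have a2 := norm_le_of_mem (hω q) hq
    rw [← norm_loc (hω i), loc_sub O, e] at a2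
    have a3 := abs_le.1 ((abs_re_le_norm _).trans a2)
    have a4 := abs_le.1 ((abs_im_le_norm _).trans a2)
    rw [abs_le] at k1
    simp only [sub_re, sub_im] at a3 a4
    have a5 := out_of_mem (hω q) (al q (abs_le.2 ⟨by linarith, by linarith⟩) (by linarith)
      (by linarith)).1 hq
    rw [loc_sub O, e] at a5
    exact ⟨q, a5⟩
  · by_contra k
    have := pr q q' k1 k2 k3 (by nlinarith)
    have a1 : (e - 2 * μ) * (β / 4) < _ := mul_lt_mul (by linarith : e - 2 * μ <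
      1 - 2 * μ - |(loc O (ω i) (c q)).re - (loc O (ω i) (c q')).re| - 0) (by linarith : β / 4 ≤
      1 - 2 * μ - |(loc O (ω i) (c q)).im - (loc O (ω i) (c q')).im|) (by linarith) (by nlinarith)
    nlinarith
  · by_contra k
    have := pr q q' k1 k2 k3 (by linarith)
    nlinarith

end Pool.Agent.MP_c59ecb_co.h76

end MrgPart8

-- marker of a merged file
example : 731051 + 172219 = 731051 + 172219 := rfl
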