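import Mathlib.Tactic.Monotonicity.Lemmas
import Mathlib.Analysis.SpecialFunctions.Pow.NthRootLemmas
import Pool.Agent.MP_c59ecb_co.h76.Fault

-- ======== part 0: formerly Pool.Agent.MP_c59ecb_co.h76.Pair
section MrgPart0

/-! Pairs of rays, the fault alternative and the transversal rays. -/

set_option autoImplicit false

namespace Pool.Agent.MP_c59ecb_co.h76

open MeasureTheory Complex Set
open scoped ComplexConjugate ENNReal

variable {ι : Type} [Fintype ι] [DecidableEq ι] {c ω : ι → ℂ} {f : ι → ℝ}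

lemma mem_rot {c ω p : ℂ} : I * p ∈ Sq (I * c) ω ↔ p ∈ Sq c ω := by
  have h : loc (I * c) ω (I * p) = I * loc c ω p := by unfold loc; ring
  simp only [Sq, mem_ofPred_eq, h, mul_re, mul_im, I_re, I_im, zero_mul, one_mul, zero_sub,
    zero_add, abs_neg, and_comm]

lemma ov_rot (k : ι) : ov (fun i => I * c i) ω k = ov c ω k := by
  let u : Circle := ⟨I, by simp [Submonoid.unitSphere]⟩
  have h1 : Dbl c ω k = rotation u ⁻¹' Dbl (fun i => I * c i) ω k := by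
    ext p
    have : rotation u p = I * p := rfl
    simp only [mem_preimage, this, mem_Dbl, mem_rot]
  rw [ov, ov, h1, (rotation u).measurePreserving.measure_preimage
    (measurableSet_Dbl _ ω k).nullMeasurableSet]

omit [Fintype ι] [DecidableEq ι] in
lemma ex_rot (i : ι) (v V : ℝ) : ex (fun i => I * c i) ω i v =
    I * (ex c ω i V + ω i * ⟨v - 1 / 2, -(V + 1 / 2)⟩) := by
  have e : (⟨1 / 2, v⟩ : ℂ) = I * (⟨1 / 2, V⟩ + ⟨v - 1 / 2, -(V + 1 / 2)⟩) := by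
    apply Complex.ext <;> simp
  simp only [ex]
  rw [e]
  ring

lemma mk_le_one {s t : ℝ} (hs : |s| ≤ 1 / 2) (ht : |t| ≤ 1 / 2) : ‖(⟨s, t⟩ : ℂ)‖ ≤ 1 :=
  norm_mk_le zero_le_one (by nlinarith [abs_le.1 hs, abs_le.1 ht])

/-- the extra cost that controls the tube above a square -/
noncomputable abbrev ft (c ω : ι → ℂ) (l : ℕ) (i : ι) : ℝ := tb c ω (l + 5) i / l

lemma ft_nonneg (l : ℕ) (i : ι) : 0 ≤ ft c ω l i := div_nonneg (tb_nonneg _ i) (by positivity)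

lemma tb_le_ft {l : ℕ} (hl : 1 ≤ l) (i : ι) : tb c ω (l + 5) i ≤ l * ft c ω l i := by
  have : (0 : ℝ) < l := by exact_mod_cast hl
  rw [ft, mul_div_cancel₀ _ this.ne']

variable (hω : ∀ k, ‖ω k‖ = 1) (hn : ∀ k, |(ω k).im| ≤ (ω k).re)
include hω hn

theorem two_rays {l T : ℕ} (hl : 1 ≤ l) {St : Finset ι} {G P p₀ v : ℝ} {i i' : ι}
    (hP : p₀ + 2 * G ≤ P) (hG0 : 0 ≤ G) (hp : ‖ω i - 1‖ ≤ p₀) (hp' : ‖ω i' - 1‖ ≤ p₀)
    (hP' : P ≤ 1 / 200) (hG : (l + 4) * (2 * G) ≤ 1 / 100) (hv : |v| ≤ 1 / 2)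
    (h0 : ‖ex c ω i' v - ex c ω i v - I * l‖ ≤ 11 / 10)
    (hc : ∀ p : ℂ, (ex c ω i v).re - 6 ≤ p.re → p.re ≤ (ex c ω i v).re + T + 6 →
      |p.im - (ex c ω i v).im| ≤ P * T + l + 10 → Cov c ω p)
    (hS : ∀ i₀, i₀ = i ∨ i₀ = i' → ∀ j ∈ St, ∀ (s : ℕ) (z : ℂ),
      (s : ℝ) / 2 ≤ (z - ex c ω i₀ v).re → |(z - ex c ω i₀ v).im| ≤ P * s →
      z ∈ Sq (c j) (ω j) → (loc (c j) (ω j) z).re ≤ -(1 / 4) → s = 0 ∧ j = i₀)
    (hF : FF c ω (ft c ω l) St T i v ≤ ENNReal.ofReal G)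
    (hF' : FF c ω (ft c ω l) St T i' v ≤ ENNReal.ofReal G) :
    ∃ (J J' : ℕ → ι) (V d g V' d' g' : ℕ → ℝ), J 0 = i ∧ V 0 = v ∧ J' 0 = i' ∧ V' 0 = v ∧
      Ray c ω (ft c ω l) T (2 * G) J V d g ∧ Ray c ω (ft c ω l) T (2 * G) J' V' d' g' ∧
      (∀ k ≤ T, ‖ω (J k) - 1‖ ≤ P) ∧ (∀ k ≤ T, ‖ω (J' k) - 1‖ ≤ P) ∧
      (∀ k ≤ T, ∀ m < l + 5, ∀ p, ‖p - (c (J k) + I * m)‖ ≤ 4 → Cov c ω p) ∧
      ∀ k < T, ‖ex c ω (J' k) (V' k) - ex c ω (J k) (V k) - (ex c ω i' v - ex c ω i v)‖ ≤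
        (l + 2) * (2 * G) ∧ |(ex c ω (J' k) (V' k) - ex c ω (J k) (V k)).re -
        (ex c ω i' v - ex c ω i v).re| ≤ (P * l + 2) * (2 * G) := by
  have hl0 : (0 : ℝ) ≤ l := by positivity
  have hp0 := (norm_nonneg _).trans hp
  have a1 := abs_le.1 ((abs_re_le_norm _).trans h0)
  have a2 := abs_le.1 ((abs_im_le_norm _).trans h0)
  simp only [sub_re, sub_im, mul_re, mul_im, I_re, I_im, natCast_re, natCast_im, zero_mul,
    mul_zero, one_mul, sub_zero, zero_add] at a1 a2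
  obtain ⟨J, V, d, g, e1, e2, h⟩ := exists_ray hω hn (ft_nonneg l) hP hG0 hp hP' hv
    (fun p k1 k2 k3 => hc p (by linarith) (by linarith) (by linarith)) (hS i (Or.inl rfl)) hF
  obtain ⟨J', V', d', g', e3, e4, h'⟩ := exists_ray hω hn (ft_nonneg l) hP hG0 hp' hP' hv
    (fun p k1 k2 k3 => hc p (by linarith) (by linarith) (by
      rw [abs_le] at k3 ⊢
      exact ⟨by linarith, by linarith⟩)) (hS i' (Or.inr rfl)) hF'
  have t1 : ∀ k ≤ T, ‖ω (J k) - 1‖ ≤ P := fun k hk => (h.tilt (e1 ▸ hp) hk).trans hP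
  have t2 : ∀ k ≤ T, ‖ω (J' k) - 1‖ ≤ P := fun k hk => (h'.tilt (e3 ▸ hp') hk).trans hP
  have t3 : ∀ k ≤ T, ∀ m < l + 5, ∀ p, ‖p - (c (J k) + I * m)‖ ≤ 4 → Cov c ω p := by
    intro k hk m hm p hp
    obtain ⟨b1, b2, b3⟩ := h.geo hω t1 (by linarith) hP' (Nat.zero_le k) hk
    have b4 := norm_le_of_mem (hω _) (ex_mem (c := c) (i := J k) hω (h.v k hk))
    have b5 := abs_le.1 ((abs_re_le_norm _).trans b4)
    have b6 := abs_le.1 ((abs_im_le_norm _).trans b4)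
    have b7 := abs_le.1 ((abs_re_le_norm _).trans hp)
    have b8 := abs_le.1 ((abs_im_le_norm _).trans hp)
    have b9 : (m : ℝ) ≤ l + 5 := by exact_mod_cast hm.le
    have b10 : (k : ℝ) ≤ T := by exact_mod_cast hk
    have b11 : (0 : ℝ) ≤ k := by positivity
    have b12 : (0 : ℝ) ≤ m := by positivity
    have b13 : P * k ≤ P * T := by gcongr; linarith
    have b14 : 0 ≤ (k : ℝ) * (1 - 2 * P) := mul_nonneg b11 (by linarith)
    rw [e1, e2, Nat.cast_zero, sub_zero] at b1 b2 b3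
    rw [abs_le] at b3
    simp only [sub_re, sub_im, add_re, add_im, mul_re, mul_im, I_re, I_im, natCast_re, natCast_im,
      zero_mul, mul_zero, one_mul, sub_zero, zero_add, add_zero] at b5 b6 b7 b8
    exact hc p (by linarith) (by linarith) (abs_le.2 ⟨by linarith, by linarith⟩)
  refine ⟨J, J', V, d, g, V', d', g', e1, e2, e3, e4, h, h', t1, t2, t3, fun k hk => ?_⟩
  have := h.pair hω hn h' hl (M := l + 5) (by omega) (tb_le_ft hl) t1 t2 hP' hG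
    (fun k hk => t3 k hk.le) (by rw [e1, e2, e3, e4]; exact h0) hk
  rwa [e1, e2, e3, e4] at this

/-- a fault line is not compatible with the position of the second ray -/
theorem fault_case {t l m : ℕ} {θ : ℝ} {J : ℕ → ι} {V d g : ℕ → ℝ}
    (h : Ray c ω (ft c ω l) t θ J V d g) (hl : 10 ≤ l) (hm : m < t) {R : ι} {V' : ℝ}
    (hV' : |V'| ≤ 1 / 2) (hθ : θ * (l + 5) ≤ 1 / 200) (ht : ‖ω (J m) - 1‖ ≤ θ)
    (hR : ‖ω R - 1‖ ≤ θ) (hD1 : ‖ex c ω R V' - ex c ω (J m) (V m) - I * l‖ ≤ (l + 2) * θ)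
    (hD2 : |(ex c ω R V' - ex c ω (J m) (V m)).re| ≤ 3 * θ)
    (hc : ∀ j < l + 5, ∀ p, ‖p - (c (J m) + I * j)‖ ≤ 4 → Cov c ω p) {σ γ : ℝ} (h1 : g m ≤ γ)
    (h2 : σ - γ ≤ |(ω (J m)).im|) (h3 : 4 * l * γ < σ ^ 2) (h4 : σ ≤ θ) (h5 : 42 * θ < l * σ)
    (h6 : σ / 2 ≤ |V (m + 1) - V m|) (h7 : |V (m + 1) - V m| ≤ 1 - σ / 2) : False := by
  have hl' : (10 : ℝ) ≤ l := by exact_mod_cast hl
  have hθ0 : 0 ≤ θ := (norm_nonneg _).trans ht
  have hσ : 0 < σ := by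
    by_contra k
    nlinarith
  have hg := h.g0 m
  have a1 : σ * (l + 5) ≤ 1 / 200 := le_trans (by gcongr) hθ
  have a1' : σ ≤ 1 / 3000 := by nlinarith
  have a2 : 40 * γ ≤ σ ^ 2 := by nlinarith
  have a3 : γ ≤ σ / 1000 := by nlinarith
  have a5 : θ ≤ 1 / 3000 := by nlinarith
  have a6 : θ ^ 2 ≤ θ := by nlinarith
  have a7 : σ ^ 2 ≤ σ / 3000 := by nlinarith
  have a8 : σ ^ 2 * (l + 5) ≤ σ / 200 := by nlinarith
  have a9 : 10 * σ ≤ l * σ := by gcongr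
  have a10 : 10 * θ ≤ l * θ := by gcongr
  have a4 : bt c ω (J m) + tb c ω (l + 5) (J m) ≤ 100 * (σ ^ 2 / 400) := by
    have := h.ext m hm
    have := bt_nonneg (c := c) (ω := ω) (J m)
    have := tb_le_ft (c := c) (ω := ω) (l := l) (by omega) (J m)
    nlinarith
  have hP := par_of_tube hω hn (l := l) (i := J m) (μ := σ ^ 2 / 400) (β := σ / 6)
    (e := 9 * σ / 100) (le_trans (by gcongr) hθ) a4 (by positivity) (by linarith) (by linarith)
    (by linarith) (by positivity) hc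
  set u := ω (J m) with hu
  set O := c (J m) + u * ⟨1 / 2, 0⟩ with hO
  have hu1 : u * conj u = 1 := mul_conj_unit (hω _)
  have lc : ∀ (q : ι) (W : ℝ), loc O u (c q) = (ex c ω q W - ex c ω (J m) (V m)) * conj u +
      ⟨-(1 / 2), V m - W⟩ - (ω q * conj u - 1) * ⟨1 / 2, W⟩ := by
    intro q W
    have e : (⟨-(1 / 2), V m - W⟩ : ℂ) = ⟨1 / 2, V m⟩ - ⟨1 / 2, 0⟩ - ⟨1 / 2, W⟩ := by
      apply Complex.ext <;> simp
    simp only [loc, ex, hO, ← hu]
    rw [e]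
    linear_combination ((⟨1 / 2, V m⟩ : ℂ) - ⟨1 / 2, 0⟩) * hu1
  have nb : ∀ (q : ι) (W x : ℝ), |W| ≤ 1 / 2 → ‖ω q - u‖ ≤ x →
      ‖(ω q * conj u - 1) * ⟨1 / 2, W⟩‖ ≤ x := by
    intro q W x k1 k2
    rw [norm_mul, norm_rel (hω _)]
    exact (mul_le_of_le_one_right (norm_nonneg _) (mk_le_one (by norm_num [abs_of_pos]) k1)).trans k2
  have eP : loc O u (c (J m)) = ⟨-(1 / 2), 0⟩ := by
    rw [lc (J m) (V m), ← hu, hu1]
    simp
  have v1 := abs_le.1 (h.v m hm.le)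
  have v2 := abs_le.1 (h.v (m + 1) hm)
  obtain ⟨d1, d2⟩ := h.d0 m hm
  have eQ : loc O u (c (J (m + 1))) = ⟨1 / 2 - d m, V m - V (m + 1)⟩ +
      (ω (J (m + 1)) * conj u - 1) * ⟨1 / 2 - d m, -V (m + 1)⟩ := by
    have e : (⟨1 / 2 - d m, -V (m + 1)⟩ : ℂ) = ((1 - d m : ℝ) : ℂ) - ⟨1 / 2, V (m + 1)⟩ := by
      apply Complex.ext <;> simp
      ring
    have e' : (⟨1 / 2 - d m, V m - V (m + 1)⟩ : ℂ) =
        ((1 - d m : ℝ) : ℂ) + ⟨-(1 / 2), V m - V (m + 1)⟩ := by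
      apply Complex.ext <;> simp
      ring
    rw [lc (J (m + 1)) (V (m + 1)), h.nxt m hm, e, e']
    ring
  have nQ : ‖(ω (J (m + 1)) * conj u - 1) * ⟨1 / 2 - d m, -V (m + 1)⟩‖ ≤ γ := by
    rw [norm_mul, norm_rel (hω _)]
    exact (mul_le_of_le_one_right (norm_nonneg _) (mk_le_one (abs_le.2 ⟨by linarith, by linarith⟩)
      (abs_le.2 ⟨by linarith, by linarith⟩))).trans ((h.ang m hm).trans h1)
  have q1 := abs_le.1 ((abs_re_le_norm _).trans nQ)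
  have q2 := (abs_im_le_norm _).trans nQ
  have nR := nb R V' (2 * θ) hV' (by
    have := norm_sub_le_norm_sub_add_norm_sub (ω R) 1 u
    rw [norm_sub_rev 1] at this
    linarith)
  have r1 := abs_le.1 ((abs_re_le_norm _).trans nR)
  have r2 := abs_le.1 ((abs_im_le_norm _).trans nR)
  set D := ex c ω R V' - ex c ω (J m) (V m) with hD
  have r3 := abs_le.1 ((abs_im_le_norm _).trans hD1)
  simp only [sub_im, mul_im, I_re, I_im, natCast_re, natCast_im, zero_mul, one_mul,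
    zero_add] at r3
  have s1 : |u.im| ≤ θ := by simpa using (abs_im_le_norm _).trans ht
  have s2 := re_ge_of_unit (hω _) ht
  have s3 := re_le_of_unit (hω (J m))
  rw [← hu] at s3
  have s4 : |D.re * u.re| ≤ 3 * θ * 1 := by
    rw [abs_mul]
    exact mul_le_mul hD2 (abs_le.2 ⟨by linarith, s3⟩) (abs_nonneg _) (by linarith)
  have s5 : |D.re * u.im| ≤ 3 * θ * θ := by
    rw [abs_mul]
    exact mul_le_mul hD2 s1 (abs_nonneg _) (by linarith)
  have s6 : |D.im * u.im| = D.im * |u.im| := by rw [abs_mul, abs_of_nonneg (by linarith)]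
  have s7 : D.im * |u.im| ≤ (l + 1) * θ := mul_le_mul (by linarith) s1 (abs_nonneg _) (by linarith)
  have s8 : (l - 1 / 100) * (σ - σ / 1000) ≤ D.im * |u.im| :=
    mul_le_mul (by linarith) (by linarith) (by linarith) (by linarith)
  have s9 : D.im * u.re ≤ (l + 1 / 100) * 1 :=
    mul_le_mul (by linarith) s3 (by linarith) (by linarith)
  have s10 : (l - 1 / 200) * (1 - θ) ≤ D.im * u.re :=
    mul_le_mul (by linarith) (by linarith) (by linarith) (by linarith)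
  have xR : (loc O u (c R)).re - (loc O u (c (J m))).re = D.re * u.re + D.im * u.im -
      ((ω R * conj u - 1) * ⟨1 / 2, V'⟩).re := by
    rw [eP, lc R V', ← hD]
    simp only [sub_re, add_re, mul_re D, conj_re, conj_im]
    ring
  have yR : (loc O u (c R)).im = -(D.re * u.im) + D.im * u.re + (V m - V') -
      ((ω R * conj u - 1) * ⟨1 / 2, V'⟩).im := by
    rw [lc R V', ← hD]
    simp only [sub_im, add_im, mul_im D, conj_re, conj_im]
    ring
  have yQ : |(loc O u (c (J (m + 1)))).im - (V m - V (m + 1))| ≤ γ := by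
    rw [eQ, add_im, add_sub_cancel_left]
    exact q2
  have y1 := abs_sub_abs_le_abs_sub (loc O u (c (J (m + 1)))).im (V m - V (m + 1))
  have y2 := abs_sub_abs_le_abs_sub (V m - V (m + 1)) (loc O u (c (J (m + 1)))).im
  rw [abs_sub_comm (V m - V (m + 1))] at y2
  rw [abs_sub_comm] at h6 h7
  have s11 := abs_le.1 s4
  have s12 := abs_le.1 s5
  have s13 := abs_le.1 hV'
  have s14 := le_abs_self (D.im * u.im)
  have s15 := neg_abs_le (D.im * u.im)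
  have key := hP.fault (P := J m) (Q := J (m + 1)) (R := R) (l := l) (by positivity) (by linarith)
    (by simp only [eP]) (by simp only [eP]) (by simp only [eQ, add_re]; linarith)
    (by simp only [eQ, eP, add_re]; linarith) (by linarith) (by linarith) (by omega)
    (by linarith) (by linarith) le_rfl
    (by rw [xR]; exact abs_le.2 ⟨by linarith, by linarith⟩)
    (by rw [yR]; exact abs_le.2 ⟨by linarith, by linarith⟩)
  rw [xR] at key
  have k1 := abs_le.1 key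
  have k2 : |D.im * u.im| ≤ 2 * (9 * σ / 100) * (l + 2) + 5 * θ :=
    abs_le.2 ⟨by linarith, by linarith⟩
  linarith

end Pool.Agent.MP_c59ecb_co.h76

end MrgPart0

-- ======== part 1: formerly Pool.Agent.MP_c59ecb_co.h76.Sec
section MrgPart1

/-! The transversal rays and the bound for the tilt of a square on the first ray. -/

set_option autoImplicit false

namespace Pool.Agent.MP_c59ecb_co.h76

open MeasureTheory Complex Set
open scoped ComplexConjugate ENNReal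

variable {ι : Type} [Fintype ι] [DecidableEq ι] {c ω : ι → ℂ} {f : ι → ℝ}
  {t : ℕ} {θ : ℝ} {J : ℕ → ι} {V d g : ℕ → ℝ}

omit [Fintype ι] [DecidableEq ι] in
lemma c_eq (i : ι) (V : ℝ) : c i = ex c ω i V - ω i * ⟨1 / 2, V⟩ := by rw [ex]; ring

lemma unit_bd {u : ℂ} (hu : ‖u‖ = 1) (h : ‖u - 1‖ ≤ θ) (hθ : θ ≤ 1) :
    1 - θ ^ 2 / 2 ≤ u.re ∧ 1 - θ ≤ u.re ∧ u.re ≤ 1 ∧ -θ ≤ u.im ∧ u.im ≤ θ := by
  have h1 := re_ge_of_unit hu h
  have h2 : |u.im| ≤ θ := by simpa using (abs_im_le_norm _).trans h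
  have h3 := (norm_nonneg _).trans h
  exact ⟨h1, by nlinarith, re_le_of_unit hu, (abs_le.1 h2).1, (abs_le.1 h2).2⟩

lemma mul_close {u w : ℂ} (h : ‖u - 1‖ ≤ θ) {r : ℝ} (hw : ‖w‖ ≤ r) :
    |(u * w).re - w.re| ≤ θ * r ∧ |(u * w).im - w.im| ≤ θ * r := by
  have h1 : ‖u * w - w‖ ≤ θ * r := by
    rw [show u * w - w = (u - 1) * w by ring, norm_mul]
    exact mul_le_mul h hw (norm_nonneg _) ((norm_nonneg _).trans h)
  exact ⟨(abs_re_le_norm _).trans h1, (abs_im_le_norm _).trans h1⟩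

lemma ends (hω : ∀ k, ‖ω k‖ = 1) (h : Ray c ω f t θ J V d g) (hf : ∀ i, 0 ≤ f i) (hθ : θ < 1)
    {k : ℕ} (hk : k < t) {q : ι} {p : ℂ} (hp : ‖p - c (J k)‖ ≤ 1 / 5)
    (hq : p ∈ Sq (c q) (ω q)) : q = J k := by
  by_contra hne
  have h1 := deep (hω (J k)) (hω q) hq hp (ov_nonneg c ω (J k)) (inter_le hω hne)
  have h2 := bb_le_of_beta (c := c) (ω := ω) (τ := 1 / 100) (i := J k) (by norm_num)
    (by linarith [h.ext k hk, h.le hk, hf (J k)])
  linarith [ov_le_bb_self (c := c) (ω := ω) (J k)]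

variable (hω : ∀ k, ‖ω k‖ = 1) (h : Ray c ω f t θ J V d g) (ht : ∀ k ≤ t, ‖ω (J k) - 1‖ ≤ θ)
  (hθ : θ ≤ 1 / 1000)
include hω h ht hθ

lemma centres {m k : ℕ} (h1 : m ≤ k) (h2 : k ≤ t) :
    ((k : ℝ) - m) * (1 - 2 * θ) - 2 * θ ≤ (c (J k)).re - (c (J m)).re ∧
    |(c (J k)).im - (c (J m)).im| ≤ θ * (k - m) + 1 + 2 * θ := by
  obtain ⟨a1, -, a3⟩ := h.geo hω ht le_rfl (by linarith) h1 h2
  have b : ∀ j ≤ t, _ := fun j hj => mul_close (ht j hj)
    (mk_le_one (s := 1 / 2) (by norm_num [abs_of_pos]) (h.v j hj))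
  obtain ⟨b1, b2⟩ := b k h2
  obtain ⟨b3, b4⟩ := b m (h1.trans h2)
  have v1 := abs_le.1 (h.v k h2)
  have v2 := abs_le.1 (h.v m (h1.trans h2))
  rw [c_eq (c := c) (ω := ω) (J k) (V k), c_eq (c := c) (ω := ω) (J m) (V m)]
  simp only [abs_le, sub_re, sub_im] at *
  exact ⟨by linarith, by linarith, by linarith⟩

lemma ray_inj {m k : ℕ} (h1 : m ≤ t) (h2 : k ≤ t) (e : J m = J k) : m = k := by
  wlog hl : m ≤ k generalizing m k
  · exact (this h2 h1 e.symm (by omega)).symm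
  have h3 := (centres hω h ht hθ hl h2).1
  rw [e, sub_self] at h3
  by_contra hne
  have h4 : (m : ℝ) + 1 ≤ k := by exact_mod_cast (show m + 1 ≤ k by omega)
  nlinarith

/-- a transversal ray does not meet the start of another one -/
lemma no_meet {k m s : ℕ} (hk : k ≤ t) (hm : m ≤ t) {v P : ℝ} (hv : |v| ≤ 1 / 4)
    (hP : P ≤ 1 / 200) {z : ℂ} (h1 : (s : ℝ) / 2 ≤ (z - ex (fun i => I * c i) ω (J k) v).re)
    (h2 : |(z - ex (fun i => I * c i) ω (J k) v).im| ≤ P * s)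
    (h3 : z ∈ Sq (I * c (J m)) (ω (J m))) (h4 : (loc (I * c (J m)) (ω (J m)) z).re ≤ -(1 / 4)) :
    s = 0 ∧ J m = J k := by
  have hθ0 := (norm_nonneg _).trans (ht 0 (Nat.zero_le _))
  have e := eq_loc (hω (J m)) (I * c (J m)) z
  obtain ⟨a1, a2⟩ := mul_close (ht m hm) (mk_le_one h3.1 h3.2)
  obtain ⟨a3, a4⟩ := mul_close (ht k hk) (mk_le_one (s := 1 / 2) (t := v)
    (by norm_num [abs_of_pos]) (by linarith))
  have a5 := abs_le.1 h3.2
  generalize loc (I * c (J m)) (ω (J m)) z = w at *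
  change |(ω (J m) * w).re - w.re| ≤ _ at a1
  change |(ω (J m) * w).im - w.im| ≤ _ at a2
  have e1 : (z - ex (fun i => I * c i) ω (J k) v).re = (c (J k)).im - (c (J m)).im +
      (ω (J m) * w).re - (ω (J k) * ⟨1 / 2, v⟩).re := by
    rw [e, ex]; simp only [sub_re, add_re, I_mul_re]; ring
  have e2 : (z - ex (fun i => I * c i) ω (J k) v).im = (c (J m)).re - (c (J k)).re +
      (ω (J m) * w).im - (ω (J k) * ⟨1 / 2, v⟩).im := by
    rw [e, ex]; simp only [sub_im, add_im, I_mul_im]; ring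
  rw [e1] at h1
  rw [e2] at h2
  have s0 : (0 : ℝ) ≤ s := by positivity
  have s1 : P * s ≤ 1 / 200 * s := by gcongr
  have key : ∀ a b : ℕ, a < b → b ≤ t → |(c (J b)).re - (c (J a)).re| ≤ P * s + 3 / 4 + 2 * θ →
      (s : ℝ) / 2 ≤ |(c (J b)).im - (c (J a)).im| - 3 / 4 + 2 * θ → False := by
    intro a b k1 k2 k3 k4
    obtain ⟨b1, b2⟩ := centres hω h ht hθ k1.le k2
    have b3 : (1 : ℝ) ≤ b - a := by
      have : (a : ℝ) + 1 ≤ b := by exact_mod_cast k1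
      linarith
    have b4 : θ * (b - a) ≤ 1 / 1000 * (b - a) := by gcongr
    linarith [(abs_le.1 k3).2]
  simp only [abs_le] at a1 a2 a3 a4 h2 hv
  rcases lt_trichotomy m k with k1 | rfl | k1
  · exact (key m k k1 hk (abs_le.2 ⟨by linarith, by linarith⟩)
      (by linarith [le_abs_self ((c (J k)).im - (c (J m)).im)])).elim
  · exact absurd h1 (by linarith)
  · exact (key k m k1 hm (abs_le.2 ⟨by linarith, by linarith⟩)
      (by linarith [neg_abs_le ((c (J m)).im - (c (J k)).im)])).elim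

/-- the relative position of the starting points of two transversal rays -/
lemma offset {k l : ℕ} (hk : k + l ≤ t) (hl : θ * (l + 5) ≤ 1 / 200) {v : ℝ} (hv : |v| ≤ 1 / 4) :
    ‖ex (fun i => I * c i) ω (J (k + l)) v - ex (fun i => I * c i) ω (J k) v - I * l‖ ≤ 11 / 10 ∧
    |(ex (fun i => I * c i) ω (J (k + l)) v - ex (fun i => I * c i) ω (J k) v).re -
      (V (k + l) - V k - l * (ω (J k)).im)| ≤
      (l + 2) * ∑ j ∈ Finset.Ico k (k + l), g j + θ ^ 2 := by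
  have hθ0 := (norm_nonneg _).trans (ht 0 (Nat.zero_le _))
  have hk' : k ≤ t := by omega
  have v1 := abs_le.1 (h.v k hk')
  have v2 := abs_le.1 (h.v (k + l) hk)
  have v3 := abs_le.1 hv
  rw [ex_rot _ v (V (k + l)), ex_rot _ v (V k)]
  obtain ⟨a1, a2, a3⟩ := h.geo hω ht le_rfl (by linarith) (Nat.le_add_right k l) hk
  simp only [Nat.cast_add, add_sub_cancel_left] at a1 a2 a3
  set z := ex c ω (J k) (V k)
  set z' := ex c ω (J (k + l)) (V (k + l)) with hz'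
  set u := ω (J k) with hu
  set u' := ω (J (k + l)) with hu'
  constructor
  · have e : I * (z' + u' * ⟨v - 1 / 2, -(V (k + l) + 1 / 2)⟩) -
        I * (z + u * ⟨v - 1 / 2, -(V k + 1 / 2)⟩) - I * l = I * ((z' - z - l) +
        (u' - u) * ⟨v - 1 / 2, -(V (k + l) + 1 / 2)⟩ + u * (I * ((V k - V (k + l) : ℝ) : ℂ))) := by
      have : (⟨v - 1 / 2, -(V (k + l) + 1 / 2)⟩ : ℂ) =
          ⟨v - 1 / 2, -(V k + 1 / 2)⟩ + I * ((V k - V (k + l) : ℝ) : ℂ) := by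
        apply Complex.ext <;> simp
        ring
      linear_combination (I * u) * this
    have n1 : ‖z' - z - l‖ ≤ 2 * θ * l + θ * l := by
      refine (norm_le_abs_re_add_abs_im _).trans (add_le_add ?_ ?_)
      · simp only [sub_re, natCast_re]
        exact abs_le.2 ⟨by linarith, by nlinarith⟩
      · simpa using a3
    have n2 : ‖(u' - u) * ⟨v - 1 / 2, -(V (k + l) + 1 / 2)⟩‖ ≤ 2 * θ * 2 := by
      have := norm_sub_le_norm_sub_add_norm_sub u' 1 u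
      rw [norm_sub_rev 1] at this
      rw [norm_mul]
      exact mul_le_mul (by linarith [ht k hk', ht _ hk]) (norm_mk_le (by norm_num) (by nlinarith))
        (norm_nonneg _) (by linarith)
    have n3 : ‖u * (I * ((V k - V (k + l) : ℝ) : ℂ))‖ ≤ 1 := by
      rw [norm_mul, norm_mul, hω, norm_I, norm_real, one_mul, one_mul]
      exact abs_le.2 ⟨by linarith, by linarith⟩
    rw [e, norm_mul, norm_I, one_mul]
    exact norm_add₃_le.trans (by linarith)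
  · set γ := ∑ j ∈ Finset.Ico k (k + l), g j with hγ
    have g1 : ∀ j ≤ l, |(ω (J (k + j))).im - u.im| ≤ γ := fun j hj =>
      ((abs_im_le_norm (ω (J (k + j)) - u)).trans (h.ang_le (Nat.le_add_right k j) (by omega))).trans
        (Finset.sum_le_sum_of_subset_of_nonneg (Finset.Ico_subset_Ico_right (by omega))
          fun j _ _ => h.g0 j)
    have g0 : 0 ≤ γ := (abs_nonneg _).trans (g1 0 (Nat.zero_le _))
    have g2 : ∀ j ≤ l, |(ex c ω (J (k + j)) (V (k + j))).im - z.im - j * u.im| ≤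
        j * γ + ∑ i ∈ Finset.Ico k (k + j), g i := by
      intro j hj
      induction j with
      | zero => simp [z]
      | succ j ih =>
        have b1 := abs_le.1 (ih (by omega))
        have b2 := abs_le.1 (g1 (j + 1) hj)
        obtain ⟨b3, b4⟩ := h.d0 (k + j) (by omega)
        obtain ⟨-, -, -, b5, b6⟩ := unit_bd (hω _) (ht (k + j + 1) (by omega)) (by linarith)
        have b7 : |(ω (J (k + j + 1))).im * d (k + j)| ≤ 1 * g (k + j) := by
          rw [abs_mul, abs_of_nonneg b3]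
          exact mul_le_mul (abs_le.2 ⟨by linarith, by linarith⟩) b4 b3 zero_le_one
        rw [← add_assoc] at b2 ⊢
        rw [h.im_succ (by omega), Finset.sum_Ico_succ_top (by omega)]
        rw [abs_le] at b7
        push_cast
        exact abs_le.2 ⟨by linarith, by linarith⟩
    have g3 := abs_le.1 (g2 l le_rfl)
    have g4 : |(u'.im - u.im) * (v - 1 / 2)| ≤ γ * 1 := by
      rw [abs_mul]
      exact mul_le_mul (g1 l le_rfl) (abs_le.2 ⟨by linarith, by linarith⟩) (abs_nonneg _) g0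
    obtain ⟨b1, -, b2, -, -⟩ := unit_bd (hω _) (ht k hk') (by linarith)
    obtain ⟨b3, -, b4, -, -⟩ := unit_bd (hω _) (ht _ hk) (by linarith)
    have g5 : 0 ≤ (1 - u.re) * (V k + 1 / 2) := mul_nonneg (by linarith) (by linarith)
    have g6 : 0 ≤ (1 - u'.re) * (V (k + l) + 1 / 2) := mul_nonneg (by linarith) (by linarith)
    have g7 : (1 - u.re) * (V k + 1 / 2) ≤ θ ^ 2 / 2 * 1 :=
      mul_le_mul (by linarith) (by linarith) (by linarith) (by positivity)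
    have g8 : (1 - u'.re) * (V (k + l) + 1 / 2) ≤ θ ^ 2 / 2 * 1 :=
      mul_le_mul (by linarith) (by linarith) (by linarith) (by positivity)
    rw [← hγ, ← hz'] at g3
    rw [abs_le] at g4
    simp only [sub_re, I_mul_re, add_im, mul_im]
    exact abs_le.2 ⟨by linarith, by linarith⟩

/-- two transversal rays end in the lower frame, so their offset is almost an integer -/
lemma second (hn : ∀ k, |(ω k).im| ≤ (ω k).re) {n l k : ℕ} (hl : 10 ≤ l) (hl' : θ * (l + 5) ≤ 1 / 200)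
    (hn1 : l ^ 5 ≤ n) (hn2 : n ≤ 2 * l ^ 5) (hnt : t = n + 2) (z1 : (ex c ω (J 0) (V 0)).re = 0)
    (z2 : (n : ℝ) / 4 ≤ (ex c ω (J 0) (V 0)).im) (z3 : (ex c ω (J 0) (V 0)).im ≤ n / 2 + 1)
    (c1 : ∀ p : ℂ, -(n : ℝ) ≤ p.re → p.re ≤ 2 * n → 0 ≤ p.im → p.im ≤ n →
      Cov (fun i => I * c i) ω p)
    (c2 : ∀ p : ℂ, 0 ≤ p.re → p.re ≤ 2 * n → 0 ≤ p.im → p.im ≤ n → ∃ q,
      p ∈ Sq (I * c q) (ω q) ∧ ω q = 1 ∧ ∃ z : ℤ, (I * c q).re = z - 1 / 2)
    (hk1 : l ^ 4 ≤ k) (hk2 : k + l ^ 4 ≤ n) {u v : ℝ} (hu0 : 0 ≤ u) (hu : u * l ≤ 1 / 4000)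
    (hv : |v| ≤ 1 / 4) {St : Finset ι} (hSt : ∀ j ∈ St, ∃ m ≤ t, J m = j)
    (hF : FF (fun i => I * c i) ω (ft (fun i => I * c i) ω l) St n (J k) v ≤
      ENNReal.ofReal (2 * u))
    (hF' : FF (fun i => I * c i) ω (ft (fun i => I * c i) ω l) St n (J (k + l)) v ≤
      ENNReal.ofReal (2 * u)) :
    ∃ z : ℤ, |V (k + l) - V k - l * (ω (J k)).im - z| ≤
      12 * u + (l + 2) * ∑ j ∈ Finset.Ico k (k + l), g j + θ ^ 2 := by
  have hθ0 := (norm_nonneg _).trans (ht 0 (Nat.zero_le _))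
  have l1 : (10 : ℝ) ≤ l := by exact_mod_cast hl
  have l2 : 1000 * l ≤ l ^ 4 := by
    calc 1000 * l = 10 ^ 3 * l := by norm_num
      _ ≤ l ^ 3 * l := by gcongr
      _ = _ := by ring
  have l3 : 10 * l ^ 4 ≤ n := le_trans (by rw [pow_succ l 4, mul_comm]; gcongr) hn1
  have l2' : 1000 * (l : ℝ) ≤ l ^ 4 := by exact_mod_cast l2
  have l3' : 10 * (l : ℝ) ^ 4 ≤ n := by exact_mod_cast l3
  have hk1' : (l : ℝ) ^ 4 ≤ k := by exact_mod_cast hk1
  have hk2' : (k : ℝ) + l ^ 4 ≤ n := by exact_mod_cast hk2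
  have l4 : 10 * u ≤ u * l := by nlinarith
  have l5 : (θ + 4 * u) * l ≤ 6 / 1000 := by nlinarith
  have l6 : (θ + 4 * u) * n ≤ 12 / 1000 * l ^ 4 := by
    have : (n : ℝ) ≤ 2 * l ^ 5 := by exact_mod_cast hn2
    calc (θ + 4 * u) * n ≤ (θ + 4 * u) * (2 * l ^ 5) := by gcongr
      _ = 2 * ((θ + 4 * u) * l) * l ^ 4 := by ring
      _ ≤ 2 * (6 / 1000) * l ^ 4 := by gcongr
      _ = _ := by ring
  have hkl : k + l ≤ t := by omega
  have hk : k ≤ t := by omega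
  obtain ⟨o1, o2⟩ := offset hω h ht hθ hkl hl' hv
  set c' : ι → ℂ := fun i => I * c i with hc'
  have st : -(n : ℝ) / 2 - n / 500 - 4 ≤ (ex c' ω (J k) v).re ∧
      (ex c' ω (J k) v).re ≤ -(n : ℝ) / 4 + n / 500 + 4 ∧
      (k : ℝ) / 2 - 2 ≤ (ex c' ω (J k) v).im ∧ (ex c' ω (J k) v).im ≤ k + 2 := by
    obtain ⟨a1, a2, a3⟩ := h.geo hω ht le_rfl (by linarith) (Nat.zero_le k) hk
    have v1 := abs_le.1 (h.v k hk)
    have v3 := abs_le.1 hv
    have n2 : ‖ω (J k) * ⟨v - 1 / 2, -(V k + 1 / 2)⟩‖ ≤ 2 := by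
      rw [norm_mul, hω, one_mul]
      exact norm_mk_le (by norm_num) (by nlinarith only [v1.1, v1.2, v3.1, v3.2])
    have a4 := abs_le.1 ((abs_re_le_norm _).trans n2)
    have a5 := abs_le.1 ((abs_im_le_norm _).trans n2)
    have a6 : θ * k ≤ 1 / 1000 * k := by gcongr
    rw [Nat.cast_zero, sub_zero] at a1 a2 a3
    rw [abs_le] at a3
    rw [hc', ex_rot _ v (V k)]
    simp only [I_mul_re, I_mul_im, add_re, add_im]
    exact ⟨by linarith, by linarith, by linarith, by linarith⟩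
  obtain ⟨s1, s2, s3, s4⟩ := st
  obtain ⟨K, K', U, e, y, U', e', y', e1, e2, e3, e4, r, r', t1, t2, -, t4⟩ :=
    two_rays (c := c') hω hn (l := l) (T := n) (by omega) (St := St) (G := 2 * u) (P := θ + 4 * u)
    (p₀ := θ) (v := v) (by linarith) (by linarith) (ht k hk) (ht _ hkl) (by linarith)
    (by linarith) (by linarith) o1 (fun p k1 k2 k3 => by
      rw [abs_le] at k3
      exact c1 p (by linarith) (by linarith) (by linarith) (by linarith))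
    (fun i₀ hi j hj s z k1 k2 k3 k4 => by
      obtain ⟨m, hm, rfl⟩ := hSt j hj
      rcases hi with rfl | rfl
      · exact no_meet hω h ht hθ hk hm hv (by linarith) k1 k2 k3 k4
      · exact no_meet hω h ht hθ hkl hm hv (by linarith) k1 k2 k3 k4) hF hF'
  obtain ⟨n', rfl⟩ : ∃ n', n = n' + 1 := ⟨n - 1, by omega⟩
  have fin : ∀ (K : ℕ → ι) (U e y : ℕ → ℝ), Ray c' ω (ft c' ω l) (n' + 1) (2 * (2 * u)) K U e y →
      (∀ j ≤ n' + 1, ‖ω (K j) - 1‖ ≤ θ + 4 * u) →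
      |(ex c' ω (K 0) (U 0)).re - (ex c' ω (J k) v).re| ≤ 2 →
      |(ex c' ω (K 0) (U 0)).im - (ex c' ω (J k) v).im| ≤ l + 2 →
      ∃ z : ℤ, (ex c' ω (K n') (U n')).re = z := by
    intro K U e y r t1 k1 k2
    obtain ⟨a1, a2, a3⟩ := r.geo hω t1 (by linarith) (by linarith) (Nat.zero_le n') (Nat.le_succ _)
    have b4 := norm_le_of_mem (hω _) (ex_mem (c := c') (i := K n') hω (r.v n' (Nat.le_succ _)))
    have b5 := abs_le.1 ((abs_re_le_norm _).trans b4)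
    have b6 := abs_le.1 ((abs_im_le_norm _).trans b4)
    have b7 : (θ + 4 * u) * n' ≤ 1 / 200 * n' := by gcongr; linarith
    rw [Nat.cast_zero, sub_zero] at a1 a2 a3
    rw [abs_le] at a3 k1 k2
    push_cast at *
    simp only [sub_re, sub_im] at b5 b6
    obtain ⟨q, q1, q2, z, q3⟩ := c2 (c' (K n')) (by linarith) (by linarith) (by linarith)
      (by linarith)
    obtain rfl := ends (c := c') hω r (ft_nonneg l) (by linarith) (Nat.lt_succ_self _) (by simp) q1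
    refine ⟨z, ?_⟩
    rw [ex, q2, one_mul, add_re]
    change (I * c (K n')).re + 1 / 2 = z
    linarith
  have a1 := abs_le.1 ((abs_re_le_norm _).trans o1)
  have a2 := abs_le.1 ((abs_im_le_norm _).trans o1)
  simp only [sub_re, sub_im, mul_re, mul_im, I_re, I_im, natCast_re, natCast_im, zero_mul,
    mul_zero, one_mul, sub_zero, zero_add] at a1 a2
  obtain ⟨z, hz⟩ := fin K U e y r t1 (by simp [e1, e2]) (by simp [e1, e2]; positivity)
  obtain ⟨z', hz'⟩ := fin K' U' e' y' r' t2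
    (by rw [e3, e4]; exact abs_le.2 ⟨by linarith, by linarith⟩)
    (by rw [e3, e4]; exact abs_le.2 ⟨by linarith, by linarith⟩)
  have a3 := (t4 n' (Nat.lt_succ_self _)).2
  rw [sub_re, hz, hz'] at a3
  have a4 : ((θ + 4 * u) * l + 2) * (2 * (2 * u)) ≤ 3 * (2 * (2 * u)) := by gcongr; linarith
  refine ⟨z' - z, ?_⟩
  rw [abs_le] at a3 o2
  push_cast
  exact abs_le.2 ⟨by linarith, by linarith⟩

end Pool.Agent.MP_c59ecb_co.h76

end MrgPart1

-- ======== part 2: formerly Pool.Agent.MP_c59ecb_co.Chain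
section MrgPart2

set_option autoImplicit false

namespace Pool.Agent.MP_c59ecb_co

open MeasureTheory Complex Set
open scoped ComplexConjugate ENNReal

variable {ι : Type} [Fintype ι] [DecidableEq ι] {c ω : ι → ℂ} {τ : ℝ} {St : Finset ι}

/-- the invariant of a ray after `s` steps with accumulated cost `q` -/
def Inv (c ω : ι → ℂ) (τ y0 : ℝ) (s : ℕ) (i : ι) (v q : ℝ) : Prop :=
  |v| ≤ 1 / 2 ∧ 0 ≤ q ∧ ‖ω i - 1‖ ≤ τ * q ∧ (ex c ω i v).re ≤ s ∧
    s - s * τ ^ 2 - q ≤ (ex c ω i v).re ∧ |(ex c ω i v).im - y0| ≤ s * τ ∧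
    ∃ p ∈ Sq (c i) (ω i), p.re ≤ s - 1

lemma chain (hω : ∀ k, ‖ω k‖ = 1) (hn : ∀ k, |(ω k).im| ≤ (ω k).re) (hτ0 : 0 < τ)
    (hτ : τ ≤ 1 / 100) {n : ℕ} {L y0 : ℝ} (hL : n < L) (hL' : L ≤ n + 1 / 4)
    (hτn : (n + 1) * τ ^ 2 ≤ 1 / 50) (hy1 : 4 + (n + 1) * τ ≤ y0) (hy2 : y0 + (n + 1) * τ + 4 ≤ n)
    (hc : ∀ p : ℂ, -5 ≤ p.re → p.re ≤ L + 5 → 0 ≤ p.im → p.im ≤ n → ∃ k, p ∈ Sq (c k) (ω k))
    (hr : ∀ p : ℂ, L ≤ p.re → p.re ≤ L + 5 → 0 ≤ p.im → p.im ≤ n →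
      ∃ k, p ∈ Sq (c k) (ω k) ∧ ∀ q ∈ Sq (c k) (ω k), L ≤ q.re)
    (hS : ∀ i ∈ St, ω i = 1 ∧ (c i).re = -(1 / 2)) (t : ℕ) :
    ∀ (s : ℕ) (i : ι) (v q : ℝ), s + t = n + 1 → Inv c ω τ y0 s i v q →
      ENNReal.ofReal (1 / 10 - q) ≤
        Gt (Src c ω τ St) (off c ω) (slo ω) (cost c ω τ) t i v := by
  have pre : ∀ (s : ℕ) (i : ι) (v q : ℝ), s ≤ n + 1 → Inv c ω τ y0 s i v q →
      cost c ω τ i v < ENNReal.ofReal (1 / 10 - q) →
      q < 1 / 10 ∧ VG c ω τ i ∧ ∀ p, ‖p - c i‖ ≤ 16 / 5 → 0 ≤ p.im ∧ p.im ≤ n ∧ p.re ≤ L + 5 := by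
    intro s i v q hs ⟨h1, h2, h3, h4, h5, h6, _⟩ h
    have hs' : (s : ℝ) ≤ n + 1 := by exact_mod_cast hs
    have hs0 : (0 : ℝ) ≤ s := by positivity
    have hq : q < 1 / 10 := by
      have := ENNReal.ofReal_pos.1 (lt_of_le_of_lt zero_le h)
      linarith
    have h7 : ENNReal.ofReal (beta c ω τ i) ≤ cost c ω τ i v := by
      refine le_trans ?_ (le_self_add.trans le_self_add)
      rw [indicator_of_mem (mem_Icc.2 (abs_le.1 h1))]
    have h8 := (ENNReal.ofReal_lt_ofReal_iff (by linarith)).1 (h7.trans_lt h)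
    have h9 : ∀ p, ‖p - c i‖ ≤ 16 / 5 → -5 ≤ p.re ∧ 0 ≤ p.im ∧ p.im ≤ n ∧ p.re ≤ L + 5 := by
      intro p hp
      have k1 := norm_le_of_mem (hω i) (ex_mem (c := c) (i := i) hω h1)
      rw [norm_sub_rev] at k1
      have k2 : ‖p - ex c ω i v‖ ≤ 79 / 20 := by
        linarith [norm_sub_le_norm_sub_add_norm_sub p (c i) (ex c ω i v)]
      have k3 := abs_le.1 ((abs_re_le_norm _).trans k2)
      have k4 := abs_le.1 ((abs_im_le_norm _).trans k2)
      rw [sub_re] at k3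
      rw [sub_im] at k4
      have k5 := abs_le.1 h6
      have k6 : s * τ ≤ (n + 1) * τ := by gcongr
      have k7 : s * τ ^ 2 ≤ (n + 1) * τ ^ 2 := by gcongr
      exact ⟨by linarith, by linarith, by linarith, by linarith⟩
    refine ⟨hq, ⟨bb_le_of_beta hτ0 (by linarith), fun p hp => ?_, h3.trans (by nlinarith)⟩,
      fun p hp => (h9 p hp).2⟩
    obtain ⟨k1, k2, k3, k4⟩ := h9 p hp
    exact hc p k1 k4 k2 k3
  induction t with
  | zero =>
    intro s i v q hs hI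
    by_contra h
    obtain ⟨hq, hV, h9⟩ := pre s i v q (by omega) hI (not_le.1 h)
    obtain ⟨h1, h2, h3, -, h5, -, p, hp, hp'⟩ := hI
    obtain rfl : s = n + 1 := by omega
    push_cast at h5 hp'
    have k1 : ‖c i + ((1 / 5 : ℝ) : ℂ) - c i‖ ≤ 1 / 5 := by
      rw [add_sub_cancel_left, norm_real]
      norm_num
    obtain ⟨k2, k3, k4⟩ := h9 _ (k1.trans (by norm_num))
    have k5 : (ω i * ⟨1 / 2, v⟩).re ≤ 1 / 2 + 1 / 100 := by
      have k6 := abs_le.1 ((abs_im_le_norm _).trans hV.2.2)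
      have k7 := re_le_of_unit (hω i)
      have k8 := abs_le.1 h1
      simp only [sub_im, one_im, sub_zero] at k6
      simp only [mul_re]
      nlinarith
    rw [ex, add_re] at h5
    obtain ⟨k, k6, k7⟩ := hr (c i + ((1 / 5 : ℝ) : ℂ)) (by rw [add_re, ofReal_re]; linarith) k4 k2 k3
    have k8 : k ≠ i := by
      rintro rfl
      linarith [k7 p hp]
    have k9 := deep (hω i) (hω k) k6 k1 (ov_nonneg c ω i) (inter_le hω k8)
    linarith [ov_le_bb_self (c := c) (ω := ω) i, hV.1, bb_nonneg (c := c) (ω := ω) i]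
  | succ t ih =>
    intro s i v q hs hI
    by_cases h : ENNReal.ofReal (1 / 10 - q) ≤ cost c ω τ i v
    · exact h.trans (le_Gt _ _ _ _ _ _ _)
    obtain ⟨hq, hV, -⟩ := pre s i v q (by omega) hI (not_le.1 h)
    obtain ⟨h1, h2, h3, h4, h5, h6, -⟩ := hI
    obtain ⟨j, hj, hp⟩ := exists_next hω hV.2.1 h1
    change ex c ω i v ∈ _ at hp
    have hs' : (s : ℝ) + 1 ≤ n + 1 := by exact_mod_cast (show s + 1 ≤ n + 1 by omega)
    have hs0 : (0 : ℝ) ≤ s := by positivity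
    have hβ := beta_nonneg (c := c) (ω := ω) hτ0 i
    have hβ' := beta_eq hτ0 hV.1
    set k := beta c ω τ i + max (dep c ω i j) 0 with hk
    have hk0 : 0 ≤ max (dep c ω i j) 0 := le_max_right _ _
    have k1 : ENNReal.ofReal k ≤ cost c ω τ i v := by
      rw [hk, ENNReal.ofReal_add hβ hk0, ENNReal.ofReal_max, ENNReal.ofReal_zero, max_eq_left zero_le]
      refine add_le_add (le_trans ?_ le_self_add) (le_trans ?_ (Finset.single_le_sum
        (f := fun j => (Con c ω τ i j).indicator (fun _ => ENNReal.ofReal (dep c ω i j)) v)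
        (fun _ _ => zero_le) (Finset.mem_univ j)))
      · rw [indicator_of_mem (mem_Icc.2 (abs_le.1 h1))]
      · rw [indicator_of_mem (show v ∈ Con c ω τ i j from ⟨⟨hV, hj⟩, h1, hp⟩)]
    have k2 : k < 1 / 10 - q :=
      (ENNReal.ofReal_lt_ofReal_iff (by linarith)).1 (k1.trans_lt (not_le.1 h))
    have k3 : |v| < 1 / 2 - 4 * (10 ^ 17 * bb c ω i) := by
      by_contra k4
      refine h (le_trans ?_ (le_add_self.trans le_self_add))
      rw [indicator_of_mem (show v ∈ Cor c ω τ i from ⟨hV.1, not_lt.1 k4, h1⟩), Pi.one_apply]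
      exact ENNReal.ofReal_le_one.2 (by linarith)
    have k4 := align hω hn hτ hV (near_of_mem hω (ex_mem (i := i) hω h1) hp (by simp))
    rw [hβ'] at k4
    set z := loc (c j) (ω j) (ex c ω i v) with hz
    have k5 : z.re + 1 / 2 ≤ k := by
      have k6 : |(ω i * conj (ω j)).im * v| ≤ τ * beta c ω τ i * (1 / 2) := by
        rw [abs_mul]
        exact mul_le_mul ((rel_im (hω j)).trans k4) h1 (abs_nonneg _) (by positivity)
      rw [hz, loc_ex]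
      have k7 := le_max_left (dep c ω i j) 0
      have k8 := (abs_le.1 k6).1
      have k9 : τ * beta c ω τ i ≤ beta c ω τ i := by nlinarith
      simp only
      linarith
    have k6 := abs_le.1 hp.1
    have k7 : ‖ω j - 1‖ ≤ τ * (q + k) := by
      rw [norm_sub_rev] at k4
      have := norm_sub_le_norm_sub_add_norm_sub (ω j) (ω i) 1
      nlinarith
    have k8 : ‖ω j - 1‖ ≤ τ := k7.trans (by nlinarith)
    have k9 : ex c ω j z.im = ex c ω i v + ω j * ((1 / 2 - z.re : ℝ) : ℂ) := by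
      rw [ex, eq_loc (hω j) (c j) (ex c ω i v), ← hz, add_assoc, ← mul_add]
      congr 2
      apply Complex.ext <;> simp
    have k10 := re_ge_of_unit (hω j) k8
    have k11 := re_le_of_unit (hω j)
    have k12 : |(ω j).im| ≤ τ := by simpa using (abs_im_le_norm _).trans k8
    have k13 : (ex c ω j z.im).re = (ex c ω i v).re + (ω j).re * (1 / 2 - z.re) := by
      rw [k9, add_re, mul_re, ofReal_re, ofReal_im, mul_zero, sub_zero]
    have k14 : (ex c ω j z.im).im = (ex c ω i v).im + (ω j).im * (1 / 2 - z.re) := by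
      rw [k9, add_im, mul_im, ofReal_re, ofReal_im, mul_zero, zero_add]
    have k15 : 1 - τ ^ 2 - k ≤ (ω j).re * (1 / 2 - z.re) := by nlinarith [sq_nonneg τ]
    have k16 : (ω j).re * (1 / 2 - z.re) ≤ 1 := by nlinarith
    have k17 : |(ω j).im * (1 / 2 - z.re)| ≤ τ * 1 := by
      rw [abs_mul]
      exact mul_le_mul k12 (abs_le.2 ⟨by linarith, by linarith⟩) (abs_nonneg _) hτ0.le
    have k18 : (s + 1) * τ ^ 2 ≤ (n + 1) * τ ^ 2 := by gcongr
    have hI' : Inv c ω τ y0 (s + 1) j z.im (q + k) := by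
      refine ⟨hp.2, by linarith, k7, ?_, ?_, ?_, ex c ω i v, hp, ?_⟩
      all_goals push_cast
      · linarith
      · linarith
      · rw [k14]
        have := abs_le.1 h6
        have := abs_le.1 k17
        exact abs_le.2 ⟨by linarith, by linarith⟩
      · linarith
    have hSt : j ∉ St := fun hj' => by
      have k19 : (ex c ω j z.im).re = 0 := by
        rw [ex, (hS j hj').1, one_mul, add_re, (hS j hj').2]
        norm_num
      linarith
    have hsrc : v ∈ Src c ω τ St i j := ⟨⟨hV, hj, hSt⟩, k3, hp, by linarith⟩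
    have k20 := ih (s + 1) j z.im (q + k) (by omega) hI'
    have k21 : z.im = off c ω i j + slo ω i j * v := by rw [hz, loc_ex]
    rw [k21] at k20
    refine le_trans ?_ (step_le_Gt _ _ _ _ t hsrc)
    refine le_trans ?_ (add_le_add k1 k20)
    refine le_trans (ENNReal.ofReal_le_ofReal (by linarith)) ENNReal.ofReal_add_le

theorem core (hω : ∀ k, ‖ω k‖ = 1) (hn : ∀ k, |(ω k).im| ≤ (ω k).re) {n : ℕ} (h100 : 100 ≤ n)
    {L : ℝ} (hL : n < L) (hL' : L ≤ n + 1 / 4)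
    (hc : ∀ p : ℂ, -5 ≤ p.re → p.re ≤ L + 5 → 0 ≤ p.im → p.im ≤ n → ∃ k, p ∈ Sq (c k) (ω k))
    (hr : ∀ p : ℂ, L ≤ p.re → p.re ≤ L + 5 → 0 ≤ p.im → p.im ≤ n →
      ∃ k, p ∈ Sq (c k) (ω k) ∧ ∀ q ∈ Sq (c k) (ω k), L ≤ q.re)
    (hS : ∀ i ∈ St, ω i = 1 ∧ (c i).re = -(1 / 2) ∧ n / 5 ≤ (c i).im ∧ (c i).im ≤ 4 * n / 5)
    (hcard : n ≤ 3 * St.card) : √n ≤ 10 ^ 24 * ∑ k, ov c ω k := by
  have hn' : (100 : ℝ) ≤ n := by exact_mod_cast h100
  have hs : 10 ≤ √n := Real.le_sqrt_of_sq_le (by linarith)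
  have hs2 : √n * √n = n := Real.mul_self_sqrt (by positivity)
  set τ := 1 / (10 * √n) with hτd
  have hτ0 : 0 < τ := by positivity
  have hτ1 : τ * √n = 1 / 10 := by
    rw [hτd]
    field_simp
  have hτ : τ ≤ 1 / 100 := by nlinarith
  have hτ2 : n * τ ^ 2 = 1 / 100 := by
    rw [← hs2]
    linear_combination (τ * √n + 1 / 10) * hτ1
  have hτn : (n + 1) * τ ^ 2 ≤ 1 / 50 := by nlinarith
  have hτ3 : (n + 1) * τ ≤ n / 50 := by nlinarith
  have h1 : ∀ i ∈ St, ENNReal.ofReal (1 / 10) ≤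
      ∫⁻ v, Gt (Src c ω τ St) (off c ω) (slo ω) (cost c ω τ) (n + 1) i v := by
    intro i hi
    obtain ⟨k1, k2, k3, k4⟩ := hS i hi
    calc ENNReal.ofReal (1 / 10) = ∫⁻ v, (Icc (-(1 / 2) : ℝ) (1 / 2)).indicator
          (fun _ => ENNReal.ofReal (1 / 10)) v := by
          rw [lintegral_indicator_const measurableSet_Icc, Real.volume_Icc]
          norm_num
      _ ≤ _ := by
          refine lintegral_mono (fun v => ?_)
          by_cases hv : v ∈ Icc (-(1 / 2) : ℝ) (1 / 2)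
          · rw [indicator_of_mem hv]
            have e1 : (ex c ω i v).re = 0 := by
              rw [ex, k1, one_mul, add_re, k2]
              norm_num
            have e2 : (ex c ω i v).im = (c i).im + v := by rw [ex, k1, one_mul, add_im]
            have := chain hω hn hτ0 hτ hL hL' hτn (y0 := (c i).im + v) (by linarith [hv.1])
              (by linarith [hv.2]) hc hr (fun i hi => ⟨(hS i hi).1, (hS i hi).2.1⟩) (n + 1) 0 i v 0
              (by omega) ⟨abs_le.2 hv, le_rfl, by simp [k1], by simp [e1], by simp [e1],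
                by simp [e2], c i + ω i * ⟨-(1 / 2), 0⟩, by
                  simp only [Sq, mem_ofPred_eq, loc_add (hω i)]
                  norm_num [abs_of_pos], by
                  rw [k1, one_mul, add_re, k2]
                  norm_num⟩
            rwa [sub_zero] at this
          · rw [indicator_of_notMem hv]
            exact zero_le
  have h2 := flux (measurableSet_Src c ω τ St) (src_slope hω hn hτ) (src_inj hω hn hτ)
    (by nlinarith) (n + 1) _ (measurable_cost c ω τ)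
  have h3 : (1 + τ ^ 2) ^ (n + 1) ≤ 2 := by
    calc (1 + τ ^ 2) ^ (n + 1) ≤ (Real.exp (τ ^ 2)) ^ (n + 1) := by
          gcongr
          linarith [Real.add_one_le_exp (τ ^ 2)]
      _ = Real.exp ((n + 1 : ℕ) * τ ^ 2) := by rw [Real.exp_nat_mul]
      _ ≤ Real.exp (1 / 50) := by
          push_cast
          gcongr
      _ ≤ 2 := by
          have := Real.exp_bound_div_one_sub_of_interval' (x := 1 / 50) (by norm_num) (by norm_num)
          linarith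
  have h4 := (Finset.sum_le_sum h1).trans (h2.trans (mul_le_mul_right
    (Finset.sum_le_sum (fun i _ => lint_cost hω hn hτ0 hτ i)) _))
  have hβ := beta_nonneg (c := c) (ω := ω) hτ0
  rw [← ENNReal.ofReal_sum_of_nonneg (fun _ _ => by norm_num),
    ← ENNReal.ofReal_sum_of_nonneg (fun i _ => by linarith [hβ i]),
    ← ENNReal.ofReal_pow (by positivity), ← ENNReal.ofReal_mul (by positivity),
    ENNReal.ofReal_le_ofReal_iff (mul_nonneg (by positivity)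
      (Finset.sum_nonneg (fun i _ => by linarith [hβ i]))),
    Finset.sum_const, nsmul_eq_mul, ← Finset.mul_sum] at h4
  have h5 : ∑ i, beta c ω τ i ≤ 201 * (∑ k, ov c ω k) * (10 ^ 17 / τ) := by
    simp only [beta]
    rw [← Finset.sum_mul]
    gcongr
    exact sum_min_le hω (by rw [div_le_iff₀ (by norm_num)]; linarith)
  have h6 : 10 ^ 17 / τ = 10 ^ 18 * √n := by
    rw [hτd]
    field_simp
  have h7 : (n : ℝ) ≤ 3 * St.card := by exact_mod_cast hcard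
  have h8 : 0 ≤ ∑ i, beta c ω τ i := Finset.sum_nonneg (fun i _ => hβ i)
  have h9 : (1 + τ ^ 2) ^ (n + 1) * (22 * ∑ i, beta c ω τ i) ≤ 2 * (22 * ∑ i, beta c ω τ i) := by
    gcongr
  have h10 : 0 ≤ ∑ k, ov c ω k := Finset.sum_nonneg (fun k _ => ov_nonneg c ω k)
  rw [h6] at h5
  have h11 : √n * √n ≤ (10 ^ 24 * ∑ k, ov c ω k) * √n := by nlinarith
  exact le_of_mul_le_mul_right h11 (by linarith)

end Pool.Agent.MP_c59ecb_co

end MrgPart2

-- ======== part 3: formerly Pool.Agent.MP_c59ecb_co.Final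
section MrgPart3

set_option autoImplicit false

namespace Pool.Agent.MP_c59ecb_co

open MeasureTheory Complex Set
open scoped ComplexConjugate ENNReal

lemma exists_normal (c : ℂ) {ω : ℂ} (h : ‖ω‖ = 1) :
    ∃ ζ : ℂ, ‖ζ‖ = 1 ∧ |ζ.im| ≤ ζ.re ∧ Sq c ζ = Sq c ω := by
  have h1 : ∃ m : ℕ, |(ω * I ^ m).im| ≤ (ω * I ^ m).re := by
    rcases le_total |ω.im| |ω.re| with h1 | h1
    · rcases le_total 0 ω.re with h2 | h2
      · exact ⟨0, by simpa [abs_of_nonneg h2] using h1⟩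
      · exact ⟨2, by simpa [abs_of_nonpos h2] using h1⟩
    · rcases le_total 0 ω.im with h2 | h2
      · exact ⟨3, by simpa [abs_of_nonneg h2, pow_succ] using h1⟩
      · exact ⟨1, by simpa [abs_of_nonpos h2] using h1⟩
  obtain ⟨m, hm⟩ := h1
  exact ⟨ω * I ^ m, by simp [h], hm, Sq_mul_I_pow c ω m⟩

lemma mem_Sq_one {c p : ℂ} : p ∈ Sq c 1 ↔ |p.re - c.re| ≤ 1 / 2 ∧ |p.im - c.im| ≤ 1 / 2 := by
  simp [Sq, loc]

lemma exists_cell {m : ℕ} (hm : 0 < m) {x : ℝ} (h0 : 0 ≤ x) (h1 : x ≤ m) :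
    ∃ r : Fin m, |x - (r.val + 1 / 2)| ≤ 1 / 2 := by
  rcases h1.eq_or_lt with h | h
  · refine ⟨⟨m - 1, by omega⟩, ?_⟩
    simp only [Nat.cast_pred hm, h]
    exact abs_le.2 ⟨by linarith, by linarith⟩
  · refine ⟨⟨⌊x⌋₊, (Nat.floor_lt h0).2 h⟩, abs_le.2 ⟨?_, ?_⟩⟩
    · linarith [Nat.floor_le h0]
    · linarith [Nat.lt_floor_add_one x]

lemma large {N n : ℕ} (h100 : 100 ≤ n) {L : ℝ} (hL : n < L) (hL' : L ≤ n + 1 / 4)
    (c ω : Fin N → ℂ) (hω : ∀ k, ‖ω k‖ = 1) (hn : ∀ k, |(ω k).im| ≤ (ω k).re)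
    (hc : ∀ p : ℂ, 0 ≤ p.re → p.re ≤ L → 0 ≤ p.im → p.im ≤ n → ∃ k, p ∈ Sq (c k) (ω k)) :
    √n ≤ 10 ^ 24 * (2 * (N - n ^ 2)) := by
  let c' : Fin N ⊕ (Bool × Fin 5 × Fin n) → ℂ := Sum.elim c (fun x =>
    ⟨bif x.1 then L + (x.2.1.val + 1 / 2) else -(x.2.1.val + 1 / 2), x.2.2.val + 1 / 2⟩)
  let ω' : Fin N ⊕ (Bool × Fin 5 × Fin n) → ℂ := Sum.elim ω (fun _ => 1)
  have hω' : ∀ k, ‖ω' k‖ = 1 := by
    rintro (k | k)
    exacts [hω k, norm_one]
  have hn' : ∀ k, |(ω' k).im| ≤ (ω' k).re := by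
    rintro (k | k)
    · exact hn k
    · simp [ω']
  have hr : ∀ p : ℂ, L ≤ p.re → p.re ≤ L + 5 → 0 ≤ p.im → p.im ≤ n →
      ∃ k, p ∈ Sq (c' k) (ω' k) ∧ ∀ q ∈ Sq (c' k) (ω' k), L ≤ q.re := by
    intro p h1 h2 h3 h4
    obtain ⟨r, hr⟩ := exists_cell (by omega) h3 h4
    obtain ⟨s, hs⟩ := exists_cell (m := 5) (x := p.re - L) (by omega) (by linarith)
      (by push_cast; linarith)
    refine ⟨Sum.inr (true, s, r), mem_Sq_one.2 ⟨?_, hr⟩, fun q hq => ?_⟩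
    · rwa [sub_sub] at hs
    · have h5 : |q.re - (L + (s.val + 1 / 2))| ≤ 1 / 2 := (mem_Sq_one.1 hq).1
      have h6 : (0 : ℝ) ≤ s.val := by positivity
      linarith [(abs_le.1 h5).1]
  have hc' : ∀ p : ℂ, -5 ≤ p.re → p.re ≤ L + 5 → 0 ≤ p.im → p.im ≤ n →
      ∃ k, p ∈ Sq (c' k) (ω' k) := by
    intro p h1 h2 h3 h4
    rcases le_total p.re 0 with h5 | h5
    · obtain ⟨r, hr⟩ := exists_cell (by omega) h3 h4
      obtain ⟨s, hs⟩ := exists_cell (m := 5) (x := -p.re) (by omega) (by linarith)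
        (by push_cast; linarith)
      refine ⟨Sum.inr (false, s, r), mem_Sq_one.2 ⟨?_, hr⟩⟩
      rw [← abs_neg] at hs
      convert hs using 2
      simp [c']
      ring
    · rcases le_total p.re L with h6 | h6
      · obtain ⟨k, hk⟩ := hc p h5 h6 h3 h4
        exact ⟨Sum.inl k, hk⟩
      · exact (hr p h6 h2 h3 h4).imp (fun _ h => h.1)
  let f : Fin (n / 2) → Fin N ⊕ (Bool × Fin 5 × Fin n) :=
    fun r => Sum.inr (false, 0, ⟨n / 4 + r.val, by have := r.2; omega⟩)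
  have hf : Function.Injective f := fun r r' e => by
    simp only [f, Sum.inr.injEq, Prod.mk.injEq, Fin.mk.injEq, true_and] at e
    exact Fin.ext (by omega)
  have h1 := core (St := Finset.univ.image f) hω' hn' h100 hL hL' hc' hr (fun i hi => by
    obtain ⟨r, -, rfl⟩ := Finset.mem_image.1 hi
    have h2 : n ≤ 5 * (n / 4 + r.val) := by omega
    have h3 : 5 * (n / 4 + r.val) + 5 ≤ 4 * n := by have := r.2; omega
    have h2' : (n : ℝ) ≤ 5 * ((n / 4 + r.val : ℕ) : ℝ) := by exact_mod_cast h2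
    have h3' : 5 * ((n / 4 + r.val : ℕ) : ℝ) + 5 ≤ 4 * n := by exact_mod_cast h3
    refine ⟨rfl, by simp [f, c'], ?_, ?_⟩
    · change _ ≤ ((n / 4 + r.val : ℕ) : ℝ) + 1 / 2
      linarith
    · change ((n / 4 + r.val : ℕ) : ℝ) + 1 / 2 ≤ _
      linarith) (by
    rw [Finset.card_image_of_injective _ hf, Finset.card_univ, Fintype.card_fin]
    omega)
  have h2 := sum_ov_le (c := c') hω' (isClosed_Box 0 1 (-5) (L + 5) 0 n).measurableSet
    (fun p hp => by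
      simp only [Box, loc, mem_ofPred_eq, sub_zero, map_one, mul_one, mem_Icc] at hp
      exact hc' p hp.1.1 hp.1.2 hp.2.1 hp.2.2) (A := (n + 10) * n) (by
      rw [volume_Box norm_one, ← ENNReal.ofReal_mul (by linarith [Nat.cast_nonneg (α := ℝ) n])]
      refine ENNReal.ofReal_le_ofReal ?_
      nlinarith [Nat.cast_nonneg (α := ℝ) n])
  simp only [Fintype.card_sum, Fintype.card_prod, Fintype.card_fin, Fintype.card_bool] at h2
  push_cast at h2
  nlinarith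

theorem main (n : ℕ) (ε : ℝ) (hε : 0 < ε) (N : ℕ) (a ω : Fin N → ℂ) (hω : ∀ k, ‖ω k‖ = 1)
    (hc : ∀ x ∈ Icc (0 : ℝ) (n + ε), ∀ y ∈ Icc (0 : ℝ) (n + ε), ∃ k, ∃ s ∈ Icc (0 : ℝ) 1,
      ∃ t ∈ Icc (0 : ℝ) 1, (x : ℂ) + y * I = a k + ω k * (s + t * I)) :
    (n : ℝ) ^ 2 + 1 / 10 ^ 25 * √n ≤ N := by
  choose ζ h1 h2 h3 using fun k => exists_normal (a k + ω k * ⟨1 / 2, 1 / 2⟩) (hω k)
  have hc' : ∀ p : ℂ, 0 ≤ p.re → p.re ≤ n + ε → 0 ≤ p.im → p.im ≤ n + ε →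
      ∃ k, p ∈ Sq (a k + ω k * ⟨1 / 2, 1 / 2⟩) (ζ k) := by
    intro p k1 k2 k3 k4
    obtain ⟨k, s, hs, t, ht, e⟩ := hc p.re ⟨k1, k2⟩ p.im ⟨k3, k4⟩
    refine ⟨k, ?_⟩
    have e1 : p = (a k + ω k * ⟨1 / 2, 1 / 2⟩) + ω k * ⟨s - 1 / 2, t - 1 / 2⟩ := by
      rw [← re_add_im p, e, add_assoc, ← mul_add]
      congr 2
      apply Complex.ext <;> simp
    rw [h3, e1]
    simp only [Sq, mem_ofPred_eq, loc_add (hω k)]
    exact ⟨abs_le.2 ⟨by linarith [hs.1], by linarith [hs.2]⟩,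
      abs_le.2 ⟨by linarith [ht.1], by linarith [ht.2]⟩⟩
  have hn0 : (0 : ℝ) ≤ n := Nat.cast_nonneg n
  rcases le_or_gt 100 n with h100 | h100
  · have h4 := large h100 (L := n + min ε (1 / 4)) (by simp [hε]) (by simp) _ ζ h1 h2
      (fun p k1 k2 k3 k4 => hc' p k1 (k2.trans (by simp)) k3 (by linarith))
    have h5 : 0 ≤ √n := Real.sqrt_nonneg _
    linarith
  · have h4 := sum_ov_le h1 (isClosed_Box 0 1 0 (n + ε) 0 (n + ε)).measurableSet
      (fun p hp => by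
        simp only [Box, loc, mem_ofPred_eq, sub_zero, map_one, mul_one, mem_Icc] at hp
        exact hc' p hp.1.1 hp.1.2 hp.2.1 hp.2.2) (A := (n + ε) * (n + ε)) (by
        rw [volume_Box norm_one, sub_zero, ← ENNReal.ofReal_mul (by linarith)])
    rw [Fintype.card_fin] at h4
    have h5 := Finset.sum_nonneg (s := Finset.univ)
      (fun k _ => ov_nonneg (fun k => a k + ω k * ⟨1 / 2, 1 / 2⟩) ζ k)
    have h6 : ((n ^ 2 : ℕ) : ℝ) < N := by
      push_cast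
      nlinarith
    have h7 : n ^ 2 + 1 ≤ N := by exact_mod_cast h6
    have h8 : (n : ℝ) ^ 2 + 1 ≤ N := by exact_mod_cast h7
    have h9 : √n ≤ 10 := by
      rw [Real.sqrt_le_iff]
      have : (n : ℝ) < 100 := by exact_mod_cast h100
      exact ⟨by norm_num, by linarith⟩
    linarith

end Pool.Agent.MP_c59ecb_co

end MrgPart3

-- ======== part 4: formerly Pool.Agent.MP_c59ecb_co.h76.Main
section MrgPart4

/-! The lower bound of order `n ^ (3 / 5)`. -/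

set_option autoImplicit false

namespace Pool.Agent.MP_c59ecb_co.h76

open MeasureTheory Complex Set
open scoped ComplexConjugate ENNReal

variable {ι : Type} [Fintype ι] [DecidableEq ι] {c ω : ι → ℂ}
  {t : ℕ} {θ : ℝ} {J : ℕ → ι} {V d g : ℕ → ℝ}

lemma sum_shift {g : ℕ → ℝ} (hg : ∀ k, 0 ≤ g k) {S : Finset ℕ} {i t : ℕ}
    (hS : ∀ k ∈ S, k + i < t) : ∑ k ∈ S, g (k + i) ≤ ∑ k ∈ Finset.range t, g k := by
  rw [← Finset.sum_image (g := fun k => k + i) (fun a _ b _ e => by simpa using e)]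
  refine Finset.sum_le_sum_of_subset_of_nonneg (fun j hj => ?_) fun k _ _ => hg k
  obtain ⟨k, hk, rfl⟩ := Finset.mem_image.1 hj
  exact Finset.mem_range.2 (hS k hk)

variable (hω : ∀ k, ‖ω k‖ = 1)
include hω

lemma tilt_bd (hn : ∀ k, |(ω k).im| ≤ (ω k).re) {l : ℕ} (h : Ray c ω (ft c ω l) t θ J V d g)
    (ht : ∀ k ≤ t, ‖ω (J k) - 1‖ ≤ θ) (hl : 10 ≤ l) (hl' : θ * (l + 5) ≤ 1 / 200)
    {J' : ℕ → ι} {V' : ℕ → ℝ} (hV' : ∀ m ≤ t, |V' m| ≤ 1 / 2) (ht' : ∀ m ≤ t, ‖ω (J' m) - 1‖ ≤ θ)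
    (hD : ∀ m < t, ‖ex c ω (J' m) (V' m) - ex c ω (J m) (V m) - I * l‖ ≤ (l + 2) * θ ∧
      |(ex c ω (J' m) (V' m) - ex c ω (J m) (V m)).re| ≤ 3 * θ)
    (hc : ∀ m ≤ t, ∀ j < l + 5, ∀ p, ‖p - (c (J m) + I * j)‖ ≤ 4 → Cov c ω p) {k : ℕ}
    (hk : k + l ≤ t) {x : ℝ} {z : ℤ} (hx : |V (k + l) - V k - l * (ω (J k)).im - z| ≤ x) :
    (ω (J k)).im ^ 2 ≤ 4 * l * ∑ j ∈ Finset.Ico k (k + l), g j ∨
      l * |(ω (J k)).im| ≤ 42 * θ + 2 * x := by
  by_contra hcon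
  push Not at hcon
  obtain ⟨h1, h2⟩ := hcon
  rw [← sq_abs] at h1
  have hx0 := (abs_nonneg _).trans hx
  set σ := |(ω (J k)).im| with hσ
  have h3 : σ ≤ θ := by simpa using (abs_im_le_norm _).trans (ht k (by omega))
  have h4 : ∀ m, k ≤ m → m < k + l → ∃ z : ℤ, |V (m + 1) - V m - z| ≤ σ / 2 := by
    intro m m1 m2
    by_contra k1
    push Not at k1
    have a1 := k1 0
    have a2 := k1 1
    have a3 := k1 (-1)
    have v1 := abs_le.1 (h.v m (by omega))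
    have v2 := abs_le.1 (h.v (m + 1) (by omega))
    push_cast at a1 a2 a3
    rw [sub_zero] at a1
    rw [abs_of_nonpos (by linarith)] at a2
    rw [abs_of_nonneg (by linarith)] at a3
    have a4 : ‖ω (J m) - ω (J k)‖ ≤ ∑ j ∈ Finset.Ico k (k + l), g j :=
      (h.ang_le m1 (by omega)).trans (Finset.sum_le_sum_of_subset_of_nonneg
        (Finset.Ico_subset_Ico_right m2.le) fun j _ _ => h.g0 j)
    have a5 := abs_sub_abs_le_abs_sub (ω (J k)).im (ω (J m)).im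
    have a6 := (abs_im_le_norm _).trans a4
    rw [sub_im, abs_sub_comm] at a6
    exact fault_case hω hn h hl (by omega) (hV' m (by omega)) hl' (ht m (by omega))
      (ht' m (by omega)) (hD m (by omega)).1 (hD m (by omega)).2 (hc m (by omega))
      (Finset.single_le_sum (f := g) (fun j _ => h.g0 j) (Finset.mem_Ico.2 ⟨m1, m2⟩))
      (by linarith) h1 h3 (by linarith) a1.le (abs_le.2 ⟨by linarith, by linarith⟩)
  have h5 : ∀ j ≤ l, ∃ z : ℤ, |V (k + j) - V k - z| ≤ j * (σ / 2) := by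
    intro j hj
    induction j with
    | zero => exact ⟨0, by simp⟩
    | succ j ih =>
      obtain ⟨z1, a1⟩ := ih (by omega)
      obtain ⟨z2, a2⟩ := h4 (k + j) (by omega) (by omega)
      refine ⟨z1 + z2, ?_⟩
      rw [abs_le] at a1 a2
      rw [← add_assoc]
      push_cast
      exact abs_le.2 ⟨by linarith, by linarith⟩
  obtain ⟨z', h6⟩ := h5 l le_rfl
  have h7 : |l * (ω (J k)).im| = l * σ := by rw [abs_mul, Nat.abs_cast]
  have h8 : l * σ ≤ l * θ := by gcongr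
  have h9 : 0 ≤ θ := (abs_nonneg _).trans h3
  have a1 := le_abs_self (l * (ω (J k)).im)
  have a2 := neg_abs_le (l * (ω (J k)).im)
  rw [abs_le] at hx h6
  have h10 : |((z' - z : ℤ) : ℝ)| < 1 := by
    push_cast
    exact abs_lt.2 ⟨by linarith, by linarith⟩
  have h11 : z' = z := by
    have : |z' - z| < 1 := by exact_mod_cast h10
    have := Int.abs_lt_one_iff.1 this
    omega
  subst h11
  have h12 : |l * (ω (J k)).im| ≤ l * (σ / 2) + x := abs_le.2 ⟨by linarith, by linarith⟩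
  linarith

/-- a ray that crosses the square is tilted -/
lemma column {f : ι → ℝ} {n : ℕ} (h : Ray c ω f (n + 2) θ J V d g) (hf : ∀ i, 0 ≤ f i)
    (ht : ∀ k ≤ n + 2, ‖ω (J k) - 1‖ ≤ θ) (hθ : θ ≤ 1 / 1000) (z1 : (ex c ω (J 0) (V 0)).re = 0)
    {L : ℝ} (L1 : n < L) (L2 : L ≤ n + 1 / 4)
    (hr : ∀ p : ℂ, L ≤ p.re → p.re ≤ L + 10 → |p.im - (ex c ω (J 0) (V 0)).im| ≤ θ * (n + 1) + 1 →
      ∃ q, p ∈ Sq (c q) (ω q) ∧ ∀ x ∈ Sq (c q) (ω q), L ≤ x.re) :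
    1 / 5 ≤ ∑ k ∈ Finset.range (n + 2), (ω (J k)).im ^ 2 := by
  by_contra hcon
  have h1 : ∀ j ≤ n + 1, j - ∑ k ∈ Finset.range (j + 1), (ω (J k)).im ^ 2 -
      ∑ k ∈ Finset.range j, g k ≤ (ex c ω (J j) (V j)).re := by
    intro j hj
    induction j with
    | zero => simp [z1]; positivity
    | succ j ih =>
      have a1 := ih (by omega)
      obtain ⟨a2, a3⟩ := h.d0 j (by omega)
      obtain ⟨-, a4, a5, -, -⟩ := unit_bd (hω _) (ht (j + 1) (by omega)) (by linarith)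
      have a6 := Complex.normSq_eq_norm_sq (ω (J (j + 1)))
      rw [hω, Complex.normSq_apply] at a6
      have a7 : 1 - (ω (J (j + 1))).im ^ 2 - g j ≤ (ω (J (j + 1))).re * (1 - d j) := by
        nlinarith only [a2, a3, a4, a5, a6, hθ]
      rw [h.re_succ (by omega), Finset.sum_range_succ _ (j + 1), Finset.sum_range_succ g]
      push_cast
      linarith
  have h2 := h1 (n + 1) le_rfl
  have h3 := h.sub (s := Finset.range (n + 1)) (fun j hj => by simp at hj; omega)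
  obtain ⟨-, a2, a3⟩ := h.geo hω ht le_rfl (by linarith) (Nat.zero_le (n + 1)) (Nat.le_succ _)
  obtain ⟨-, a4, -⟩ := h.geo hω ht le_rfl (by linarith) (Nat.zero_le n) (by omega)
  have hv := h.v (n + 1) (Nat.le_succ _)
  obtain ⟨b1, -⟩ := mul_close (ht (n + 1) (Nat.le_succ _))
    (mk_le_one (s := 1 / 2) (by norm_num [abs_of_pos]) hv)
  have b2 := norm_le_of_mem (hω _) (ex_mem (c := c) (i := J (n + 1)) hω hv)
  have b3 := abs_le.1 ((abs_im_le_norm _).trans b2)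
  have b4 := congrArg Complex.re (c_eq (c := c) (ω := ω) (J (n + 1)) (V (n + 1)))
  simp only [abs_le, sub_re, sub_im] at a3 b1 b3 b4
  push_cast at h2 a2 a3 a4
  obtain ⟨q, q1, q2⟩ := hr (c (J (n + 1)) + (1 / 5 : ℝ)) (by rw [add_re, ofReal_re]; linarith)
    (by rw [add_re, ofReal_re]; linarith)
    (by rw [add_im, ofReal_im]; exact abs_le.2 ⟨by linarith, by linarith⟩)
  obtain rfl := ends hω h hf (by linarith) (k := n + 1) (by omega) (by simp) q1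
  obtain ⟨d1, d2⟩ := h.d0 n (by omega)
  have d3 := h.le (k := n) (by omega)
  have e : ex c ω (J n) (V n) = c (J (n + 1)) + ω (J (n + 1)) * ⟨d n - 1 / 2, V (n + 1)⟩ := by
    have e1 : (⟨d n - 1 / 2, V (n + 1)⟩ : ℂ) = ⟨1 / 2, V (n + 1)⟩ - ((1 - d n : ℝ) : ℂ) := by
      apply Complex.ext <;> simp
      ring
    have e2 := h.nxt n (by omega)
    rw [ex] at e2
    rw [e1]
    linear_combination -e2
  have := q2 (ex c ω (J n) (V n)) (by
    rw [e]
    simp only [Sq, mem_ofPred_eq, loc_add (hω _)]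
    exact ⟨abs_le.2 ⟨by linarith, by linarith⟩, hv⟩)
  linarith

lemma energy {l : ℕ} (hl : 10 ≤ l) :
    22 * ∑ i, bt c ω i + ∑ i, ft c ω l i ≤ 10 ^ 24 * ∑ k, ov c ω k := by
  have l1 : (10 : ℝ) ≤ l := by exact_mod_cast hl
  have h1 := sum_bt (c := c) hω
  have h2 := sum_tb (c := c) hω (l + 5)
  have h3 : 0 ≤ ∑ k, ov c ω k := Finset.sum_nonneg fun k _ => ov_nonneg c ω k
  have h4 : 0 ≤ ∑ i, bt c ω i := Finset.sum_nonneg fun k _ => bt_nonneg k
  have h5 : ∑ i, ft c ω l i ≤ 300 * ∑ i, bt c ω i + ∑ k, ov c ω k := by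
    simp only [ft]
    rw [← Finset.sum_div, div_le_iff₀ (by linarith)]
    push_cast at h2
    nlinarith
  linarith

omit hω in
lemma arith {l s u γ θ : ℝ} (hl : 10 ≤ l) (hθ : θ * l ^ 2 = 1 / 1000) (hu : 0 ≤ u) (hγ : 0 ≤ γ)
    (hγ' : γ ≤ θ) (hs : |s| ≤ θ) (h : u * l ≤ 1 / 4000 → s ^ 2 ≤ 4 * l * γ ∨
      l * |s| ≤ 42 * θ + 2 * (12 * u + (l + 2) * γ + θ ^ 2)) :
    l ^ 3 * s ^ 2 ≤ u + 5 * l ^ 4 * γ + 5547 * l * θ ^ 2 := by
  have h0 := hγ.trans hγ'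
  have l0 : 0 < l := by linarith
  have a1 : 0 ≤ l ^ 4 * γ := by positivity
  have a2 : 0 ≤ l * θ ^ 2 := by positivity
  have a3 : 100 * θ ≤ θ * l ^ 2 := by rw [mul_comm]; gcongr; nlinarith
  rw [← sq_abs] at h ⊢
  have a4 := abs_nonneg s
  generalize |s| = σ at *
  by_cases hu' : u * l ≤ 1 / 4000
  · rcases h hu' with h | h
    · have : l ^ 3 * σ ^ 2 ≤ l ^ 3 * (4 * l * γ) := by gcongr
      linarith
    · have b1 : l * σ ≤ 43 * θ + 24 * u + 12 / 5 * (l * γ) := by nlinarith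
      have b2 : (l * σ) ^ 2 ≤ (43 * θ + 24 * u + 12 / 5 * (l * γ)) ^ 2 := by gcongr
      have b3 : ∀ x y z : ℝ, (x + y + z) ^ 2 ≤ 3 * (x ^ 2 + y ^ 2 + z ^ 2) := fun x y z => by
        nlinarith only [sq_nonneg (x - y), sq_nonneg (y - z), sq_nonneg (x - z)]
      have b4 := mul_le_mul_of_nonneg_left (b2.trans (b3 _ _ _)) l0.le
      have b5 : u * (u * l) ≤ u * (1 / 4000) := by gcongr
      have b6 : l ^ 3 * γ * γ ≤ l ^ 3 * γ * (l / 100) := by gcongr; linarith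
      linarith
  · have b1 : l ^ 3 * σ ^ 2 ≤ l ^ 3 * θ ^ 2 := by gcongr
    have b2 : l ^ 3 * θ ^ 2 * 1 ≤ l ^ 3 * θ ^ 2 * (4000 * (u * l)) := by gcongr; linarith
    have b3 : l ^ 3 * θ ^ 2 * (4000 * (u * l)) = 4000 * u * (θ * l ^ 2) ^ 2 := by ring
    rw [hθ] at b3
    linarith

theorem core (hn : ∀ k, |(ω k).im| ≤ (ω k).re) {n l : ℕ} (hl : 10 ≤ l) (hn1 : l ^ 5 ≤ n)
    (hn2 : n ≤ 2 * l ^ 5) {L : ℝ} (L1 : n < L) (L2 : L ≤ n + 1 / 4)
    (c1 : ∀ p : ℂ, -10 ≤ p.re → p.re ≤ L + 10 → 0 ≤ p.im → p.im ≤ n → Cov c ω p)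
    (c2 : ∀ p : ℂ, 0 ≤ p.re → p.re ≤ n → -(2 * n) ≤ p.im → p.im ≤ 0 →
      ∃ q, p ∈ Sq (c q) (ω q) ∧ ω q = 1 ∧ ∃ z : ℤ, (c q).im = z + 1 / 2)
    (c3 : ∀ p : ℂ, L ≤ p.re → p.re ≤ L + 10 → 0 ≤ p.im → p.im ≤ n →
      ∃ q, p ∈ Sq (c q) (ω q) ∧ ∀ x ∈ Sq (c q) (ω q), L ≤ x.re)
    (a : ℕ → ι) (ha : ∀ r < n, ω (a r) = 1 ∧ c (a r) = ⟨-(1 / 2), r + 1 / 2⟩) :
    (l : ℝ) ^ 3 ≤ 10 ^ 29 * ∑ k, ov c ω k := by
  by_contra hcon
  have l1 : (10 : ℝ) ≤ l := by exact_mod_cast hl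
  have l2 : 10000 * l ≤ n := le_trans (by
    calc 10000 * l = 10 ^ 4 * l := by norm_num
      _ ≤ l ^ 4 * l := by gcongr
      _ = _ := by ring) hn1
  have l3 : 10 * l ^ 4 ≤ n := le_trans (by rw [pow_succ l 4, mul_comm]; gcongr) hn1
  have l2' : 10000 * (l : ℝ) ≤ n := by exact_mod_cast l2
  have hn1' : (l : ℝ) ^ 5 ≤ n := by exact_mod_cast hn1
  have hn2' : (n : ℝ) ≤ 2 * l ^ 5 := by exact_mod_cast hn2
  obtain ⟨θ, hθ⟩ : ∃ θ : ℝ, θ * l ^ 2 = 1 / 1000 := ⟨1 / 1000 / l ^ 2, by field_simp⟩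
  have θ0 : 0 < θ := by
    by_contra k
    nlinarith
  have θ1 : θ * l ≤ 1 / 10000 := by nlinarith
  have θ2 : θ ≤ 1 / 100000 := by nlinarith
  have θ3 : θ * n ≤ 1 / 100000 * n := by gcongr
  set E : ℝ := l ^ 3 / 10 ^ 5 with hE
  have E0 : 0 ≤ E := by positivity
  obtain ⟨h, h0, hs, hv⟩ := select (measurable_FF (c := c) (ω := ω) (f := ft c ω l)
    ((Finset.range n).image a) (n + 2)) a n (fun k hk k' hk' e => by
      have h1 := congrArg Complex.im ((ha k hk).2.symm.trans (e ▸ (ha k' hk').2))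
      simpa using h1) E0 ((sum_FF hω hn (ft_nonneg l) _ _).trans
      (ENNReal.ofReal_le_ofReal (by linarith [energy (c := c) hω hl])))
  obtain ⟨r, hr, hr'⟩ := Finset.exists_le_of_sum_le (s := Finset.Ico (n / 4 + 1) (n / 2))
    (f := fun r => h r + h (r + l)) (g := fun _ => θ / 4) ⟨n / 4 + 1, by simp; omega⟩ (by
      have a1 := sum_shift h0 (S := Finset.Ico (n / 4 + 1) (n / 2)) (i := 0) (t := n)
        (fun k hk => by simp at hk; omega)
      have a2 := sum_shift h0 (S := Finset.Ico (n / 4 + 1) (n / 2)) (i := l) (t := n)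
        (fun k hk => by simp at hk; omega)
      have a3 : (n : ℝ) ≤ 5 * ((n / 2 - (n / 4 + 1) : ℕ) : ℝ) := by
        exact_mod_cast (show n ≤ 5 * (n / 2 - (n / 4 + 1)) by omega)
      have a4 : θ * l ^ 5 ≤ θ * (5 * ((n / 2 - (n / 4 + 1) : ℕ) : ℝ)) := by gcongr; linarith
      have a5 : θ * l ^ 5 = θ * l ^ 2 * l ^ 3 := by ring
      rw [Finset.sum_add_distrib, Finset.sum_const, Nat.card_Ico, nsmul_eq_mul]
      rw [hθ] at a5
      simp only [add_zero] at a1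
      linarith)
  obtain ⟨r1, r2⟩ := Finset.mem_Ico.1 hr
  have r3 : (n : ℝ) ≤ 4 * r := by exact_mod_cast (show n ≤ 4 * r by omega)
  have r4 : 2 * (r : ℝ) ≤ n := by exact_mod_cast (show 2 * r ≤ n by omega)
  obtain ⟨v, v1, v2, v3⟩ := hv r (by omega) (r + l) (by omega)
  have v4 := abs_le.1 v1
  have ez : ∀ r < n, ex c ω (a r) v = ⟨0, r + 1 / 2 + v⟩ := fun r hr => by
    rw [ex, (ha r hr).1, (ha r hr).2]
    apply Complex.ext <;> simp
  have ed : ex c ω (a (r + l)) v - ex c ω (a r) v = I * l := by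
    rw [ez r (by omega), ez (r + l) (by omega)]
    apply Complex.ext <;> simp
  obtain ⟨J, J', V, d, g, V', d', g', e1, e2, -, -, R, R', t1, t2, t3, t4⟩ :=
    two_rays hω hn (l := l) (T := n + 2) (by omega) (St := (Finset.range n).image a) (G := θ / 2)
    (P := θ) (p₀ := 0) (v := v) (i := a r) (i' := a (r + l)) (by linarith) (by linarith)
    (by simp [(ha r (by omega)).1]) (by simp [(ha (r + l) (by omega)).1]) (by linarith)
    (by linarith) (by linarith) (by rw [ed]; norm_num) (fun p k1 k2 k3 => by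
      rw [ez r (by omega)] at k1 k2 k3
      rw [abs_le] at k3
      push_cast at k1 k2 k3
      exact c1 p (by linarith) (by linarith) (by linarith) (by linarith))
    (fun i₀ hi j hj s z k1 _ _ k4 => by
      obtain ⟨m, hm, rfl⟩ := Finset.mem_image.1 hj
      have a1 : (ex c ω i₀ v).re = 0 := by
        rcases hi with rfl | rfl
        · rw [ez r (by omega)]
        · rw [ez (r + l) (by omega)]
      obtain ⟨a2, a3⟩ := ha m (Finset.mem_range.1 hm)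
      rw [a2, a3] at k4
      simp only [loc, map_one, mul_one, sub_re] at k1 k4
      exact absurd k1 (by linarith [Nat.cast_nonneg (α := ℝ) s]))
    (v2.trans (ENNReal.ofReal_le_ofReal (by linarith)))
    (v3.trans (ENNReal.ofReal_le_ofReal (by linarith)))
  rw [show 2 * (θ / 2) = θ by ring] at R R' t4
  have z0 : ex c ω (J 0) (V 0) = ⟨0, r + 1 / 2 + v⟩ := by rw [e1, e2, ez r (by omega)]
  have col := column hω R (ft_nonneg l) t1 (by linarith) (by rw [z0]) L1 L2 (fun p k1 k2 k3 => by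
    rw [z0, abs_le] at k3
    exact c3 p k1 k2 (by linarith) (by linarith))
  obtain ⟨u, u0, us, uv⟩ := select (measurable_FF (c := fun i => I * c i) (ω := ω)
    (f := ft (fun i => I * c i) ω l) ((Finset.range (n + 2)).image J) n) J (n + 2)
    (fun k hk k' hk' e => ray_inj hω R t1 (by linarith) hk.le hk'.le e) E0
    ((sum_FF hω hn (ft_nonneg l) _ _).trans (ENNReal.ofReal_le_ofReal (by
      have := energy (c := fun i => I * c i) hω hl
      simp only [ov_rot] at this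
      linarith)))
  have rot : ∀ p : ℂ, p = I * (-I * p) := fun p => by linear_combination p * I_mul_I
  have l4 : l ≤ l ^ 4 := Nat.le_self_pow (by norm_num) l
  have im : ∀ k ≤ n + 2, |(ω (J k)).im| ≤ θ := fun k hk => by
    simpa using (abs_im_le_norm _).trans (t1 k hk)
  have mid : ∀ k ∈ Finset.Ico (l ^ 4) (n + 1 - l ^ 4), (l : ℝ) ^ 3 * (ω (J k)).im ^ 2 ≤
      (u k + u (k + l)) + 5 * l ^ 4 * ∑ j ∈ Finset.range l, g (k + j) + 5547 * l * θ ^ 2 := by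
    intro k hk
    obtain ⟨k1, k2⟩ := Finset.mem_Ico.1 hk
    have a1 : ∑ j ∈ Finset.range l, g (k + j) = ∑ j ∈ Finset.Ico k (k + l), g j := by
      rw [Finset.sum_Ico_eq_sum_range, Nat.add_sub_cancel_left]
    rw [a1]
    refine arith l1 hθ (add_nonneg (u0 _) (u0 _)) (Finset.sum_nonneg fun j _ => R.g0 j)
      (R.sub fun j hj => by simp at hj; omega) (im k (by omega)) fun hu => ?_
    obtain ⟨w, w1, w2, w3⟩ := uv k (by omega) (k + l) (by omega)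
    obtain ⟨z, hz⟩ := second hω R t1 (by linarith) hn hl (by linarith) hn1 hn2 rfl (by rw [z0])
      (by rw [z0]; linarith) (by rw [z0]; linarith) (fun p k1 k2 k3 k4 => by
        rw [rot p]
        rcases le_total p.re 0 with k5 | k5
        · exact (c1 (-I * p) (by simp; linarith) (by simp; linarith) (by simpa) (by
            simp; linarith)).imp fun q hq => mem_rot.2 hq
        · exact (c2 (-I * p) (by simpa) (by simpa) (by simpa) (by simpa)).imp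
            fun q hq => mem_rot.2 hq.1) (fun p k1 k2 k3 k4 => by
        obtain ⟨q, q1, q2, z, q3⟩ := c2 (-I * p) (by simpa) (by simpa) (by simpa) (by simpa)
        exact ⟨q, rot p ▸ mem_rot.2 q1, q2, -z, by simp [q3]; ring⟩) k1 (by omega)
      (add_nonneg (u0 _) (u0 _)) hu w1 (fun j hj => by
        obtain ⟨m, hm, rfl⟩ := Finset.mem_image.1 hj
        exact ⟨m, (Finset.mem_range.1 hm).le, rfl⟩) w2 w3
    refine tilt_bd hω hn R t1 hl (by linarith) R'.v t2 (fun m hm => ?_) t3 (by omega) hz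
    obtain ⟨b1, b2⟩ := t4 m hm
    rw [ed] at b1 b2
    simp only [I_mul_re, natCast_im, neg_zero, sub_zero] at b2
    exact ⟨b1, b2.trans (by gcongr; linarith)⟩
  have out : ∀ S : Finset ℕ, (∀ k ∈ S, k ≤ n + 2) → S.card ≤ l ^ 4 + 1 →
      ∑ k ∈ S, (ω (J k)).im ^ 2 ≤ 1 / 1000 := fun S k1 k2 => by
    refine (Finset.sum_le_card_nsmul S _ (θ ^ 2) fun k hk => ?_).trans ?_
    · rw [← sq_abs]
      gcongr
      exact im k (k1 k hk)
    · have a1 : (S.card : ℝ) ≤ 2 * l ^ 4 := by exact_mod_cast (show S.card ≤ 2 * l ^ 4 by omega)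
      have a2 : (S.card : ℝ) * θ ^ 2 ≤ 2 * l ^ 4 * θ ^ 2 := by gcongr
      have a3 : 2 * l ^ 4 * θ ^ 2 = 2 * (θ * l ^ 2) ^ 2 := by ring
      rw [hθ] at a3
      rw [nsmul_eq_mul]
      linarith
  have o1 := out (Finset.Ico 0 (l ^ 4)) (fun k hk => by simp at hk; omega) (by simp)
  have o2 := out (Finset.Ico (n + 1 - l ^ 4) (n + 2)) (fun k hk => by simp at hk; omega)
    (by simp; omega)
  rw [Finset.range_eq_Ico, ← Finset.sum_Ico_consecutive _ (Nat.zero_le (l ^ 4)) (by omega),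
    ← Finset.sum_Ico_consecutive _ (m := l ^ 4) (n := n + 1 - l ^ 4) (by omega) (by omega)] at col
  have m1 := Finset.sum_le_sum mid
  set S := Finset.Ico (l ^ 4) (n + 1 - l ^ 4) with hS
  have m2 := sum_shift u0 (S := S) (i := 0) (t := n + 2) (fun k hk => by simp [hS] at hk; omega)
  have m3 := sum_shift u0 (S := S) (i := l) (t := n + 2) (fun k hk => by simp [hS] at hk; omega)
  have m4 : ∑ k ∈ S, ∑ j ∈ Finset.range l, g (k + j) ≤ l * θ := by
    rw [Finset.sum_comm]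
    refine (Finset.sum_le_card_nsmul _ _ θ fun j hj => ?_).trans (by simp)
    exact (sum_shift R.g0 (fun k hk => by simp [hS] at hk hj; omega)).trans R.sum
  have m5 : (S.card : ℝ) ≤ 2 * l ^ 5 := by
    exact_mod_cast (show S.card ≤ 2 * l ^ 5 by simp [hS]; omega)
  have m6 : 5 * (l : ℝ) ^ 4 * ∑ k ∈ S, ∑ j ∈ Finset.range l, g (k + j) ≤ 5 * l ^ 4 * (l * θ) := by
    gcongr
  have m7 : (S.card : ℝ) * (5547 * l * θ ^ 2) ≤ 2 * l ^ 5 * (5547 * l * θ ^ 2) := by gcongr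
  have m8 : 5 * l ^ 4 * (l * θ) = 5 * l ^ 3 * (θ * l ^ 2) := by ring
  have m9 : 2 * l ^ 5 * (5547 * l * θ ^ 2) = 11094 * l ^ 2 * (θ * l ^ 2) ^ 2 := by ring
  have m10 : (l : ℝ) ^ 2 * 10 ≤ l ^ 3 := by rw [pow_succ _ 2]; gcongr
  have m11 : (l : ℝ) ^ 3 * (1 / 10) ≤ l ^ 3 * ∑ k ∈ S, (ω (J k)).im ^ 2 := by gcongr; linarith
  have m12 : (0 : ℝ) < l ^ 3 := by positivity
  rw [hθ] at m8 m9
  rw [Finset.sum_add_distrib, Finset.sum_add_distrib, Finset.sum_add_distrib, ← Finset.mul_sum,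
    ← Finset.mul_sum, Finset.sum_const, nsmul_eq_mul] at m1
  simp only [add_zero] at m2
  linarith

omit hω in
lemma large {N n l : ℕ} (hl : 10 ≤ l) (hn1 : l ^ 5 ≤ n) (hn2 : n ≤ 2 * l ^ 5) {L : ℝ} (hL : n < L)
    (hL' : L ≤ n + 1 / 4) (c ω : Fin N → ℂ) (hω : ∀ k, ‖ω k‖ = 1)
    (hn : ∀ k, |(ω k).im| ≤ (ω k).re)
    (hc : ∀ p : ℂ, 0 ≤ p.re → p.re ≤ L → 0 ≤ p.im → p.im ≤ n → ∃ k, p ∈ Sq (c k) (ω k)) :
    (l : ℝ) ^ 3 ≤ 10 ^ 29 * (2 * (N - n ^ 2)) := by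
  have n0 : 0 < n := lt_of_lt_of_le (by positivity) hn1
  have n1 : (0 : ℝ) ≤ n := by positivity
  let c' : Fin N ⊕ (Bool × Fin 10 × Fin n) ⊕ (Fin n × Fin (2 * n)) → ℂ :=
    Sum.elim c (Sum.elim (fun x =>
      ⟨bif x.1 then L + (x.2.1.val + 1 / 2) else -(x.2.1.val + 1 / 2), x.2.2.val + 1 / 2⟩)
      fun x => ⟨x.1.val + 1 / 2, -(x.2.val + 1 / 2)⟩)
  let ω' : Fin N ⊕ (Bool × Fin 10 × Fin n) ⊕ (Fin n × Fin (2 * n)) → ℂ := Sum.elim ω (fun _ => 1)
  have hω' : ∀ k, ‖ω' k‖ = 1 := by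
    rintro (k | k)
    exacts [hω k, norm_one]
  have hn' : ∀ k, |(ω' k).im| ≤ (ω' k).re := by
    rintro (k | k)
    · exact hn k
    · simp [ω']
  have c3 : ∀ p : ℂ, L ≤ p.re → p.re ≤ L + 10 → 0 ≤ p.im → p.im ≤ n →
      ∃ k, p ∈ Sq (c' k) (ω' k) ∧ ∀ q ∈ Sq (c' k) (ω' k), L ≤ q.re := by
    intro p h1 h2 h3 h4
    obtain ⟨r, hr⟩ := exists_cell n0 h3 h4
    obtain ⟨s, hs⟩ := exists_cell (m := 10) (x := p.re - L) (by omega) (by linarith)
      (by push_cast; linarith)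
    refine ⟨Sum.inr (Sum.inl (true, s, r)), mem_Sq_one.2 ⟨?_, hr⟩, fun q hq => ?_⟩
    · rwa [sub_sub] at hs
    · have h5 : |q.re - (L + (s.val + 1 / 2))| ≤ 1 / 2 := (mem_Sq_one.1 hq).1
      have h6 : (0 : ℝ) ≤ s.val := by positivity
      linarith [(abs_le.1 h5).1]
  have c1 : ∀ p : ℂ, -10 ≤ p.re → p.re ≤ L + 10 → 0 ≤ p.im → p.im ≤ n → Cov c' ω' p := by
    intro p h1 h2 h3 h4
    rcases le_total p.re 0 with h5 | h5
    · obtain ⟨r, hr⟩ := exists_cell n0 h3 h4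
      obtain ⟨s, hs⟩ := exists_cell (m := 10) (x := -p.re) (by omega) (by linarith)
        (by push_cast; linarith)
      refine ⟨Sum.inr (Sum.inl (false, s, r)), mem_Sq_one.2 ⟨?_, hr⟩⟩
      rw [← abs_neg] at hs
      convert hs using 2
      simp [c']
      ring
    · rcases le_total p.re L with h6 | h6
      · obtain ⟨k, hk⟩ := hc p h5 h6 h3 h4
        exact ⟨Sum.inl k, hk⟩
      · exact (c3 p h6 h2 h3 h4).imp (fun _ h => h.1)
  have c2 : ∀ p : ℂ, 0 ≤ p.re → p.re ≤ n → -(2 * n) ≤ p.im → p.im ≤ 0 →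
      ∃ q, p ∈ Sq (c' q) (ω' q) ∧ ω' q = 1 ∧ ∃ z : ℤ, (c' q).im = z + 1 / 2 := by
    intro p h1 h2 h3 h4
    obtain ⟨r, hr⟩ := exists_cell n0 h1 h2
    obtain ⟨s, hs⟩ := exists_cell (m := 2 * n) (x := -p.im) (by omega) (by linarith)
      (by push_cast; linarith)
    refine ⟨Sum.inr (Sum.inr (r, s)), mem_Sq_one.2 ⟨hr, ?_⟩, rfl, -(s.val + 1), ?_⟩
    · rw [← abs_neg] at hs
      convert hs using 2
      simp [c']
      ring
    · simp [c']
      ring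
  have h1 := core hω' hn' hl hn1 hn2 hL hL' c1 c2 c3
    (fun r => Sum.inr (Sum.inl (false, 0, ⟨r % n, Nat.mod_lt r n0⟩))) (fun r hr =>
      ⟨rfl, by simp [c', Nat.mod_eq_of_lt hr]⟩)
  have h2 := sum_ov_le (c := c') hω' ((isClosed_Box 0 1 (-10) (L + 10) 0 n).union
    (isClosed_Box 0 1 0 n (-(2 * n)) 0)).measurableSet
    (fun p hp => by
      simp only [Box, loc, mem_union, mem_ofPred_eq, sub_zero, map_one, mul_one, mem_Icc] at hp
      rcases hp with hp | hp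
      · exact c1 p hp.1.1 hp.1.2 hp.2.1 hp.2.2
      · exact (c2 p hp.1.1 hp.1.2 hp.2.1 hp.2.2).imp fun _ h => h.1)
    (A := (n + 20) * n + n * (2 * n)) (by
      have a1 := measure_union_add_inter (μ := volume) (Box 0 1 (-10) (L + 10) 0 n)
        (isClosed_Box 0 1 0 n (-(2 * n)) 0).measurableSet
      have a2 : volume (Box 0 1 (-10) (L + 10) 0 n ∩ Box 0 1 0 n (-(2 * n)) 0) = 0 :=
        measure_mono_null (t := Box 0 1 0 n 0 0) (fun p hp => ⟨hp.2.1, hp.1.2.1, hp.2.2.2⟩)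
          (by simp [volume_Box norm_one])
      rw [a2, add_zero] at a1
      rw [a1, volume_Box norm_one, volume_Box norm_one, ← ENNReal.ofReal_mul (by linarith),
        ← ENNReal.ofReal_mul (by linarith), ← ENNReal.ofReal_add (by nlinarith) (by nlinarith)]
      exact ENNReal.ofReal_le_ofReal (by nlinarith))
  simp only [Fintype.card_sum, Fintype.card_prod, Fintype.card_fin, Fintype.card_bool] at h2
  push_cast at h2
  linarith

omit hω in
theorem lower (n : ℕ) (ε : ℝ) (hε : 0 < ε) (N : ℕ) (a ω : Fin N → ℂ) (hω : ∀ k, ‖ω k‖ = 1)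
    (hc : ∀ x ∈ Icc (0 : ℝ) (n + ε), ∀ y ∈ Icc (0 : ℝ) (n + ε), ∃ k, ∃ s ∈ Icc (0 : ℝ) 1,
      ∃ t ∈ Icc (0 : ℝ) 1, (x : ℂ) + y * I = a k + ω k * (s + t * I)) :
    (n : ℝ) ^ 2 + 1 / 10 ^ 30 * (n : ℝ) ^ (3 / 5 : ℝ) ≤ N := by
  rcases lt_or_ge n (10 ^ 5) with h0 | h0
  · refine le_trans ?_ (main n ε hε N a ω hω hc)
    rcases Nat.eq_zero_or_pos n with rfl | h1
    · simp
    · have h2 : (1 : ℝ) ≤ n := by exact_mod_cast h1
      have h3 : (n : ℝ) ≤ 10 ^ 5 := by exact_mod_cast h0.le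
      have h4 := Real.rpow_le_rpow_of_exponent_le h2 (show (3 / 5 : ℝ) ≤ 1 by norm_num)
      rw [Real.rpow_one] at h4
      linarith [Real.one_le_sqrt.2 h2]
  choose ζ h1 h2 h3 using fun k => exists_normal (a k + ω k * ⟨1 / 2, 1 / 2⟩) (hω k)
  set l := Nat.nthRoot 5 n
  have l1 : l ^ 5 ≤ n := Nat.pow_nthRoot_le (Or.inl (by norm_num))
  have l2 : n < (l + 1) ^ 5 := Nat.lt_pow_nthRoot_add_one (by norm_num) n
  have l3 : 10 ≤ l := Nat.le_of_lt_succ (lt_of_pow_lt_pow_left₀ 5 (Nat.zero_le _) (h0.trans_lt l2))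
  have l4 : (l : ℝ) + 1 ≤ 11 / 10 * l := by
    have : (10 : ℝ) ≤ l := by exact_mod_cast l3
    linarith
  have l5 : (n : ℝ) ≤ (11 / 10 * l) ^ 5 :=
    le_trans (by exact_mod_cast l2.le) (pow_le_pow_left₀ (by positivity) l4 5)
  have l6 : (0 : ℝ) ≤ l ^ 5 := by positivity
  have l7 : (n : ℝ) ^ (3 / 5 : ℝ) ≤ (11 / 10 * l) ^ 3 := by
    refine (Real.rpow_le_rpow (by positivity) l5 (by norm_num)).trans_eq ?_
    rw [← Real.rpow_natCast, ← Real.rpow_mul (by positivity), ← Real.rpow_natCast]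
    norm_num
  have h4 := large l3 l1 (by exact_mod_cast (show (n : ℝ) ≤ 2 * l ^ 5 by linarith))
    (L := n + min ε (1 / 4)) (by simp [hε]) (by simp) _ ζ h1 h2 (fun p k1 k2 k3 k4 => by
      obtain ⟨k, s, hs, t, ht, e⟩ := hc p.re ⟨k1, k2.trans (by simp)⟩ p.im ⟨k3, by linarith⟩
      refine ⟨k, ?_⟩
      have e1 : p = (a k + ω k * ⟨1 / 2, 1 / 2⟩) + ω k * ⟨s - 1 / 2, t - 1 / 2⟩ := by
        rw [← re_add_im p, e, add_assoc, ← mul_add]
        congr 2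
        apply Complex.ext <;> simp
      rw [h3, e1]
      simp only [Sq, mem_ofPred_eq, loc_add (hω k)]
      exact ⟨abs_le.2 ⟨by linarith [hs.1], by linarith [hs.2]⟩,
        abs_le.2 ⟨by linarith [ht.1], by linarith [ht.2]⟩⟩)
  have l8 : (0 : ℝ) ≤ l ^ 3 := by positivity
  linarith

end Pool.Agent.MP_c59ecb_co.h76

end MrgPart4

-- ======== part 5: formerly Pool.Agent.MP_c59ecb_co.h76.Cell
section MrgPart5

/-! Coverings of plane regions by unit squares: basic operations and the cell with two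
directions of squares. -/

set_option autoImplicit false

namespace Pool.Agent.MP_c59ecb_co.h76

/-- membership in the unit square with direction `(c, s)` and offsets `α`, `β` -/
def InS (z : ℝ × ℝ × ℝ × ℝ) (x y : ℝ) : Prop :=
  z.1 ≤ z.2.2.1 * x + z.2.2.2 * y ∧ z.2.2.1 * x + z.2.2.2 * y ≤ z.1 + 1 ∧
    z.2.1 ≤ -z.2.2.2 * x + z.2.2.1 * y ∧ -z.2.2.2 * x + z.2.2.1 * y ≤ z.2.1 + 1

/-- the region can be covered by at most `N` unit squares -/
def Cv (P : ℝ → ℝ → Prop) (N : ℝ) : Prop :=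
  ∃ L : List (ℝ × ℝ × ℝ × ℝ), (L.length : ℝ) ≤ N ∧ (∀ z ∈ L, z.2.2.1 ^ 2 + z.2.2.2 ^ 2 = 1) ∧
    ∀ x y, P x y → ∃ z ∈ L, InS z x y

variable {P Q : ℝ → ℝ → Prop} {N M : ℝ}

lemma Cv.mono (h : Cv Q M) (h1 : M ≤ N) (h2 : ∀ x y, P x y → Q x y) : Cv P N := by
  obtain ⟨L, a, b, c⟩ := h
  exact ⟨L, a.trans h1, b, fun x y hp => c x y (h2 x y hp)⟩

lemma Cv.or (h : Cv P N) (h' : Cv Q M) : Cv (fun x y => P x y ∨ Q x y) (N + M) := by
  obtain ⟨L, a, b, c⟩ := h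
  obtain ⟨L', a', b', c'⟩ := h'
  refine ⟨L ++ L', by rw [List.length_append]; push_cast; linarith, fun z hz => ?_, fun x y hp => ?_⟩
  · exact (List.mem_append.1 hz).elim (b z) (b' z)
  · rcases hp with hp | hp
    · exact (c x y hp).imp fun z hz => ⟨List.mem_append_left _ hz.1, hz.2⟩
    · exact (c' x y hp).imp fun z hz => ⟨List.mem_append_right _ hz.1, hz.2⟩

lemma Cv.rot (h : Cv P N) {c s : ℝ} (hcs : c ^ 2 + s ^ 2 = 1) (a b : ℝ) :
    Cv (fun x y => P (c * x + s * y + a) (-s * x + c * y + b)) N := by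
  obtain ⟨L, h1, h2, h3⟩ := h
  refine ⟨L.map fun z => (z.1 - (z.2.2.1 * a + z.2.2.2 * b), z.2.1 - (-z.2.2.2 * a + z.2.2.1 * b),
    z.2.2.1 * c - z.2.2.2 * s, z.2.2.1 * s + z.2.2.2 * c), by simpa using h1, fun z hz => ?_,
    fun x y hp => ?_⟩
  · obtain ⟨w, hw, rfl⟩ := List.mem_map.1 hz
    linear_combination (c ^ 2 + s ^ 2) * h2 w hw + hcs
  · obtain ⟨w, hw, k1, k2, k3, k4⟩ := h3 _ _ hp
    exact ⟨_, List.mem_map_of_mem hw, by dsimp only; linarith, by dsimp only; linarith,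
      by dsimp only; linarith, by dsimp only; linarith⟩

lemma Cv.shift (h : Cv P N) (a b : ℝ) : Cv (fun x y => P (x + a) (y + b)) N := by
  simpa using h.rot (c := 1) (s := 0) (by norm_num) a b

lemma Cv.refl (h : Cv P N) : Cv (fun x y => P (-x) y) N := by
  obtain ⟨L, h1, h2, h3⟩ := h
  refine ⟨L.map fun z => (z.2.1, z.1, z.2.2.2, z.2.2.1), by simpa using h1, fun z hz => ?_,
    fun x y hp => ?_⟩
  · obtain ⟨w, hw, rfl⟩ := List.mem_map.1 hz
    linear_combination h2 w hw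
  · obtain ⟨w, hw, k1, k2, k3, k4⟩ := h3 _ _ hp
    exact ⟨_, List.mem_map_of_mem hw, by dsimp only; linarith, by dsimp only; linarith,
      by dsimp only; linarith, by dsimp only; linarith⟩

lemma Cv.sum {P : ℕ → ℝ → ℝ → Prop} {N : ℕ → ℝ} (n : ℕ) (h : ∀ i < n, Cv (P i) (N i)) :
    Cv (fun x y => ∃ i < n, P i x y) (∑ i ∈ Finset.range n, N i) := by
  induction n with
  | zero => exact ⟨[], by simp, by simp, by simp⟩
  | succ n ih =>
    rw [Finset.sum_range_succ]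
    refine ((ih fun i hi => h i (by omega)).or (h n (by omega))).mono le_rfl ?_
    rintro x y ⟨i, hi, hp⟩
    rcases Nat.lt_succ_iff_lt_or_eq.1 hi with k | rfl
    exacts [Or.inl ⟨i, k, hp⟩, Or.inr hp]

lemma exists_int {m : ℕ} (hm : 0 < m) {x : ℝ} (h0 : 0 ≤ x) (h1 : x ≤ m) :
    ∃ r < m, (r : ℝ) ≤ x ∧ x ≤ r + 1 := by
  rcases h1.eq_or_lt with h | h
  · refine ⟨m - 1, by omega, ?_⟩
    rw [Nat.cast_pred hm, h]
    exact ⟨by linarith, by linarith⟩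
  · exact ⟨⌊x⌋₊, (Nat.floor_lt h0).2 h, Nat.floor_le h0, (Nat.lt_floor_add_one x).le⟩

lemma Cv.box {k l : ℕ} (hk : 0 < k) (hl : 0 < l) (a b : ℝ) :
    Cv (fun x y => a ≤ x ∧ x ≤ a + k ∧ b ≤ y ∧ y ≤ b + l) (k * l) := by
  have h1 : ∀ a b : ℝ, Cv (fun x y => a ≤ x ∧ x ≤ a + 1 ∧ b ≤ y ∧ y ≤ b + 1) 1 := fun a b =>
    ⟨[(a, b, 1, 0)], by simp, by simp, fun x y hp => by simpa [InS] using hp⟩
  refine (Cv.sum k fun i _ => Cv.sum l fun j _ => h1 (a + i) (b + j)).mono (by simp) ?_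
  rintro x y ⟨k1, k2, k3, k4⟩
  obtain ⟨i, hi, k5, k6⟩ := exists_int hk (x := x - a) (by linarith) (by linarith)
  obtain ⟨j, hj, k7, k8⟩ := exists_int hl (x := y - b) (by linarith) (by linarith)
  exact ⟨i, hi, j, hj, by linarith, by linarith, by linarith, by linarith⟩

/-- a rectangle with one integer side -/
lemma Cv.box' {k : ℕ} (hk : 0 < k) (a b : ℝ) {g : ℝ} (hg : 0 ≤ g) :
    Cv (fun x y => a ≤ x ∧ x ≤ a + k ∧ b ≤ y ∧ y ≤ b + g) (k * (g + 1)) := by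
  have h1 := Nat.floor_le hg
  have h2 := Nat.lt_floor_add_one g
  refine (Cv.box hk (l := ⌊g⌋₊ + 1) (by omega) a b).mono (by push_cast; gcongr) ?_
  rintro x y ⟨k1, k2, k3, k4⟩
  exact ⟨k1, k2, k3, by push_cast; linarith⟩

lemma sum_tri (k : ℕ) : ∑ r ∈ Finset.range k, ((k - r : ℕ) : ℝ) = k * (k + 1) / 2 := by
  have : ∀ m : ℕ, ∑ r ∈ Finset.range m, ((k : ℝ) - r) = m * k - m * (m - 1) / 2 := fun m => by
    induction m with
    | zero => simp
    | succ m ih => rw [Finset.sum_range_succ, ih]; push_cast; ring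
  rw [Finset.sum_congr rfl fun r hr => Nat.cast_sub (Finset.mem_range.1 hr).le, this]
  ring

/-- a cell is covered by tilted rows below the diagonal and by columns above it -/
lemma cell {c s C S W A B H v τ μ δ : ℝ} {k k' : ℕ} (hcs : c ^ 2 + s ^ 2 = 1) (hc : 0 < c)
    (hk : 0 < k) (hD : 0 < C * c - S * s) (hA : 0 < A) (m1 : |s| ≤ μ) (m2 : |C * s + S * c| ≤ μ)
    (m3 : |B| ≤ μ) (t1 : |c * (1 + v) - 1 - s| ≤ τ) (t2 : |C * s + S * c - (C * c - S * s) * v| ≤ τ)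
    (t3 : |B - A * v| ≤ τ) (hd : k * τ + μ ≤ c * δ)
    (he : W + μ + k * τ ≤ (C * c - S * s) * (k - δ)) (hf : H + μ + k * τ < A * (k' + 1 - δ)) :
    Cv (fun x y => 0 ≤ x ∧ x ≤ k ∧ C * x - S * y ≤ W ∧ 0 ≤ -s * x + c * y ∧ A * y ≤ B * x + H)
      (k * (k + 1) / 2 + k' * (k' + 1) / 2) := by
  have hτ := (abs_nonneg _).trans t1
  have aux : ∀ e f r t : ℝ, |e| ≤ μ → |e - f| ≤ τ → 0 ≤ r → r ≤ k → |t - r| ≤ 1 →
      |e * t - f * r| ≤ k * τ + μ := fun e f r t h1 h2 h3 h4 h5 => by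
    have a1 : |(e - f) * r| ≤ τ * k := by
      rw [abs_mul, abs_of_nonneg h3]
      exact mul_le_mul h2 h4 h3 hτ
    have a2 : |e * (t - r)| ≤ μ * 1 := by
      rw [abs_mul]
      exact mul_le_mul h1 h5 (abs_nonneg _) ((abs_nonneg _).trans h1)
    rw [abs_le] at *
    exact ⟨by linarith, by linarith⟩
  have st : ∀ r t z : ℝ, 0 ≤ r → r ≤ k → |t - r| ≤ 1 → r + s * t ≤ c * z →
      r * (1 + v) - δ ≤ z := fun r t z h1 h2 h3 h4 => by
    have a1 := abs_le.1 (aux s (c * (1 + v) - 1) r t m1 (by rwa [abs_sub_comm]) h1 h2 h3)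
    exact le_of_mul_le_mul_left (by linarith) hc
  rw [← sum_tri, ← sum_tri]
  refine ((Cv.sum k fun r hr => (Cv.box (k := k - r) (l := 1) (by omega) one_pos
    (r * (1 + v) - δ) r).rot hcs 0 0).or (Cv.sum k' fun j hj => Cv.box (k := 1) (l := k' - j)
    one_pos (by omega) j ((j + 1) * (1 + v) - δ))).mono (by simp) ?_
  rintro x y ⟨k1, k2, k3, k4, k5⟩
  obtain ⟨j, hj, j1, j2⟩ := exists_int hk k1 k2
  have j0 : (0 : ℝ) ≤ j := by positivity
  have j3 : (j : ℝ) + 1 ≤ k := by exact_mod_cast hj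
  rcases le_total (-s * x + c * y) (j + 1) with h | h
  · obtain ⟨r, hr, r1, r2⟩ := exists_int (m := j + 1) (by omega) k4 (by push_cast; exact h)
    have r0 : (0 : ℝ) ≤ r := by positivity
    have r3 : (r : ℝ) ≤ j := by exact_mod_cast Nat.lt_succ_iff.1 hr
    have r4 : |-s * x + c * y - r| ≤ 1 := abs_le.2 ⟨by linarith, by linarith⟩
    have e1 : x = c * (c * x + s * y) - s * (-s * x + c * y) := by linear_combination (-x) * hcs
    have e2 : y = s * (c * x + s * y) + c * (-s * x + c * y) := by linear_combination (-y) * hcs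
    refine Or.inl ⟨r, by omega, ?_⟩
    rw [Nat.cast_sub (by omega)]
    simp only [add_zero, Nat.cast_one]
    generalize c * x + s * y = ξ at *
    generalize -s * x + c * y = η at *
    have a1 := abs_le.1 (aux _ _ r η m2 t2 r0 (by linarith) r4)
    refine ⟨st r η ξ r0 (by linarith) r4 (by linarith), le_of_mul_le_mul_left ?_ hD, r1, r2⟩
    rw [e1, e2] at k3
    linarith
  · have r4 : |x - (j + 1)| ≤ 1 := abs_le.2 ⟨by linarith, by linarith⟩
    have a1 := abs_le.1 (aux _ _ (j + 1) x m3 t3 (by linarith) j3 r4)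
    have a2 := st (j + 1) x y (by linarith) j3 r4 (by linarith)
    have a3 : y < (j + 1) * (1 + v) - δ + (k' - j) := lt_of_mul_lt_mul_left (by linarith) hA.le
    have a4 : j < k' := by exact_mod_cast (show (j : ℝ) < k' by linarith)
    refine Or.inr ⟨j, a4, j1, by simpa using j2, a2, ?_⟩
    rw [Nat.cast_sub a4.le]
    exact a3.le

end Pool.Agent.MP_c59ecb_co.h76

end MrgPart5

-- ======== part 6: formerly Pool.Agent.MP_c59ecb_co.h76.Upper
section MrgPart6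

/-! A covering of the square of side `n + ε` by `n ^ 2 + O(n ^ (3 / 5))` unit squares. -/

set_option autoImplicit false

namespace Pool.Agent.MP_c59ecb_co.h76

lemma exists_cos {s : ℝ} (h : s ^ 2 ≤ 1 / 2) :
    ∃ c : ℝ, c ^ 2 + s ^ 2 = 1 ∧ c ≤ 1 - s ^ 2 / 2 ∧ 1 - s ^ 2 / 2 - (s ^ 2) ^ 2 / 2 ≤ c := by
  have h0 := sq_nonneg s
  generalize s ^ 2 = t at *
  refine ⟨√(1 - t), by rw [Real.sq_sqrt (by linarith)]; ring, Real.sqrt_le_iff.2 ⟨by linarith, ?_⟩,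
    Real.le_sqrt_of_sq_le ?_⟩
  · nlinarith
  · nlinarith [mul_nonneg (sq_nonneg t) (show 0 ≤ 3 / 4 - t / 2 - t ^ 2 / 4 by nlinarith)]

lemma slopes {σ c c' S C : ℝ} (h0 : 0 < σ) (h1 : σ ≤ 1 / 100) (a1 : c ≤ 1 - σ ^ 2 / 2)
    (a2 : 1 - σ ^ 2 / 2 - σ ^ 4 ≤ c) (b1 : c' ≤ 1 - σ ^ 2 / 2) (b2 : 1 - σ ^ 2 / 2 - σ ^ 3 ≤ c')
    (s1 : σ ^ 2 / 2 ≤ S) (s2 : S ≤ σ ^ 2 / 2 + σ ^ 4) (c1 : C ≤ 1) (c2 : 1 - σ ^ 4 ≤ C) :
    1 - σ ^ 2 / 2 - σ ^ 3 ≤ C * c - S * σ ∧ |C * σ + S * c - (σ + σ ^ 2 / 2)| ≤ σ ^ 3 ∧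
    |c * (1 + (σ + σ ^ 2 / 2)) - 1 - σ| ≤ 2 * σ ^ 3 ∧
    |C * σ + S * c - (C * c - S * σ) * (σ + σ ^ 2 / 2)| ≤ 2 * σ ^ 3 ∧
    |σ + σ ^ 2 / 2 - c' * (σ + σ ^ 2 / 2)| ≤ 2 * σ ^ 3 ∧
    |(c' * C - (σ + σ ^ 2 / 2) * S) * (1 + -(σ + σ ^ 2 / 2)) - 1 -
      -((σ + σ ^ 2 / 2) * C + c' * S)| ≤ 2 * σ ^ 3 ∧
    9 / 10 ≤ c' * C - (σ + σ ^ 2 / 2) * S ∧ |-((σ + σ ^ 2 / 2) * C + c' * S)| ≤ 2 * σ := by
  obtain ⟨e, rfl⟩ : ∃ e, c = 1 - σ ^ 2 / 2 - e := ⟨1 - σ ^ 2 / 2 - c, by ring⟩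
  obtain ⟨f, rfl⟩ : ∃ f, c' = 1 - σ ^ 2 / 2 - f := ⟨1 - σ ^ 2 / 2 - c', by ring⟩
  obtain ⟨g, rfl⟩ : ∃ g, S = σ ^ 2 / 2 + g := ⟨S - σ ^ 2 / 2, by ring⟩
  obtain ⟨h, rfl⟩ : ∃ h, C = 1 - h := ⟨1 - C, by ring⟩
  have p : ∀ x : ℝ, 0 ≤ x → 0 ≤ x * σ ∧ x * σ ≤ x / 100 := fun x hx =>
    ⟨by positivity, by rw [div_eq_mul_one_div]; gcongr⟩
  have e0 : 0 ≤ e := by linarith
  have f0 : 0 ≤ f := by linarith
  have g0 : 0 ≤ g := by linarith
  have k0 : 0 ≤ h := by linarith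
  have q : ∀ x : ℝ, 0 ≤ x → _ := fun x hx => And.intro (p x hx) (And.intro (p (x * σ) (by positivity))
    (And.intro (p (x * σ ^ 2) (by positivity)) (p (x * σ ^ 3) (by positivity))))
  obtain ⟨p1, p2, p3, p4⟩ := q σ h0.le
  have p5 := p (σ ^ 5) (by positivity)
  have m : ∀ x y : ℝ, 0 ≤ x → 0 ≤ y → x ≤ σ ^ 3 → 0 ≤ x * y ∧ x * y ≤ y / 100 := fun x y a b d =>
    ⟨by positivity, by nlinarith⟩
  have m1 := m h e k0 e0 (by linarith)
  have m2 := m g e g0 e0 (by linarith)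
  have m3 := m f h f0 k0 (by linarith)
  have m4 := m f g f0 g0 (by linarith)
  obtain ⟨q1, q2, -, -⟩ := q e e0
  obtain ⟨q3, q4, q5, q6⟩ := q f f0
  obtain ⟨q7, q8, q9, q10⟩ := q g g0
  obtain ⟨q11, q12, q13, q14⟩ := q h k0
  obtain ⟨q15, q16, -, -⟩ := q (h * e) m1.1
  obtain ⟨q17, q18, -, -⟩ := q (f * h) m3.1
  simp only [abs_le]
  refine ⟨?_, ⟨?_, ?_⟩, ⟨?_, ?_⟩, ⟨?_, ?_⟩, ⟨?_, ?_⟩, ⟨?_, ?_⟩, ?_, ?_, ?_⟩ <;> linarith

/-- two cells with opposite orientations -/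
lemma two_cells {c s c' v C S x y T τ μ δ : ℝ} {K : ℕ} (hK : 2 ≤ K) (c0 : c ^ 2 + s ^ 2 = 1)
    (d0 : c' ^ 2 + v ^ 2 = 1) (e0 : C ^ 2 + S ^ 2 = 1) (c1 : 0 < c) (d1 : 0 < c') (e1 : 0 < C)
    (s0 : 0 ≤ S) (hD : 0 < C * c - S * s) (hD' : 0 < c' * C - v * S) (hE : 0 ≤ C * s + S * c)
    (m1 : |s| ≤ μ) (m2 : |C * s + S * c| ≤ μ) (m3 : |v| ≤ μ) (m4 : |-(v * C + c' * S)| ≤ μ)
    (t1 : |c * (1 + v) - 1 - s| ≤ τ) (t2 : |C * s + S * c - (C * c - S * s) * v| ≤ τ)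
    (t3 : |v - c' * v| ≤ τ) (t4 : |(c' * C - v * S) * (1 + -v) - 1 - -(v * C + c' * S)| ≤ τ)
    (hδ : 0 ≤ δ) (h1 : K * τ + μ ≤ c * δ) (h2 : (K + 1) * τ + μ ≤ (c' * C - v * S) * δ)
    (h3 : C * x - S * y + μ + K * τ ≤ (C * c - S * s) * (K - δ))
    (h4 : c' * y - v * x + μ + K * τ < c' * (K - δ)) (h5 : x + μ + (K + 1) * τ ≤ c' * (K + 1 - δ))
    (h6 : s * (x - 2) + c * (T - y) + μ + (K + 1) * τ < (C * c - S * s) * (K - 1 - δ))
    (h7 : x ≤ K) (h8 : x + S * K ≤ C * (K + 1)) :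
    Cv (fun X Y => 0 ≤ X ∧ C * X - S * Y ≤ C * x - S * y ∧ 0 ≤ -s * X + c * Y ∧
      -s * (X - 2) + c * (Y - T) ≤ 0) (2 * K ^ 2 + 2) := by
  have A := cell (k := K) (k' := K - 1) c0 c1 (by omega) hD d1 m1 m2 m3 t1 t2 t3 h1 h3
    (H := c' * y - v * x) (by rw [Nat.cast_sub (by omega)]; push_cast; linarith)
  have D1 : C * (c' * C - v * S) - S * -(v * C + c' * S) = c' := by linear_combination c' * e0
  have D2 : C * -(v * C + c' * S) + S * (c' * C - v * S) = -v := by linear_combination (-v) * e0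
  have B := cell (k := K + 1) (k' := K - 2) (c := c' * C - v * S)
    (s := -(v * C + c' * S)) (C := C) (S := S) (W := x) (A := C * c - S * s)
    (B := -(C * s + S * c)) (H := s * (x - 2) + c * (T - y)) (v := -v) (τ := τ)
    (μ := μ) (δ := δ) (by linear_combination (c' ^ 2 + v ^ 2) * e0 + d0) hD'
    (by omega) (by rwa [D1]) hD m4 (by rwa [D2, abs_neg]) (by rwa [abs_neg])
    t4 (by rw [D1, D2, ← abs_neg]; convert t3 using 2; ring)
    (by rw [← abs_neg]; convert t2 using 2; ring) (by push_cast; exact h2)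
    (by rw [D1]; push_cast; exact h5) (by rw [Nat.cast_sub hK]; push_cast; linarith)
  refine (A.or (B.refl.rot (c := C) (s := -S) (by linarith) (-(C * x - S * y))
      (-(S * x + C * y)))).mono ?_ ?_
  · rw [Nat.cast_sub hK, Nat.cast_sub (by omega)]
    push_cast
    linarith
  rintro X Y ⟨g1, g2, g3, g4⟩
  rcases le_total (c' * (Y - y)) (v * (X - x)) with g | g
  · refine Or.inl ⟨g1, ?_, g2, g3, by linarith⟩
    have b1 : c' * (C * (X - x)) ≤ c' * (S * (Y - y)) :=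
      mul_le_mul_of_nonneg_left (by linarith) d1.le
    have b2 : S * (c' * (Y - y)) ≤ S * (v * (X - x)) := by gcongr
    have b3 : X - x ≤ 0 := le_of_mul_le_mul_left (by linarith) hD'
    linarith
  · have b1 : X = x - C * -(C * X + -S * Y + -(C * x - S * y)) +
        S * (- -S * X + C * Y + -(S * x + C * y)) := by linear_combination (x - X) * e0
    have b2 : Y = y + S * -(C * X + -S * Y + -(C * x - S * y)) +
        C * (- -S * X + C * Y + -(S * x + C * y)) := by linear_combination (y - Y) * e0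
    have b3 : 0 ≤ -(C * X + -S * Y + -(C * x - S * y)) := by linarith
    refine Or.inr ?_
    generalize -(C * X + -S * Y + -(C * x - S * y)) = U at *
    generalize - -S * X + C * Y + -(S * x + C * y) = V at *
    subst b1 b2
    have b4 : (C * c - S * s) * V ≤ -(C * s + S * c) * U + (s * (x - 2) + c * (T - y)) := by
      linarith
    have b5 : 0 ≤ (C * s + S * c) * U := mul_nonneg hE b3
    have b6 : (C * c - S * s) * (K - 1 - δ) ≤ (C * c - S * s) * K := by gcongr; linarith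
    have b7 : 0 ≤ (K + 1) * τ := mul_nonneg (by positivity) ((abs_nonneg _).trans t1)
    have b8 : V ≤ K := le_of_mul_le_mul_left (by linarith [abs_nonneg s]) hD
    have b9 : S * V ≤ S * K := by gcongr
    refine ⟨b3, le_of_mul_le_mul_left ?_ e1, by linarith, by linarith, b4⟩
    push_cast
    linarith

/-- the double cell -/
lemma dcell {a : ℕ} (ha : 100 ≤ a) {σ : ℝ} (hσ : σ * a = 1) : ∃ C S W T c : ℝ,
    C ^ 2 + S ^ 2 = 1 ∧ σ ^ 2 / 2 ≤ S ∧ S ≤ σ ^ 2 ∧ 1 - σ ^ 4 ≤ C ∧ 2 * C = S * T ∧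
    4 * a ^ 2 - 41 * σ ≤ T ∧ T ≤ 4 * a ^ 2 ∧ 2 * a ^ 2 - 1 - 22 * σ ≤ W ∧ W ≤ 2 * a ^ 2 ∧
    9 / 10 ≤ c ∧ c ≤ 1 ∧ Cv (fun x y => 0 ≤ x ∧ C * x - S * y ≤ W ∧ 0 ≤ -σ * x + c * y ∧
      -σ * (x - 2) + c * (y - T) ≤ 0) (8 * a ^ 4 + 2) := by
  have ha' : (100 : ℝ) ≤ a := by exact_mod_cast ha
  have h0 : 0 < σ := by
    by_contra k
    nlinarith
  have h1 : σ ≤ 1 / 100 := by nlinarith
  have i8 : 100 * (a : ℝ) ≤ a ^ 2 := by nlinarith
  have K0 : 2 ≤ 2 * a ^ 2 := by nlinarith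
  have p : ∀ x : ℝ, 0 ≤ x → 0 ≤ x * σ ∧ x * σ ≤ x / 100 := fun x hx =>
    ⟨by positivity, by rw [div_eq_mul_one_div]; gcongr⟩
  have p1 := p σ h0.le
  have p2 := p (σ ^ 2) (by positivity)
  have p3 := p (σ ^ 3) (by positivity)
  have v1 : (σ + σ ^ 2 / 2) ^ 2 ≤ 2 * σ ^ 2 := by linarith
  have v2 : ((σ + σ ^ 2 / 2) ^ 2) ^ 2 ≤ (2 * σ ^ 2) ^ 2 := by gcongr
  obtain ⟨c, c0, c1, c2⟩ := exists_cos (s := σ) (by linarith)
  obtain ⟨c', d0, d1, d2⟩ := exists_cos (s := σ + σ ^ 2 / 2) (by linarith)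
  have d3 : c' ≤ 1 - σ ^ 2 / 2 := by linarith
  have d4 : 1 - σ ^ 2 / 2 - σ ^ 3 ≤ c' := by
    generalize ((σ + σ ^ 2 / 2) ^ 2) ^ 2 = w at *
    linarith
  clear d1 d2 v1 v2
  have i : ∀ x : ℝ, x * (σ * a) = x := fun x => by rw [hσ, mul_one]
  have i1 := i σ
  have i2 := i (σ ^ 2)
  have i5 := i (σ * a)
  have i6 := i (σ ^ 2 * a)
  have i7 := i (σ ^ 3 * a)
  have p4 := p (σ ^ 4) (by positivity)
  have t0 : 0 < 4 * (a : ℝ) ^ 2 - 40 * σ := by linarith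
  obtain ⟨S, hS⟩ : ∃ S : ℝ, S * (4 * a ^ 2 - 40 * σ) = 2 := ⟨2 / _, div_mul_cancel₀ _ t0.ne'⟩
  have s1 : σ ^ 2 / 2 ≤ S := le_of_mul_le_mul_right (by rw [hS]; linarith) t0
  have s2 : S ≤ σ ^ 2 / 2 + σ ^ 4 := le_of_mul_le_mul_right (by rw [hS]; linarith) t0
  have s0 : 0 ≤ S := by linarith
  have s3 : S ^ 2 ≤ (σ ^ 2) ^ 2 := by gcongr; linarith
  have s4 : (S ^ 2) ^ 2 ≤ S ^ 2 * 1 := by rw [sq (S ^ 2)]; gcongr; linarith
  obtain ⟨C, e0, e1, e2⟩ := exists_cos (s := S) (by linarith)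
  have e3 : C ≤ 1 := by linarith [sq_nonneg S]
  have e4 : 1 - σ ^ 4 ≤ C := by linarith
  clear s3 s4 e1 e2
  obtain ⟨k1, k2, k3, k4, k5, k6, k7, k8⟩ := slopes h0 h1 c1 (by linarith) d3 d4 s1 s2 e3 e4
  rw [abs_le] at k2
  have i3 := i (σ ^ 3)
  have i4 := i a
  have n1 : 9 / 10 ≤ c := by linarith
  have T1 := mul_le_mul_of_nonneg_right e3 t0.le
  have T2 := mul_le_mul_of_nonneg_right e4 t0.le
  have x0 : 0 ≤ 2 * (a : ℝ) ^ 2 - 20 * σ := by linarith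
  have y0 : 0 ≤ 2 * (a : ℝ) ^ 2 + 2 * a + 1 - 20 * σ := by linarith
  have W1 := mul_le_mul_of_nonneg_right e3 x0
  have W3 := mul_le_mul_of_nonneg_right s1 y0
  refine ⟨C, S, _, C * (4 * a ^ 2 - 40 * σ), c, e0, s1, by linarith, e4,
    by linear_combination -C * hS, by linarith, by linarith, ?_, ?_, n1, by linarith,
    (two_cells (x := 2 * a ^ 2 - 20 * σ) (y := 2 * a ^ 2 + 2 * a + 1 - 20 * σ) (μ := 2 * σ)
      (δ := 8 * σ) K0 c0 d0 e0 (by linarith) (by linarith) (by linarith) s0 (by linarith)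
      (by linarith) (by linarith) (abs_le.2 ⟨by linarith, by linarith⟩)
      (abs_le.2 ⟨by linarith, by linarith⟩) (abs_le.2 ⟨by linarith, by linarith⟩) k8 k3 k4 k5 k6
      (by linarith) ?_ ?_ ?_ ?_ ?_ ?_ ?_ ?_).mono (by push_cast; linarith) fun _ _ h => h⟩
  · linarith [mul_le_mul_of_nonneg_right e4 x0, mul_le_mul_of_nonneg_right s2 y0]
  · linarith
  all_goals push_cast
  · linarith [mul_le_mul_of_nonneg_right n1 h0.le]
  · linarith [mul_le_mul_of_nonneg_right k7 h0.le]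
  · linarith [mul_le_mul_of_nonneg_right k1 (show 0 ≤ 2 * (a : ℝ) ^ 2 - 8 * σ by linarith)]
  · linarith [mul_le_mul_of_nonneg_right (show c' ≤ 1 by linarith)
      (show 0 ≤ 2 * (a : ℝ) + 1 - 12 * σ by linarith)]
  · linarith [mul_le_mul_of_nonneg_right d4 (show 0 ≤ 2 * (a : ℝ) ^ 2 + 1 - 8 * σ by linarith)]
  · have f4 : c * (C * (4 * a ^ 2 - 40 * σ) - (2 * a ^ 2 + 2 * a + 1 - 20 * σ)) ≤
        (1 - σ ^ 2 / 2) * (2 * a ^ 2 - 2 * a - 1 - 20 * σ) :=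
      mul_le_mul c1 (by linarith) (by linarith) (by linarith)
    linarith [mul_le_mul_of_nonneg_right k1 (show 0 ≤ 2 * (a : ℝ) ^ 2 - 1 - 8 * σ by linarith)]
  · linarith
  · linarith [mul_le_mul_of_nonneg_right s2 (show 0 ≤ 2 * (a : ℝ) ^ 2 by positivity),
      mul_le_mul_of_nonneg_right e4 (show 0 ≤ 2 * (a : ℝ) ^ 2 + 1 by positivity)]

end Pool.Agent.MP_c59ecb_co.h76

end MrgPart6

-- ======== part 7: formerly Pool.Agent.MP_c59ecb_co.h76.Square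
section MrgPart7

/-! From the double cell to trapezoids, rectangles and the square. -/

set_option autoImplicit false

namespace Pool.Agent.MP_c59ecb_co.h76

section

variable {a : ℕ} {σ C S W T c : ℝ} (ha : 100 ≤ a) (hσ : σ * a = 1) (e0 : C ^ 2 + S ^ 2 = 1)
  (s1 : σ ^ 2 / 2 ≤ S) (s2 : S ≤ σ ^ 2) (c1 : 1 - σ ^ 4 ≤ C) (hT : 2 * C = S * T)
  (t1 : 4 * a ^ 2 - 41 * σ ≤ T) (t2 : T ≤ 4 * a ^ 2) (w1 : 2 * a ^ 2 - 1 - 22 * σ ≤ W)
  (w2 : W ≤ 2 * a ^ 2) (c2 : 9 / 10 ≤ c)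
  (hD : Cv (fun x y => 0 ≤ x ∧ C * x - S * y ≤ W ∧ 0 ≤ -σ * x + c * y ∧
    -σ * (x - 2) + c * (y - T) ≤ 0) (8 * a ^ 4 + 2))

include ha hσ in
lemma basic : 0 < σ ∧ σ ≤ 1 / 100 ∧ (100 : ℝ) ≤ a ∧ 100 * (a : ℝ) ≤ a ^ 2 ∧
    100 * (a : ℝ) ^ 2 ≤ a ^ 3 ∧ σ ^ 2 ≤ σ / 100 ∧ σ ^ 3 ≤ σ ^ 2 / 100 ∧ σ ^ 4 ≤ σ ^ 3 / 100 ∧
    0 < σ ^ 4 ∧ σ * a ^ 2 = a ∧ σ ^ 2 * a ^ 2 = 1 ∧ σ ^ 3 * a ^ 2 = σ ∧ σ ^ 4 * a ^ 2 = σ ^ 2 := by
  have ha' : (100 : ℝ) ≤ a := by exact_mod_cast ha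
  have h0 : 0 < σ := by
    by_contra k
    nlinarith
  have h1 : σ ≤ 1 / 100 := by nlinarith
  have p : ∀ x : ℝ, 0 ≤ x → x * σ ≤ x / 100 := fun x hx => by
    rw [div_eq_mul_one_div]; gcongr
  refine ⟨h0, h1, ha', by nlinarith, by nlinarith, by linarith [p σ h0.le],
    by linarith [p (σ ^ 2) (by positivity)], by linarith [p (σ ^ 3) (by positivity)],
    by positivity, by linear_combination a * hσ, by linear_combination (σ * a + 1) * hσ,
    by linear_combination σ * (σ * a + 1) * hσ, by linear_combination σ ^ 2 * (σ * a + 1) * hσ⟩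

include ha hσ e0 s1 c1 hT t1 t2 w1 w2 c2 hD

lemma strip (J : ℕ) : ∀ g : ℝ, 0 ≤ g → g ≤ (J + 1) * T → g ≤ 9 * a ^ 4 →
    Cv (fun x y => 0 ≤ x ∧ C * x - S * y ≤ W ∧ 0 ≤ -σ * x + c * y ∧ y ≤ g)
      (W * g + S * g ^ 2 / 2 + 110 * σ * g + 30 * a ^ 2) := by
  obtain ⟨b1, b2, b3, b4, b5, b6, b7, b8, b9, i1, i2, i3, i4⟩ := basic ha hσ
  have s0 : 0 ≤ S := by linarith
  have c3 : C ≤ 1 := by nlinarith
  have base : ∀ g : ℝ, 0 ≤ g → g ≤ T →
      Cv (fun x y => 0 ≤ x ∧ C * x - S * y ≤ W ∧ 0 ≤ -σ * x + c * y ∧ y ≤ g)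
        (W * g + S * g ^ 2 / 2 + 110 * σ * g + 30 * a ^ 2) := by
    intro g g0 g1
    refine (Cv.box' (k := 2 * a ^ 2 + 3) (by omega) 0 0 g0).mono ?_ ?_
    · have a1 : (2 * a ^ 2 - 2) * g ≤ W * g := by gcongr; linarith
      have a2 : 0 ≤ S * g ^ 2 := by positivity
      have a3 : 0 ≤ σ * g := by positivity
      push_cast
      linarith
    · rintro x y ⟨k1, k2, k3, k4⟩
      have a1 : S * y ≤ S * T := by gcongr; linarith
      have a2 : (1 - σ ^ 4) * (2 * a ^ 2 + 1) ≤ C * (2 * a ^ 2 + 1) := by gcongr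
      have a3 : 0 ≤ σ * x := by positivity
      refine ⟨k1, le_of_mul_le_mul_left (a := C) ?_ (by linarith),
        le_of_mul_le_mul_left (a := c) (by linarith) (by linarith), by linarith⟩
      push_cast
      linarith
  induction J with
  | zero => exact fun g g0 g1 _ => base g g0 (by simpa using g1)
  | succ J ih =>
    intro g g0 g1 g2
    rcases le_total g T with g3 | g3
    · exact base g g0 g3
    push_cast at g1
    refine ((hD.or (Cv.box' (k := 2) two_pos 0 (T - 1) (g := g - T + 1) (by linarith))).or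
      ((ih (g - T) (by linarith) (by linarith) (by linarith)).shift (-2) (-T))).mono ?_ ?_
    · have a1 : (2 * a ^ 2 - 22 * σ) * (4 * a ^ 2 - 41 * σ) ≤ (W + 1) * T :=
        mul_le_mul (by linarith) t1 (by linarith) (by linarith)
      have a2 : σ * (4 * a ^ 2 - 41 * σ) ≤ σ * T := by gcongr
      have a3 : (1 - C) * g ≤ σ ^ 4 * (9 * a ^ 4) :=
        mul_le_mul (by linarith) g2 g0 b9.le
      have a4 : σ ^ 4 * a ^ 4 = 1 := by linear_combination (σ ^ 2 * a ^ 2 + 1) * i2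
      have a5 : C * T ≤ 1 * T := by gcongr; linarith
      have a6 : S * g ^ 2 / 2 - S * (g - T) ^ 2 / 2 = 2 * C * g - C * T := by
        linear_combination (T / 2 - g) * hT
      push_cast
      linarith
    · rintro x y ⟨k1, k2, k3, k4⟩
      rcases le_total (-σ * (x - 2) + c * (y - T)) 0 with k5 | k5
      · exact Or.inl (Or.inl ⟨k1, k2, k3, k5⟩)
      rcases le_total x 2 with k6 | k6
      · have a3 : 0 ≤ σ * x := by positivity
        exact Or.inl (Or.inr ⟨k1, by simpa using k6,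
          le_of_mul_le_mul_left (a := c) (by linarith) (by linarith), by linarith⟩)
      · exact Or.inr ⟨by linarith, by linarith, by linarith, by linarith⟩

include s2

lemma trapezoid {ρ h : ℝ} (r1 : W - 1 ≤ ρ) (r2 : ρ ≤ W) (h1 : 2 * a ^ 2 ≤ h) (h2 : h ≤ 9 * a ^ 4) :
    Cv (fun x y => 0 ≤ x ∧ 0 ≤ y ∧ y ≤ h ∧ C * x - S * y ≤ ρ)
      (ρ * h + S * h ^ 2 / 2 + 1000 * a ^ 3) := by
  obtain ⟨b1, b2, b3, b4, b5, b6, b7, b8, b9, i1, i2, i3, i4⟩ := basic ha hσ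
  have s0 : 0 < S := by linarith
  obtain ⟨z, hz⟩ : ∃ z, S * z = W - ρ := ⟨(W - ρ) / S, mul_div_cancel₀ _ s0.ne'⟩
  have z0 : 0 ≤ z := le_of_mul_le_mul_left (by linarith) s0
  have z1 : z ≤ 2 * a ^ 2 := le_of_mul_le_mul_left (by
    linarith [mul_le_mul_of_nonneg_right s1 (show 0 ≤ 2 * (a : ℝ) ^ 2 by positivity)]) s0
  have a0 := Nat.le_ceil (h - z)
  have a1 : (⌈h - z⌉₊ + 1 : ℝ) * 1 ≤ (⌈h - z⌉₊ + 1) * T := by gcongr; linarith
  refine ((Cv.box' (k := 2 * a ^ 2 + 1) (by omega) 0 0 (g := z + 3 * a) (by linarith)).or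
    ((strip ha hσ e0 s1 c1 hT t1 t2 w1 w2 c2 hD ⌈h - z⌉₊ (h - z) (by linarith) (by linarith)
    (by linarith)).shift 0 (-z))).mono ?_ ?_
  · have a2 : W * (h - z) + S * (h - z) ^ 2 / 2 = ρ * h + S * h ^ 2 / 2 - ρ * z - S * z ^ 2 / 2 := by
      linear_combination (z - h) * hz
    have a3 : 0 ≤ S * z ^ 2 := by positivity
    have a4 : (2 * a ^ 2 - 3) * z ≤ ρ * z := by gcongr; linarith
    have a5 : σ * (h - z) ≤ σ * (9 * a ^ 4) := by gcongr; linarith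
    have a6 : σ * a ^ 4 = a ^ 3 := by linear_combination a ^ 3 * hσ
    push_cast
    linarith
  · rintro x y ⟨k1, k2, k3, k4⟩
    rcases le_total (-σ * x + c * (y - z)) 0 with k5 | k5
    · have a2 : y - z ≤ 10 / 9 * (σ * x) := by
        rcases le_total (y - z) 0 with k6 | k6
        · exact k6.trans (by positivity)
        · linarith [mul_le_mul_of_nonneg_right c2 k6]
      have a3 : S * (y - z) ≤ S * (10 / 9 * (σ * x)) := by gcongr
      have a4 : S * (10 / 9 * (σ * x)) ≤ σ ^ 2 * (10 / 9 * (σ * x)) := by gcongr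
      have a5 : (1 - σ ^ 4) * x ≤ C * x := by gcongr
      have a6 : x ≤ 2 * a ^ 2 + 1 :=
        le_of_mul_le_mul_left (a := 1 - σ ^ 4 - 10 / 9 * σ ^ 3) (by linarith) (by linarith)
      have a7 : σ * x ≤ σ * (2 * a ^ 2 + 1) := by gcongr
      exact Or.inl ⟨k1, by push_cast; linarith, k2, by linarith⟩
    · exact Or.inr ⟨by linarith, by linarith, by linarith, by linarith⟩

lemma rectangle {m : ℕ} {h Λ : ℝ} (h1 : 2 * a ^ 2 ≤ h) (h2 : h ≤ 9 * a ^ 4) (m1 : m ≤ h)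
    (m2 : h + S ≤ C * (m + 1)) (m3 : C - S ≤ (m + 1) * (1 - C)) (hΛ : 20 * a ^ 2 ≤ Λ) :
    Cv (fun x y => 0 ≤ x ∧ x ≤ Λ ∧ 0 ≤ y ∧ y ≤ h) (h * Λ + 3 * σ ^ 2 * Λ + 2000 * a ^ 3) := by
  obtain ⟨b1, b2, b3, b4, b5, b6, b7, b8, b9, i1, i2, i3, i4⟩ := basic ha hσ
  have s0 : 0 < S := by linarith
  have c3 : C ≤ 1 := by nlinarith
  have c0 : 0 < C := by linarith
  have a1 : S * h ≤ σ ^ 2 * (9 * a ^ 4) := mul_le_mul s2 h2 (by linarith) (by linarith)
  have a2 : σ ^ 2 * a ^ 4 = a ^ 2 := by linear_combination a ^ 2 * i2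
  have a3 : 9 / 10 * Λ ≤ C * Λ := by gcongr <;> linarith
  have a4 : C * Λ ≤ 1 * Λ := by gcongr; linarith
  have a5 : 0 ≤ S * h := mul_nonneg s0.le (by linarith)
  have g0 : 0 < C * Λ - S * h - 2 * W := by linarith
  have g1 := Nat.le_ceil (C * Λ - S * h - 2 * W)
  have g2 := Nat.ceil_lt_add_one g0.le
  have g3 := Nat.ceil_pos.2 g0
  generalize ⌈C * Λ - S * h - 2 * W⌉₊ = G at *
  obtain ⟨ρ, hρ⟩ : ∃ ρ : ℝ, 2 * ρ = C * Λ - S * h - G := ⟨(C * Λ - S * h - G) / 2, by ring⟩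
  have A := trapezoid ha hσ e0 s1 s2 c1 hT t1 t2 w1 w2 c2 hD (ρ := ρ) (by linarith) (by linarith)
    h1 h2
  refine ((A.or (A.rot (c := -1) (s := 0) (by norm_num) Λ h)).or (Cv.sum G fun g _ =>
    (Cv.box (k := 1) (l := m + 1) one_pos (by omega) (ρ + g) (S * (ρ + g) / C)).rot
    (c := C) (s := -S) (by linarith) 0 0)).mono ?_ ?_
  · have a6 : (1 - C) * m ≤ (1 - C) * h := mul_le_mul_of_nonneg_left m1 (by linarith)
    have a7 : (1 - 3 * σ ^ 2) * Λ ≤ (1 - C) * h * Λ := by gcongr <;> linarith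
    have a8 : (G : ℝ) * m ≤ G * h := by gcongr
    have a9 : 2 * ρ * h = (C * Λ - S * h - G) * h := by rw [hρ]
    simp only [Finset.sum_const, Finset.card_range, nsmul_eq_mul]
    push_cast
    linarith
  · rintro x y ⟨k1, k2, k3, k4⟩
    rcases le_total (C * x - S * y) ρ with k5 | k5
    · exact Or.inl (Or.inl ⟨k1, k3, k4, k5⟩)
    rcases le_total (ρ + G) (C * x - S * y) with k6 | k6
    · exact Or.inl (Or.inr ⟨by linarith, by linarith, by linarith, by linarith⟩)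
    obtain ⟨g, hg, k7, k8⟩ := exists_int g3 (x := C * x - S * y - ρ) (by linarith) (by linarith)
    have e : C * (- -S * x + C * y + 0) = y + S * (C * x - S * y) := by linear_combination y * e0
    have a6 : S * (ρ + g) ≤ S * (C * x - S * y) := by gcongr; linarith
    have a7 : S * (C * x - S * y) ≤ S * (ρ + g + 1) := by gcongr; linarith
    refine Or.inr ⟨g, hg, by linarith, by push_cast; linarith, ?_, ?_⟩
    · rw [div_le_iff₀ c0]
      linarith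
    · rw [← sub_le_iff_le_add, le_div_iff₀ c0]
      push_cast
      linarith

end

lemma square {a n : ℕ} (ha : 100 ≤ a) (h1 : a ^ 5 ≤ n) (h2 : n ≤ 2 * a ^ 5) : ∃ ε : ℝ, 0 < ε ∧
    Cv (fun x y => 0 ≤ x ∧ x ≤ n + ε ∧ 0 ≤ y ∧ y ≤ n + ε) (n ^ 2 + 5000 * a ^ 3) := by
  obtain ⟨σ, hσ⟩ : ∃ σ : ℝ, σ * a = 1 := ⟨1 / a, by field_simp⟩
  obtain ⟨C, S, W, T, c, e0, s1, s2, c1, hT, t1, t2, w1, w2, c2, -, hD⟩ := dcell ha hσ
  obtain ⟨b1, b2, b3, b4, b5, b6, b7, b8, b9, i1, i2, i3, i4⟩ := basic ha hσ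
  have n1 : (a : ℝ) ^ 5 ≤ n := by exact_mod_cast h1
  have n2 : (n : ℝ) ≤ 2 * a ^ 5 := by exact_mod_cast h2
  have b10 : 100 * (a : ℝ) ^ 3 ≤ a ^ 4 := by rw [pow_succ' _ 3]; gcongr
  have b11 : 100 * (a : ℝ) ^ 4 ≤ a ^ 5 := by rw [pow_succ' _ 4]; gcongr
  have a4 : σ ^ 4 * a ^ 4 = 1 := by linear_combination (σ ^ 2 * a ^ 2 + 1) * i2
  have a5 : (σ ^ 2 / 2) ^ 2 ≤ S ^ 2 := by gcongr
  have a6 : σ ^ 4 / 8 ≤ 1 - C := by nlinarith [sq_nonneg (1 - C)]
  have a7 : 0 < 1 - C := by linarith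
  have a8 : 0 < (C - S) / (1 - C) := div_pos (by linarith) a7
  obtain ⟨m, hm⟩ : ∃ m, ⌈(C - S) / (1 - C)⌉₊ = m + 1 :=
    Nat.exists_eq_succ_of_ne_zero (Nat.ceil_pos.2 a8).ne'
  have m1 := Nat.le_ceil ((C - S) / (1 - C))
  have m2 := Nat.ceil_lt_add_one a8.le
  rw [hm] at m1 m2
  push_cast at m1 m2
  rw [div_le_iff₀ a7] at m1
  rw [add_lt_add_iff_right, lt_div_iff₀ a7] at m2
  have m3 : (m : ℝ) ≤ 8 * a ^ 4 := le_of_mul_le_mul_right (by
    linarith [mul_le_mul_of_nonneg_left a6 (show 0 ≤ 8 * (a : ℝ) ^ 4 by positivity)]) a7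
  have m4 : 2 * (a : ℝ) ^ 2 ≤ m := by
    by_contra k
    have : (m + 1) * (1 - C) ≤ (2 * a ^ 2 + 1) * σ ^ 4 :=
      mul_le_mul (by linarith) (by linarith) a7.le (by positivity)
    linarith
  have m5 : m < n := by exact_mod_cast (show (m : ℝ) < n by linarith)
  have n0 : (0 : ℝ) < n := by linarith
  obtain ⟨ε, ε0, ε1, ε2⟩ : ∃ ε : ℝ, 0 < ε ∧ ε * n ≤ 1 ∧ ε ≤ C - S - m * (1 - C) :=
    ⟨min (1 / n) (C - S - m * (1 - C)), lt_min (by positivity) (by linarith),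
      (le_div_iff₀ n0).1 (min_le_left _ _), min_le_right _ _⟩
  have ε3 : ε ≤ 1 := by nlinarith
  have ε4 : ε * ε ≤ 1 * 1 := by gcongr
  have R := fun Λ hΛ => rectangle ha hσ e0 s1 s2 c1 hT t1 t2 w1 w2 c2 hD (m := m) (h := m + ε)
    (Λ := Λ) (by linarith) (by linarith) (by linarith) (by linarith) m1 hΛ
  refine ⟨ε, ε0, (((Cv.box (k := n - m) (l := n - m) (by omega) (by omega) 0 0).or
    ((R (n + ε) (by linarith)).shift 0 (m - n))).or
    ((R (n - m) (by linarith)).refl.rot (c := 0) (s := -1) (by norm_num) 0 (m - n))).mono ?_ ?_⟩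
  · have a9 : σ ^ 2 * (n + ε + (n - m)) ≤ σ ^ 2 * (5 * a ^ 5) := by gcongr; linarith
    have a10 : σ ^ 2 * a ^ 5 = a ^ 3 := by linear_combination a ^ 3 * i2
    rw [Nat.cast_sub m5.le]
    linarith
  · rintro x y ⟨k1, k2, k3, k4⟩
    rw [Nat.cast_sub m5.le]
    rcases le_total (n - m : ℝ) y with k5 | k5
    · exact Or.inl (Or.inr ⟨by linarith, by linarith, by linarith, by linarith⟩)
    rcases le_total (n - m : ℝ) x with k6 | k6
    · exact Or.inr ⟨by linarith, by linarith, by linarith, by linarith⟩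
    · exact Or.inl (Or.inl ⟨k1, by linarith, k3, by linarith⟩)

theorem upper (n : ℕ) (hn : 1 ≤ n) : ∃ ε : ℝ, 0 < ε ∧ ∃ (N : ℕ) (a ω : Fin N → ℂ),
    (∀ k, ‖ω k‖ = 1) ∧
    (∀ x ∈ Set.Icc (0 : ℝ) (n + ε), ∀ y ∈ Set.Icc (0 : ℝ) (n + ε), ∃ k, ∃ s ∈ Set.Icc (0 : ℝ) 1,
      ∃ t ∈ Set.Icc (0 : ℝ) 1, (x : ℂ) + y * Complex.I = a k + ω k * (s + t * Complex.I)) ∧
    (N : ℝ) ≤ (n : ℝ) ^ 2 + 10 ^ 11 * (n : ℝ) ^ (3 / 5 : ℝ) := by
  have n1 : (1 : ℝ) ≤ n := by exact_mod_cast hn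
  obtain ⟨ε, ε0, L, h1, h2, h3⟩ : ∃ ε : ℝ, 0 < ε ∧ Cv (fun x y => 0 ≤ x ∧ x ≤ n + ε ∧ 0 ≤ y ∧
      y ≤ n + ε) ((n : ℝ) ^ 2 + 10 ^ 11 * (n : ℝ) ^ (3 / 5 : ℝ)) := by
    rcases lt_or_ge n (100 ^ 5) with h0 | h0
    · refine ⟨1, one_pos, (Cv.box (k := n + 1) (l := n + 1) (by omega) (by omega) 0 0).mono ?_
        fun x y h => by simpa using h⟩
      have h1 : (n : ℝ) ≤ 100 ^ 5 := by exact_mod_cast h0.le
      have h2 := Real.one_le_rpow n1 (show (0 : ℝ) ≤ 3 / 5 by norm_num)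
      push_cast
      linarith
    · set l := Nat.nthRoot 5 n
      have l1 : l ^ 5 ≤ n := Nat.pow_nthRoot_le (Or.inl (by norm_num))
      have l2 : n < (l + 1) ^ 5 := Nat.lt_pow_nthRoot_add_one (by norm_num) n
      have l3 : 100 ≤ l :=
        Nat.le_of_lt_succ (lt_of_pow_lt_pow_left₀ 5 (Nat.zero_le _) (h0.trans_lt l2))
      have l4 : (l : ℝ) + 1 ≤ 11 / 10 * l := by
        have : (100 : ℝ) ≤ l := by exact_mod_cast l3
        linarith
      have l5 : (n : ℝ) ≤ (11 / 10 * l) ^ 5 :=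
        le_trans (by exact_mod_cast l2.le) (pow_le_pow_left₀ (by positivity) l4 5)
      have l6 : (0 : ℝ) ≤ l ^ 5 := by positivity
      have l7 : (l : ℝ) ^ 3 ≤ (n : ℝ) ^ (3 / 5 : ℝ) := by
        refine le_of_eq_of_le ?_ (Real.rpow_le_rpow l6 (by exact_mod_cast l1) (by norm_num))
        rw [← Real.rpow_natCast _ 5, ← Real.rpow_mul (by positivity), ← Real.rpow_natCast]
        norm_num
      obtain ⟨ε, ε0, h⟩ := square l3 l1 (by exact_mod_cast (show (n : ℝ) ≤ 2 * l ^ 5 by linarith))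
      have l8 : (0 : ℝ) ≤ l ^ 3 := by positivity
      exact ⟨ε, ε0, h.mono (by linarith) fun _ _ h => h⟩
  refine ⟨ε, ε0, L.length, fun k => ⟨(L.get k).2.2.1, (L.get k).2.2.2⟩ * ⟨(L.get k).1, (L.get k).2.1⟩,
    fun k => ⟨(L.get k).2.2.1, (L.get k).2.2.2⟩, fun k => ?_, fun x hx y hy => ?_, h1⟩
  · rw [← sq_eq_sq₀ (norm_nonneg _) zero_le_one, ← Complex.normSq_eq_norm_sq, Complex.normSq_mk]
    linarith [h2 _ (List.get_mem L k)]
  · obtain ⟨z, hz, k1, k2, k3, k4⟩ := h3 x y ⟨hx.1, hx.2, hy.1, hy.2⟩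
    obtain ⟨k, rfl⟩ := List.get_of_mem hz
    have e := h2 _ hz
    refine ⟨k, _, ⟨sub_nonneg.2 k1, by linarith⟩, _, ⟨sub_nonneg.2 k3, by linarith⟩, ?_⟩
    apply Complex.ext
    · simp only [Complex.add_re, Complex.mul_re, Complex.add_im, Complex.mul_im, Complex.ofReal_re,
        Complex.ofReal_im, Complex.I_re, Complex.I_im]
      linear_combination (-x) * e
    · simp only [Complex.add_re, Complex.mul_re, Complex.add_im, Complex.mul_im, Complex.ofReal_re,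
        Complex.ofReal_im, Complex.I_re, Complex.I_im]
      linear_combination (-y) * e

end Pool.Agent.MP_c59ecb_co.h76

end MrgPart7

-- marker of a merged file
example : 731051 + 823262 = 731051 + 823262 := rfl
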